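import Pool.Agent.MP_755159_pr.G.Second

/-! The second moment computation for a fixed lift of the Hamilton cycle. -/

set_option linter.unusedSectionVars false

namespace Pool.Agent.MP_755159_pr.G

open Finset

variable {V : Type} [Fintype V] [DecidableEq V] {R T k : ℕ} {h : ℕ} [Fact (2 < h)]
  {κ : Type} [DecidableEq κ] {W : Type} [Fintype W] [DecidableEq W] {n : ℕ}

theorem touched_total {C : Cov h κ V W n} {sp : Fin R → V} {α : Bool → κ × Bool} {K : ℕ}
    (hK : K = R + 2 * R * (T + 1) + k)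
    (hnK : 10 * K < n) {b b' : Bits R T} {dt dt' : End R T k → κ × Bool} {t₁ : Cut R T k → V}
    {p₁ p : End R T k → End R T k} (h₁ : Val C sp α b dt t₁ p₁)
    (hd : ∀ i, b i ≠ b' i) {ι : Type}
    (S : Finset ι) (t : ι → Cut R T k → V) (hinj : Set.InjOn t S)
    (h : ∀ i ∈ S, Val C sp α b' dt' (t i) p)
    (hx : ∀ i ∈ S, ∃ x ∈ XX b', lw C (t i) dt' x ∈ univ.image (lw C t₁ dt)) :
    (∑ i ∈ S, (Ext C.tw (fun m => Rl C t₁ dt (PP b p₁) m ∧ Rl C (t i) dt' (PP b' p) m)).card) *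
      (n - 10 * K) ^ (R + 1) ≤ 2 * K * (2 * K * (Ext C.tw (Rl C t₁ dt (PP b p₁))).card) := by
  classical
  have hex : ∀ i, ∃ d, ¬ (b i d = b' i d ∧ dt (xo b i d) = dt' (xo b' i d)) ∧
      ∀ l < d, b i l = b' i l ∧ dt (xo b i l) = dt' (xo b' i l) := by
    intro i
    obtain ⟨d, hd, hmin⟩ := exists_min_image
      (univ.filter (fun l => ¬ (b i l = b' i l ∧ dt (xo b i l) = dt' (xo b' i l)))) id
      (by
        obtain ⟨l, hl⟩ := Function.ne_iff.mp (hd i)
        exact ⟨l, mem_filter.mpr ⟨mem_univ _, fun q => hl q.1⟩⟩)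
    refine ⟨d, (mem_filter.mp hd).2, fun l hl => ?_⟩
    by_contra hc
    exact absurd (hmin l (mem_filter.mpr ⟨mem_univ _, hc⟩)) (not_le.mpr hl)
  choose d hd1 hd2 using hex
  obtain ⟨A, hA⟩ : ∃ A, A = univ.image (lw C t₁ dt) := ⟨_, rfl⟩
  have hAc : A.card ≤ 2 * K := by
    rw [hA, ← card_End hK]; exact card_image_le
  obtain ⟨Cn, hC⟩ : ∃ Cn : End R T k → ι → Prop, Cn = fun u i => u ∈ ZZ b' d ∧ fl u ∈ ZZ b' d ∧
    (∀ x, lw C (t i) dt' (xo b' x (d x)) ∉ A) ∧ lw C (t i) dt' u ∈ A ∧ lw C (t i) dt' (fl u) ∉ A := ⟨_, rfl⟩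
  have h1 : ∑ i ∈ S, (Ext C.tw (fun m => Rl C t₁ dt (PP b p₁) m ∧ Rl C (t i) dt' (PP b' p) m)).card ≤
      ∑ u, ∑ i ∈ S.filter (Cn u),
        (Ext C.tw (fun m => Rl C t₁ dt (PP b p₁) m ∧ Rl C (t i) dt' (PP b' p) m)).card := by
    simp only [sum_filter]
    rw [sum_comm]
    apply sum_le_sum
    intro i hi
    rcases (Ext C.tw (fun m => Rl C t₁ dt (PP b p₁) m ∧ Rl C (t i) dt' (PP b' p) m)).eq_empty_or_nonempty
      with h0 | ⟨m, hm⟩
    · simp [h0]
    · obtain ⟨-, a, c⟩ := mem_Ext.mp hm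
      obtain ⟨z, u, u1, u2, u3, u4⟩ := touched_exists h₁ (h i hi) hd1 hd2 a c (hx i hi)
      refine le_trans ?_ (single_le_sum (f := fun u => if Cn u i then _ else 0)
        (fun _ _ => Nat.zero_le _) (mem_univ u))
      rw [if_pos]
      rw [hC, hA]
      exact ⟨u1, u2, z, u3, u4⟩
  refine (Nat.mul_le_mul_right _ h1).trans ?_
  rw [sum_mul]
  refine (sum_le_sum (g := fun _ => 2 * K * (Ext C.tw (Rl C t₁ dt (PP b p₁))).card) ?_).trans ?_
  · intro u _
    rcases (S.filter (Cn u)).eq_empty_or_nonempty with h0 | ⟨i₀, hi₀⟩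
    · simp [h0]
    · have hC' : ∀ i ∈ S.filter (Cn u), u ∈ ZZ b' d ∧ fl u ∈ ZZ b' d ∧
          (∀ x, lw C (t i) dt' (xo b' x (d x)) ∉ A) ∧ lw C (t i) dt' u ∈ A ∧ lw C (t i) dt' (fl u) ∉ A := by
        intro i hi
        have := (mem_filter.mp hi).2
        rwa [hC] at this
      exact touched_sum hK hnK (hA ▸ Rl_Loc C t₁ dt _) hAc d (hC' i₀ hi₀).1 (hC' i₀ hi₀).2.1
        _ t (hinj.mono (filter_subset _ _)) (fun i hi => h i (mem_filter.mp hi).1)
        (fun i hi => (hC' i hi).2.2.1) (fun i hi => (hC' i hi).2.2.2.1)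
        (fun i hi => (hC' i hi).2.2.2.2)
  · rw [sum_const, card_univ, card_End hK, smul_eq_mul]

/-- good completions of a placement of the chains -/
noncomputable def Good (C : Cov h κ V W n) (sp : Fin R → V) (cB : Bool) (F : Finset (Fin R))
    (g₀ : Fin R → Fin k) (b : Bits R T) (τ : Cut R T k → ZMod h) (dt : End R T k → κ × Bool)
    (lb : End R T k → ℕ × Bool) (γ : Chn R × Fin (T + 1) → V) :
    Finset (Σ _ : Fin k → V, End R T k → End R T k) :=
  (GoodB C.pos C.s sp b τ cB F g₀ γ).sigma (fun β => GoodP C b dt lb (tl sp γ β))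

lemma Good_val {C : Cov h κ V W n} {sp : Fin R → V} {α : Bool → κ × Bool}
    (hsp0 : ∀ r, C.pos (sp r) = C.bs (α false)) {cB : Bool} {N E : ℕ} {F : Finset (Fin R)}
    {g₀ : Fin R → Fin k} {b : Bits R T} {τ : Cut R T k → ZMod h} {dt : End R T k → κ × Bool}
    {lb : End R T k → ℕ × Bool} (hτ : Typed C.bs α cB N E F g₀ b τ dt lb) {L : ℕ}
    {γ : Chn R × Fin (T + 1) → V} (hγ : γ ∈ Nice C.pos C.s sp τ L)
    {c : Σ _ : Fin k → V, End R T k → End R T k} (hc : c ∈ Good C sp cB F g₀ b τ dt lb γ) :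
    Val C sp α b dt (tl sp γ c.1) c.2 ∧ IsTP lb (XX b) c.2 := by
  rw [Good, mem_sigma, mem_GoodB, mem_GoodP] at hc
  refine ⟨⟨fun _ => rfl, Ov.of_pos (τ := τ) ?_ hτ.base, hc.1.2.1, hτ.isTP hc.2.1, hτ.chn, hτ.st,
    hc.2.2.1⟩, hc.2.1⟩
  rintro (r | x | g)
  · exact (hsp0 r).trans (hτ.sp r).symm
  · exact (mem_Nice.mp hγ).1 x
  · exact hc.1.1 g

theorem plant_bound {C : Cov h κ V W n} {sp : Fin R → V} {α : Bool → κ × Bool}
    (hsp0 : ∀ r, C.pos (sp r) = C.bs (α false)) {K : ℕ} (hK : K = R + 2 * R * (T + 1) + k)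
    (hnK : 10 * K < n) {Q : (W → W) → Prop} {A : Finset W} (hQ : Loc C.tw A Q)
    (hA : A.card ≤ 2 * K) {cB : Bool} {N E : ℕ} {F₀ : Finset (Fin R)}
    {g₀ : Fin R → Fin k} {b : Bits R T} {τ : Cut R T k → ZMod h} {dt : End R T k → κ × Bool}
    {lb : End R T k → ℕ × Bool} (hτ : Typed C.bs α cB N E F₀ g₀ b τ dt lb)
    (L : ℕ) {β δ : ℝ} (hβ0 : 0 ≤ β) (hδ0 : 0 ≤ δ)
    (hβ : ∀ γ ∈ Nice C.pos C.s sp τ L, (n : ℝ) ^ (R + k) * (E.factorial : ℝ) ^ N ≤
      β * (Good C sp cB F₀ g₀ b τ dt lb γ).card)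
    (hδ : ∀ p (S : Finset (Σ _ : Chn R × Fin (T + 1) → V, Σ _ : Fin k → V,
      End R T k → End R T k)), Set.InjOn (fun i : Σ _ : Chn R × Fin (T + 1) → V,
        Σ _ : Fin k → V, End R T k → End R T k => tl sp i.1 i.2.1) S →
      (∀ i ∈ S, Val C sp α b dt (tl sp i.1 i.2.1) p) →
      (∀ i ∈ S, ∃ x ∈ XX b, lw C (tl sp i.1 i.2.1) dt x ∈ A) →
      ((∑ i ∈ S, (Ext C.tw (fun m => Q m ∧ Rl C (tl sp i.1 i.2.1) dt (PP b p) m)).card : ℕ) : ℝ) ≤
        δ * (Ext C.tw Q).card) :
    ∑ i ∈ (Nice C.pos C.s sp τ L).sigma (Good C sp cB F₀ g₀ b τ dt lb),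
      (n : ℝ) ^ (R + k) / (Good C sp cB F₀ g₀ b τ dt lb i.1).card *
        (Ext C.tw (fun m => Q m ∧ Rl C (tl sp i.1 i.2.1) dt (PP b i.2.2) m)).card ≤
      (((n : ℝ) / (n - 10 * K)) ^ (R + k) + β * δ) * (Ext C.tw Q).card := by
  classical
  have hpos : (0 : ℝ) < n - 10 * K := by
    have : ((10 * K : ℕ) : ℝ) < n := by exact_mod_cast hnK
    push_cast at this
    linarith
  have hcast : ((n - 10 * K : ℕ) : ℝ) = n - 10 * K := by
    rw [Nat.cast_sub hnK.le]; push_cast; ring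
  rw [← sum_filter_add_sum_filter_not _ (fun i => ∀ x ∈ XX b, lw C (tl sp i.1 i.2.1) dt x ∉ A),
    add_mul]
  apply add_le_add
  · obtain ⟨F, hF⟩ : ∃ F : (Chn R × Fin (T + 1) → V) → Finset (W → W), F = fun γ =>
      Ext C.tw (fun m => Q m ∧ ∃ β : Fin k → V, Ov C (tl sp γ β) dt ∧ ∀ e, e ∉ XX b →
        m (lw C (tl sp γ β) dt e) = lw C (tl sp γ β) dt (ch b e)) := ⟨_, rfl⟩
    have h1 : ∑ γ ∈ Nice C.pos C.s sp τ L, (F γ).card ≤ 1 * (Ext C.tw Q).card := by
      apply sum_card_le_mul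
      · intro γ _ m hm
        rw [hF, mem_Ext] at hm
        exact mem_Ext.mpr ⟨hm.1, hm.2.1⟩
      · intro m _
        rw [card_le_one]
        intro γ hγ γ' hγ'
        rw [mem_filter, hF, mem_Ext] at hγ hγ'
        obtain ⟨β, o, h⟩ := hγ.2.2.2
        obtain ⟨β', o', h'⟩ := hγ'.2.2.2
        exact unique_gamma o o' h h'
    calc _ ≤ ∑ i ∈ (Nice C.pos C.s sp τ L).sigma (Good C sp cB F₀ g₀ b τ dt lb),
          (n : ℝ) ^ (R + k) / (Good C sp cB F₀ g₀ b τ dt lb i.1).card *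
            ((F i.1).card / (n - 10 * K) ^ (R + k)) := by
          rw [sum_filter]
          apply sum_le_sum
          intro i hi
          split_ifs with hc
          · apply mul_le_mul_of_nonneg_left _ (by positivity)
            rw [le_div_iff₀ (by positivity), ← hcast]
            rw [mem_sigma] at hi
            have := (untouched hK hQ hA (Good_val hsp0 hτ hi.1 hi.2).1 hc).trans
              (Ext_congr (Q := fun m => Q m ∧ ∃ β : Fin k → V, Ov C (tl sp i.1 β) dt ∧
                ∀ e, e ∉ XX b →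
                m (lw C (tl sp i.1 β) dt e) = lw C (tl sp i.1 β) dt (ch b e))
                (fun m _ h => ⟨h.1, _, (Good_val hsp0 hτ hi.1 hi.2).1.ov, h.2⟩))
            rw [hF]
            exact_mod_cast this
          · positivity
      _ ≤ ∑ γ ∈ Nice C.pos C.s sp τ L, ((n : ℝ) / (n - 10 * K)) ^ (R + k) * (F γ).card := by
          rw [sum_sigma]
          apply sum_le_sum
          intro γ _
          simp only [sum_const, nsmul_eq_mul]
          rcases Nat.eq_zero_or_pos (Good C sp cB F₀ g₀ b τ dt lb γ).card with h0 | h0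
          · rw [h0]; simp only [Nat.cast_zero, zero_mul]; positivity
          · have : (0 : ℝ) < (Good C sp cB F₀ g₀ b τ dt lb γ).card := by exact_mod_cast h0
            rw [div_pow]
            apply le_of_eq
            field_simp
      _ ≤ _ := by
          rw [← mul_sum]
          apply mul_le_mul_of_nonneg_left _ (by positivity)
          rw [one_mul] at h1
          exact_mod_cast h1
  · obtain ⟨S, hS⟩ : ∃ S, S = ((Nice C.pos C.s sp τ L).sigma (Good C sp cB F₀ g₀ b τ dt lb)).filter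
      (fun i => ¬ ∀ x ∈ XX b, lw C (tl sp i.1 i.2.1) dt x ∉ A) := ⟨_, rfl⟩
    rw [← hS]
    have hfac : (0 : ℝ) < (E.factorial : ℝ) ^ N := by positivity
    have hval : ∀ i ∈ S, Val C sp α b dt (tl sp i.1 i.2.1) i.2.2 ∧ IsTP lb (XX b) i.2.2 := by
      intro i hi
      rw [hS, mem_filter, mem_sigma] at hi
      exact Good_val hsp0 hτ hi.1.1 hi.1.2
    calc _ ≤ ∑ i ∈ S, β / (E.factorial : ℝ) ^ N *
          (Ext C.tw (fun m => Q m ∧ Rl C (tl sp i.1 i.2.1) dt (PP b i.2.2) m)).card := by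
          apply sum_le_sum
          intro i hi
          apply mul_le_mul_of_nonneg_right _ (by positivity)
          rw [hS, mem_filter, mem_sigma] at hi
          have : (0 : ℝ) < (Good C sp cB F₀ g₀ b τ dt lb i.1).card := by
            exact_mod_cast card_pos.mpr ⟨_, hi.1.2⟩
          rw [div_le_div_iff₀ this hfac]
          exact hβ _ hi.1.1
      _ = β / (E.factorial : ℝ) ^ N * ∑ p ∈ TP lb (XX b),
          ∑ i ∈ S.filter (fun i => i.2.2 = p),
          ((Ext C.tw (fun m => Q m ∧ Rl C (tl sp i.1 i.2.1) dt (PP b i.2.2) m)).card : ℝ) := by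
          rw [← mul_sum]
          congr 1
          symm
          convert sum_fiberwise_of_maps_to (s := S) (t := TP lb (XX b)) (g := fun i => i.2.2)
            (fun i hi => mem_TP.mpr (hval i hi).2) _
      _ ≤ β / (E.factorial : ℝ) ^ N * ∑ _p ∈ TP lb (XX b), δ * (Ext C.tw Q).card := by
          apply mul_le_mul_of_nonneg_left _ (by positivity)
          apply sum_le_sum
          intro p _
          refine le_trans (le_of_eq ?_) (hδ p (S.filter (fun i => i.2.2 = p)) ?_ ?_ ?_)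
          · push_cast
            apply sum_congr rfl
            intro i hi
            rw [(mem_filter.mp hi).2]
          · rintro ⟨γ, β, p₁⟩ hi ⟨γ', β', p₂⟩ hi' e
            simp only [coe_filter, Set.mem_ofPred_eq] at hi hi'
            have e1 : γ = γ' := funext fun x => congrFun e (Sum.inr (Sum.inl x))
            have e2 : β = β' := funext fun x => congrFun e (Sum.inr (Sum.inr x))
            rw [e1, e2, hi.2, hi'.2]
          · intro i hi
            rw [mem_filter] at hi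
            exact hi.2 ▸ (hval i hi.1).1
          · intro i hi
            rw [mem_filter, hS, mem_filter] at hi
            have := hi.1.2
            push Not at this
            exact this
      _ ≤ _ := by
          rw [sum_const, nsmul_eq_mul]
          have := card_TP_le lb (range N) _ (XX b) rfl (fun x hx => mem_range.mpr (hτ.lt x hx))
          rw [prod_congr rfl (fun j hj => by rw [hτ.count j (mem_range.mp hj)]), prod_const,
            card_range] at this
          have h2 : ((TP lb (XX b)).card : ℝ) ≤ (E.factorial : ℝ) ^ N := by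
            exact_mod_cast this
          calc _ ≤ β / (E.factorial : ℝ) ^ N *
              ((E.factorial : ℝ) ^ N * (δ * (Ext C.tw Q).card)) := by gcongr
            _ = _ := by field_simp

/-- a system of closed alternating walks in the base graph -/
def Walks (bs : κ × Bool → ZMod h) (N : ℕ) (α : Bool → κ × Bool) (cB : Bool) : Prop :=
  0 < N ∧ ∃ (pd : Bool → Bool → ℕ → κ × Bool) (sd : Bool → Bool → ℕ → Bool),
    (∀ c z, Wk bs (α c) (α c) (pd c z) (sd c z) N) ∧
    (∀ z, sd (!cB) z 0 = z) ∧ (∀ z, sd cB z (N - 1) = z) ∧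
    α cB = op (pd (!cB) true (N - 1)) ∧ sd (!cB) true (N - 1) = cB

lemma pow_mix {x n f N k : ℕ} (h1 : x ≤ n) (h2 : f ≤ N) (h3 : N ≤ k) :
    x ^ N * n ^ (k - N) ≤ x ^ f * n ^ (k - f) := by
  obtain ⟨j, rfl⟩ : ∃ j, N = f + j := ⟨N - f, by omega⟩
  rw [show k - f = j + (k - (f + j)) by omega, pow_add, pow_add, mul_assoc]
  exact Nat.mul_le_mul_left _ (Nat.mul_le_mul_right _ (Nat.pow_le_pow_left h1 _))

theorem main_det {C : Cov h κ V W n} {N : ℕ} {α₀ : Bool → κ × Bool} {cB : Bool}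
    (hW : Walks C.bs N α₀ cB) {sp : Fin R → V} (hsp0 : ∀ r, C.pos (sp r) = C.bs (α₀ false))
    (hspi : Function.Injective sp)
    (hsp : ∀ W : Finset V, W.Nonempty → (∀ v ∈ W, C.s v ∈ W) → ∃ r, sp r ∈ W)
    (T T₀ k E : ℕ) (hT : T + 1 = N * (T₀ + 1 + 1)) (hE : k + R = N * E) (hNR : N ≤ R)
    (hR : 4 ≤ R) (hRE : R < E)
    {L n₁ n₂ I K : ℕ} (hI : I = 2 * R * (T + 1)) (hK : K = R + I + k)
    (hN₁ : h * n₁ ≤ L) (hN₂ : 2 * (h * n₂) + 2 ≤ L) (hn1 : 0 < n₁) (hnK : 10 * K < n)
    (c0 : N < k) (c1 : 4 * k * (N * (h * n₂) + 5 * K) ≤ n) (c2 : 4 * I * n ≤ (k - N) * n₁)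
    (c3 : 5 * K < n₂) (c4 : n₂ ≤ n)
    {β : ℝ} (hβ : 2 * (n : ℝ) ^ (R + N) * E ^ (2 * N) ≤ β * (n₂ - 5 * K) ^ N) :
    (1 - (I * ((R + I) * (2 * L + 1)) : ℝ) / n) * (TP C.tw univ).card ≤
      (((n : ℝ) / (n - 10 * K)) ^ (R + k) + β * (2 * K * (2 * K) / (n - 10 * K) ^ (R + 1)) +
        β * (2 * R / 2 ^ (T₀ + 1))) * (Ext C.tw (fun m => (Gr C m).IsHamiltonian)).card := by
  classical
  have hn0 : 0 < n := by omega
  have hK' : K = R + 2 * R * (T + 1) + k := by rw [hK, hI]
  have : Nonempty V := ⟨sp ⟨0, by omega⟩⟩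
  obtain ⟨hN, pd, sd, w0, w1, w2, w3, w4⟩ := hW
  obtain ⟨F, g₀, bb, hF, hg₀, hbb, hex⟩ := exists_typed hN w0 w1 w2 w3 w4 hT hE hNR hR hRE
  choose τ dt lb hτ using hex
  have hpos : (0 : ℝ) < n - 10 * K := by
    have : ((10 * K : ℕ) : ℝ) < n := by exact_mod_cast hnK
    push_cast at this
    linarith
  have hcast : ((n - 10 * K : ℕ) : ℝ) = n - 10 * K := by
    rw [Nat.cast_sub hnK.le]; push_cast; ring
  have hpos2 : (0 : ℝ) < n₂ - 5 * K := by
    have : ((5 * K : ℕ) : ℝ) < n₂ := by exact_mod_cast c3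
    push_cast at this
    linarith
  have hcast2 : ((n₂ - 5 * K : ℕ) : ℝ) = n₂ - 5 * K := by
    rw [Nat.cast_sub c3.le]; push_cast; ring
  have hnR : (0 : ℝ) < n := by exact_mod_cast hn0
  have hβ0 : 0 ≤ β := by
    by_contra hc
    have := mul_neg_of_neg_of_pos (not_le.mp hc) (pow_pos hpos2 N)
    have : (0 : ℝ) ≤ 2 * (n : ℝ) ^ (R + N) * E ^ (2 * N) := by positivity
    linarith
  have hG : ∀ b, ∀ γ ∈ Nice C.pos C.s sp (τ b) L,
      (n₂ - 5 * K) ^ N * n ^ (k - N) * (E - 2).factorial ^ N ≤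
        2 * (Good C sp cB F g₀ (bb b) (τ b) (dt b) (lb b) γ).card := by
    intro b γ hγ
    refine (Nat.mul_le_mul_right _ ((pow_mix (by omega) hF c0.le).trans
      (card_GoodB C.nV C.hs hsp0 hspi hsp (bb b) cB hg₀ hI hK (by omega) (by omega) hN₁ hN₂ hn0 hn1
      (le_trans (Nat.mul_le_mul_left _ (Nat.add_le_add_right (Nat.mul_le_mul_right _ hF) _)) c1)
      (c2.trans (Nat.mul_le_mul_right _ (by omega))) hγ))).trans ?_
    rw [mul_assoc]
    apply Nat.mul_le_mul_left
    rw [Good, card_sigma, ← smul_eq_mul, ← sum_const]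
    apply sum_le_sum
    intro β hβ
    rw [mem_GoodB] at hβ
    refine card_GoodP hβ.2.1 hsp (hτ b) hN (by omega) ?_ hβ.2.2.1 hβ.2.2.2
    rintro (r | x | g)
    · exact (hsp0 r).trans ((hτ b).sp r).symm
    · exact (mem_Nice.mp hγ).1 x
    · exact hβ.1 g
  have hGpos : ∀ b, ∀ γ ∈ Nice C.pos C.s sp (τ b) L,
      0 < (Good C sp cB F g₀ (bb b) (τ b) (dt b) (lb b) γ).card := by
    intro b γ hγ
    have a := hG b γ hγ
    have c : 0 < (n₂ - 5 * K) ^ N * n ^ (k - N) * (E - 2).factorial ^ N := by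
      have : 0 < n₂ - 5 * K := by omega
      positivity
    omega
  have hGβ : ∀ b, ∀ γ ∈ Nice C.pos C.s sp (τ b) L, (n : ℝ) ^ (R + k) * (E.factorial : ℝ) ^ N ≤
      β * (Good C sp cB F g₀ (bb b) (τ b) (dt b) (lb b) γ).card := by
    intro b γ hγ
    have a : ((n₂ : ℝ) - 5 * K) ^ N * n ^ (k - N) * ((E - 2).factorial : ℝ) ^ N ≤
        2 * (Good C sp cB F g₀ (bb b) (τ b) (dt b) (lb b) γ).card := by
      rw [← hcast2]; exact_mod_cast hG b γ hγ
    have c : (n : ℝ) ^ (R + k) = n ^ (R + N) * n ^ (k - N) := by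
      rw [← pow_add]; congr 1; omega
    have d : (E.factorial : ℝ) ^ N ≤ (E : ℝ) ^ (2 * N) * ((E - 2).factorial : ℝ) ^ N := by
      rw [pow_mul, ← mul_pow]
      apply pow_le_pow_left₀ (by positivity)
      obtain ⟨E', rfl⟩ : ∃ E', E = E' + 1 + 1 := ⟨E - 2, by omega⟩
      have : (E' + 1 + 1).factorial ≤ (E' + 1 + 1) ^ 2 * E'.factorial := by
        rw [Nat.factorial_succ, Nat.factorial_succ, sq, mul_assoc]
        exact Nat.mul_le_mul_left _ (Nat.mul_le_mul_right _ (Nat.le_succ _))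
      exact_mod_cast this
    have e := mul_le_mul_of_nonneg_right hβ
      (show (0 : ℝ) ≤ n ^ (k - N) * ((E - 2).factorial : ℝ) ^ N by positivity)
    have f := mul_le_mul_of_nonneg_left a hβ0
    have g := mul_le_mul_of_nonneg_left d
      (show (0 : ℝ) ≤ n ^ (R + N) * n ^ (k - N) by positivity)
    rw [c]
    nlinarith
  obtain ⟨α, hα⟩ : ∃ α : ℝ, α = ((n : ℝ) / (n - 10 * K)) ^ (R + k) := ⟨_, rfl⟩
  obtain ⟨δ, hδ⟩ : ∃ δ : ℝ, δ = 2 * K * (2 * K) / (n - 10 * K) ^ (R + 1) := ⟨_, rfl⟩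
  have hα0 : 0 ≤ α := by rw [hα]; positivity
  have hδ0 : 0 ≤ δ := by rw [hδ]; positivity
  rw [← hα, ← hδ]
  obtain ⟨B, hB⟩ : ∃ B : ℝ, B = Fintype.card (Bits R T₀) := ⟨_, rfl⟩
  have hB0 : 0 < B := by rw [hB]; exact_mod_cast Fintype.card_pos
  have key := second_moment
    (univ.sigma (fun b : Bits R T₀ => (Nice C.pos C.s sp (τ b) L).sigma (Good C sp cB F g₀ (bb b) (τ b) (dt b) (lb b))))
    (fun i => (n : ℝ) ^ (R + k) / (Good C sp cB F g₀ (bb i.1) (τ i.1) (dt i.1) (lb i.1) i.2.1).card)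
    (fun _ _ => by positivity)
    (fun i => Ext C.tw (Rl C (tl sp i.2.1 i.2.2.1) (dt i.1) (PP (bb i.1) i.2.2.2)))
    (Ext C.tw (fun m => (Gr C m).IsHamiltonian)) ?_
    (B * (α + β * δ + β * (2 * R / 2 ^ (T₀ + 1)))) (by positivity) ?_
  · rw [mul_assoc] at key
    apply le_of_mul_le_mul_left _ hB0
    refine le_trans ?_ key
    rw [sum_sigma, hB, ← card_univ, ← nsmul_eq_mul, ← sum_const]
    apply sum_le_sum
    intro b _
    rw [sum_sigma]
    have h1 : ((n : ℝ) ^ I * n) ≤ (Nice C.pos C.s sp (τ b) L).card * n +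
        I * (n ^ I * ((R + I) * (2 * L + 1))) := by
      exact_mod_cast card_Nice C.nV C.s sp (τ b) L I hI
    calc _ ≤ (Nice C.pos C.s sp (τ b) L).card * ((TP C.tw univ).card / (n : ℝ) ^ I) := by
          rw [← mul_div_assoc, mul_div_right_comm ((Nice C.pos C.s sp (τ b) L).card : ℝ)]
          apply mul_le_mul_of_nonneg_right _ (by positivity)
          rw [le_div_iff₀ (by positivity), one_sub_div hnR.ne', div_mul_eq_mul_div,
            div_le_iff₀ hnR]
          linarith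
      _ ≤ _ := by
          rw [← nsmul_eq_mul, ← sum_const]
          apply sum_le_sum
          intro γ hγ
          have h2 : (0 : ℝ) < (Good C sp cB F g₀ (bb b) (τ b) (dt b) (lb b) γ).card := by
            exact_mod_cast hGpos b γ hγ
          calc _ = ∑ _c ∈ Good C sp cB F g₀ (bb b) (τ b) (dt b) (lb b) γ, (n : ℝ) ^ (R + k) /
                (Good C sp cB F g₀ (bb b) (τ b) (dt b) (lb b) γ).card * ((TP C.tw univ).card / n ^ K) := by
                rw [sum_const, nsmul_eq_mul, show K = I + (R + k) by omega, pow_add _ I]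
                field_simp
            _ ≤ _ := by
                apply sum_le_sum
                intro c hc
                apply mul_le_mul_of_nonneg_left _ (by positivity)
                rw [div_le_iff₀ (by positivity), mul_comm]
                exact_mod_cast first_moment hK' (Good_val hsp0 (hτ b) hγ hc).1 hn0
  · intro i hi m hm
    simp only [mem_sigma, mem_univ, true_and, Good, mem_GoodP] at hi
    rw [mem_Ext] at hm ⊢
    exact ⟨hm.1, hi.2.2.2.2 m hm.2⟩
  · rintro ⟨b, γ, c⟩ hi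
    simp only [mem_sigma, mem_univ, true_and] at hi
    have hv := (Good_val hsp0 (hτ b) hi.1 hi.2).1
    have hinter : ∀ P P' : (W → W) → Prop, Ext C.tw P ∩ Ext C.tw P' =
        Ext C.tw (fun m => P m ∧ P' m) := by
      intro P P'; ext m; simp only [mem_inter, mem_Ext]; tauto
    have hAc : (univ.image (lw C (tl sp γ c.1) (dt b))).card ≤ 2 * K := by
      rw [← card_End hK']; exact card_image_le
    simp only [hinter]
    rw [sum_sigma]
    calc _ ≤ ∑ b' : Bits R T₀, (α + β * δ + if ¬ ∀ i, b i ≠ b' i then β else 0) *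
          (Ext C.tw (Rl C (tl sp γ c.1) (dt b) (PP (bb b) c.2))).card := by
          apply sum_le_sum
          intro b' _
          by_cases hd : ∀ i, b i ≠ b' i
          · rw [if_neg (not_not.mpr hd), add_zero, hα]
            refine plant_bound hsp0 hK' hnK (Rl_Loc C _ _ _) hAc (hτ b') L hβ0 hδ0
              (hGβ b') ?_
            intro p S h1 h2 h3
            rw [hδ, div_mul_eq_mul_div, le_div_iff₀ (by positivity), ← hcast, mul_assoc]
            exact_mod_cast touched_total hK' hnK hv (fun i => hbb b b' i (hd i)) S _ h1 h2 h3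
          · rw [if_pos hd, hα]
            refine le_trans (plant_bound hsp0 hK' hnK (Rl_Loc C _ _ _) hAc (hτ b') L hβ0
              zero_le_one (hGβ b') ?_) ?_
            · intro p S h1 h2 _
              rw [one_mul]
              exact_mod_cast crude _ S _ h1 h2
            · apply mul_le_mul_of_nonneg_right _ (by positivity)
              have := mul_nonneg hβ0 hδ0
              linarith
      _ ≤ _ := by
          rw [← sum_mul]
          apply mul_le_mul_of_nonneg_right _ (by positivity)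
          rw [sum_add_distrib, sum_const, ← sum_filter, sum_const, nsmul_eq_mul, nsmul_eq_mul,
            card_univ, ← hB, mul_add B (α + β * δ)]
          apply add_le_add_right
          rw [mul_left_comm, mul_comm β]
          apply mul_le_mul_of_nonneg_right _ hβ0
          rw [← mul_div_assoc, le_div_iff₀ (by positivity), mul_comm B, hB]
          exact_mod_cast card_agree b

end Pool.Agent.MP_755159_pr.G
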