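import Pool.Agent.MP_755159_pr.G.Pair

/-! Extensions of prescribed pairs, and admissible type assignments for a general base graph. -/

set_option linter.unusedSectionVars false

namespace Pool.Agent.MP_755159_pr.G

open Finset

section
variable {V : Type} [Fintype V] [DecidableEq V] {κ : Type} [DecidableEq κ]

open Classical in
/-- typed perfect matchings with a property -/
noncomputable def Ext (pos : V → κ × Bool) (P : (V → V) → Prop) : Finset (V → V) :=
  (TP pos univ).filter P

lemma mem_Ext {pos : V → κ × Bool} {P : (V → V) → Prop} {m : V → V} :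
    m ∈ Ext pos P ↔ IsTP pos univ m ∧ P m := by
  simp only [Ext, mem_filter, mem_TP]

lemma IsTP.invol {pos : V → κ × Bool} {m : V → V} (h : IsTP pos univ m) (v : V) : m (m v) = v :=
  (h.2 v (mem_univ v)).2.1

lemma IsTP.pos_eq {pos : V → κ × Bool} {m : V → V} (h : IsTP pos univ m) (v : V) :
    pos (m v) = op (pos v) := (h.2 v (mem_univ v)).2.2

lemma IsTP.inj {pos : V → κ × Bool} {m : V → V} (h : IsTP pos univ m) {v w : V} (e : m v = m w) :
    v = w := by rw [← h.invol v, e, h.invol]

/-- a property supported on `A` -/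
def Loc (pos : V → κ × Bool) (A : Finset V) (P : (V → V) → Prop) : Prop :=
  (∀ m, IsTP pos univ m → P m → ∀ a ∈ A, m a ∈ A) ∧
  ∀ m m', P m → (∀ a ∈ A, m' a = m a) → P m'

lemma Ext_swap {pos : V → κ × Bool} {A : Finset V} {P : (V → V) → Prop} (h : Loc pos A P) {u v v' : V}
    (hv : v ∉ A) (hv' : v' ∉ A) (h1 : pos v = op (pos u)) (h2 : pos v' = op (pos u)) :
    (Ext pos (fun m => P m ∧ m u = v)).card ≤ (Ext pos (fun m => P m ∧ m u = v')).card := by
  have hp : ∀ x, pos (Equiv.swap v v' x) = pos x := by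
    intro x
    rw [Equiv.swap_apply_def]
    split_ifs with a b
    · rw [a, h1, h2]
    · rw [b, h1, h2]
    · rfl
  apply card_le_card_of_injOn (fun m x => Equiv.swap v v' (m (Equiv.swap v v' x)))
  · intro m hm
    simp only [mem_coe, mem_Ext] at hm ⊢
    obtain ⟨hm, hP, huv⟩ := hm
    refine ⟨⟨by simp, fun d _ => ⟨mem_univ _, by simp [hm.invol], by rw [hp, hm.pos_eq, hp]⟩⟩,
      h.2 m _ hP ?_, ?_⟩
    · intro a ha
      have hma := h.1 m hm hP a ha
      have n1 : a ≠ v := by rintro rfl; exact hv ha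
      have n2 : a ≠ v' := by rintro rfl; exact hv' ha
      have n3 : m a ≠ v := by rintro rfl; exact hv hma
      have n4 : m a ≠ v' := by rintro rfl; exact hv' hma
      rw [Equiv.swap_apply_of_ne_of_ne n1 n2, Equiv.swap_apply_of_ne_of_ne n3 n4]
    · rw [Equiv.swap_apply_of_ne_of_ne (x := u) (ne_of_ty h1) (ne_of_ty h2), huv,
        Equiv.swap_apply_left]
  · intro m _ m' _ e
    funext x
    have := congrFun e (Equiv.swap v v' x)
    simpa using this

lemma Ext_up {pos : V → κ × Bool} {n : ℕ} (hn : ∀ q, cnt pos univ q = n) {A : Finset V}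
    {P : (V → V) → Prop} (h : Loc pos A P) {u : V} (hu : u ∉ A) (v : V) :
    (Ext pos (fun m => P m ∧ m u = v)).card * (n - A.card) ≤ (Ext pos P).card := by
  rcases (Ext pos (fun m => P m ∧ m u = v)).eq_empty_or_nonempty with h0 | ⟨m, hm⟩
  · simp [h0]
  · obtain ⟨hm, hP, huv⟩ := mem_Ext.mp hm
    have h1 : pos v = op (pos u) := by rw [← huv, hm.pos_eq]
    have hv : v ∉ A := by
      intro hv
      have := h.1 m hm hP v hv
      rw [← huv, hm.invol] at this
      exact hu this
    obtain ⟨F, hF⟩ : ∃ F, F = univ.filter (fun d => pos d = op (pos u)) \ A := ⟨_, rfl⟩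
    have hc : n - A.card ≤ F.card := by
      rw [hF, ← hn (op (pos u))]
      exact le_card_sdiff _ _
    calc _ ≤ (Ext pos (fun m => P m ∧ m u = v)).card * F.card := Nat.mul_le_mul_left _ hc
      _ = ∑ _v' ∈ F, (Ext pos (fun m => P m ∧ m u = v)).card := by
          rw [sum_const, smul_eq_mul, mul_comm]
      _ ≤ ∑ v' ∈ F, ((Ext pos P).filter (fun m => m u = v')).card := by
          apply sum_le_sum
          intro v' hv'
          rw [hF, mem_sdiff, mem_filter] at hv'
          refine (Ext_swap h hv hv'.2 h1 hv'.1.2).trans (card_le_card ?_)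
          intro m hm
          rw [mem_filter, mem_Ext]
          have := mem_Ext.mp hm
          tauto
      _ ≤ _ := by
          rw [← card_biUnion]
          · apply card_le_card
            intro p hp
            obtain ⟨e', -, h⟩ := mem_biUnion.mp hp
            exact (mem_filter.mp h).1
          · intro a _ b _ hab
            simp only [Function.onFun, disjoint_filter]
            intro p _ h1 h2
            exact hab (h1.symm.trans h2)

lemma Ext_down {pos : V → κ × Bool} {n : ℕ} (hn : ∀ q, cnt pos univ q = n) {A : Finset V}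
    {P : (V → V) → Prop} (h : Loc pos A P) {u v : V} (hu : u ∉ A) (hv : v ∉ A)
    (h1 : pos v = op (pos u)) :
    (Ext pos P).card ≤ n * (Ext pos (fun m => P m ∧ m u = v)).card := by
  obtain ⟨F, hF⟩ : ∃ F, F = univ.filter (fun d => pos d = op (pos u)) \ A := ⟨_, rfl⟩
  have hc : F.card ≤ n := by
    rw [hF, ← hn (op (pos u))]
    exact card_le_card sdiff_subset
  calc _ ≤ (F.biUnion (fun v' => Ext pos (fun m => P m ∧ m u = v'))).card := by
          apply card_le_card
          intro m hm
          obtain ⟨hm, hP⟩ := mem_Ext.mp hm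
          refine mem_biUnion.mpr ⟨m u, ?_, mem_Ext.mpr ⟨hm, hP, rfl⟩⟩
          rw [hF, mem_sdiff, mem_filter]
          refine ⟨⟨mem_univ _, hm.pos_eq u⟩, fun hv => hu ?_⟩
          have := h.1 m hm hP _ hv
          rwa [hm.invol] at this
    _ ≤ ∑ v' ∈ F, (Ext pos (fun m => P m ∧ m u = v')).card := card_biUnion_le
    _ ≤ ∑ _v' ∈ F, (Ext pos (fun m => P m ∧ m u = v)).card := by
          apply sum_le_sum
          intro v' hv'
          rw [hF, mem_sdiff, mem_filter] at hv'
          exact Ext_swap h hv'.2 hv hv'.1.2 h1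
    _ ≤ _ := by
          rw [sum_const, smul_eq_mul]
          exact Nat.mul_le_mul_right _ hc

lemma Loc.add {pos : V → κ × Bool} {A : Finset V} {P : (V → V) → Prop} (h : Loc pos A P)
    {ι : Type} [DecidableEq ι] (S : Finset ι) (u v : ι → V) :
    Loc pos (A ∪ (S.image u ∪ S.image v)) (fun m => P m ∧ ∀ x ∈ S, m (u x) = v x) := by
  constructor
  · intro m hm hP a ha
    simp only [mem_union, mem_image] at ha ⊢
    rcases ha with ha | ⟨x, hx, rfl⟩ | ⟨x, hx, rfl⟩
    · exact Or.inl (h.1 m hm hP.1 a ha)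
    · exact Or.inr (Or.inr ⟨x, hx, (hP.2 x hx).symm⟩)
    · exact Or.inr (Or.inl ⟨x, hx, by rw [← hP.2 x hx, hm.invol]⟩)
  · intro m m' hP hmm
    refine ⟨h.2 m m' hP.1 (fun a ha => hmm a (mem_union_left _ ha)), fun x hx => ?_⟩
    rw [hmm _ (mem_union_right _ (mem_union_left _ (mem_image_of_mem _ hx))), hP.2 x hx]

lemma Ext_congr {pos : V → κ × Bool} {P Q : (V → V) → Prop} (h : ∀ m, IsTP pos univ m → P m → Q m) :
    (Ext pos P).card ≤ (Ext pos Q).card := by
  apply card_le_card
  intro m hm
  rw [mem_Ext] at hm ⊢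
  exact ⟨hm.1, h m hm.1 hm.2⟩

theorem Ext_up_iter {pos : V → κ × Bool} {n : ℕ} (hn : ∀ q, cnt pos univ q = n) {A : Finset V}
    {P : (V → V) → Prop} (h : Loc pos A P) {ι : Type} [DecidableEq ι] (u v : ι → V) (N : ℕ)
    (S : Finset ι) (hu : ∀ x ∈ S, u x ∉ A)
    (huv : ∀ x ∈ S, ∀ y ∈ S, x ≠ y → u x ≠ u y ∧ u x ≠ v y) (hN : A.card + 2 * S.card ≤ N) :
    (Ext pos (fun m => P m ∧ ∀ x ∈ S, m (u x) = v x)).card * (n - N) ^ S.card ≤
      (Ext pos P).card := by
  induction S using Finset.induction_on with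
  | empty => simp
  | insert x S hx ih =>
    rw [card_insert_of_notMem hx] at hN ⊢
    refine le_trans ?_ (ih (fun y hy => hu y (mem_insert_of_mem hy))
      (fun y hy z hz => huv y (mem_insert_of_mem hy) z (mem_insert_of_mem hz)) (by omega))
    rw [pow_succ', ← mul_assoc]
    apply Nat.mul_le_mul_right
    refine le_trans ?_ (Ext_up hn (h.add S u v) (u := u x) ?_ (v x))
    · apply Nat.mul_le_mul
      · apply Ext_congr
        intro m _ hm
        exact ⟨⟨hm.1, fun y hy => hm.2 y (mem_insert_of_mem hy)⟩, hm.2 x (mem_insert_self _ _)⟩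
      · have a := card_union_le A (S.image u ∪ S.image v)
        have b := card_union_le (S.image u) (S.image v)
        have c := card_image_le (s := S) (f := u)
        have d := card_image_le (s := S) (f := v)
        omega
    · simp only [mem_union, mem_image, not_or, not_exists, not_and]
      refine ⟨hu x (mem_insert_self _ _), fun y hy => ?_, fun y hy => ?_⟩
      · exact (huv x (mem_insert_self _ _) y (mem_insert_of_mem hy) (fun e => hx (e ▸ hy))).1.symm
      · exact (huv x (mem_insert_self _ _) y (mem_insert_of_mem hy) (fun e => hx (e ▸ hy))).2.symm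

theorem Ext_down_iter {pos : V → κ × Bool} {n : ℕ} (hn : ∀ q, cnt pos univ q = n)
    {ι : Type} [DecidableEq ι] (u v : ι → V) (S : Finset ι)
    (hp : ∀ x ∈ S, pos (v x) = op (pos (u x)))
    (huv : ∀ x ∈ S, ∀ y ∈ S, x ≠ y → u x ≠ u y ∧ u x ≠ v y ∧ v x ≠ v y) :
    (TP pos univ).card ≤ n ^ S.card * (Ext pos (fun m => ∀ x ∈ S, m (u x) = v x)).card := by
  induction S using Finset.induction_on with
  | empty =>
    simp only [card_empty, pow_zero, one_mul]
    apply card_le_card
    intro m hm
    exact mem_Ext.mpr ⟨mem_TP.mp hm, by simp⟩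
  | insert x S hx ih =>
    rw [card_insert_of_notMem hx]
    refine le_trans (ih (fun y hy => hp y (mem_insert_of_mem hy))
      (fun y hy z hz => huv y (mem_insert_of_mem hy) z (mem_insert_of_mem hz))) ?_
    rw [pow_succ, mul_assoc]
    apply Nat.mul_le_mul_left
    have h0 : Loc pos ∅ (fun _ => True) := ⟨by simp, by simp⟩
    refine le_trans (Ext_congr (fun m _ hm => ⟨trivial, hm⟩))
      (le_trans (Ext_down hn (h0.add S u v) (u := u x) (v := v x) ?_ ?_
        (hp x (mem_insert_self _ _))) ?_)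
    · simp only [mem_union, mem_image, not_or, not_exists, not_and]
      refine ⟨by simp, fun y hy => ?_, fun y hy => ?_⟩
      · exact (huv x (mem_insert_self _ _) y (mem_insert_of_mem hy) (fun e => hx (e ▸ hy))).1.symm
      · exact (huv x (mem_insert_self _ _) y (mem_insert_of_mem hy)
          (fun e => hx (e ▸ hy))).2.1.symm
    · simp only [mem_union, mem_image, not_or, not_exists, not_and]
      refine ⟨by simp, fun y hy => ?_, fun y hy => ?_⟩
      · exact (huv y (mem_insert_of_mem hy) x (mem_insert_self _ _) (fun e => hx (e ▸ hy))).2.1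
      · exact (huv y (mem_insert_of_mem hy) x (mem_insert_self _ _) (fun e => hx (e ▸ hy))).2.2
    · apply Nat.mul_le_mul_left
      apply Ext_congr
      intro m _ hm y hy
      rcases mem_insert.mp hy with rfl | hy
      · exact hm.2
      · exact hm.1.2 y hy

end

variable {R T k : ℕ} {κ : Type} [DecidableEq κ]

lemma PP_of_notMem {b : Bits R T} {ty : End R T k → κ × Bool} {p : End R T k → End R T k}
    (hp : IsTP ty (XX b) p) {e : End R T k} (h : e ∉ XX b) : PP b p e = ch b e :=
  hp.1 _ (ch_notMem h)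

lemma PP_isTP {b : Bits R T} {ty : End R T k → κ × Bool} {p : End R T k → End R T k}
    (hp : IsTP ty (XX b) p) (hty : ∀ e, e ∉ XX b → ty (ch b e) = op (ty e)) :
    IsTP ty univ (PP b p) := by
  refine ⟨by simp, fun e _ => ⟨mem_univ _, ?_⟩⟩
  by_cases h : e ∈ XX b
  · obtain ⟨a1, a2, a3⟩ := hp.2 e h
    rw [PP_of_mem p h, PP_of_mem p a1]
    exact ⟨a2, a3⟩
  · rw [PP_of_notMem hp h, PP_of_notMem hp (ch_notMem h), ch_ch]
    exact ⟨rfl, hty e h⟩

/-- every closed set reaches a special end -/
lemma full_acyc {b : Bits R T} {ty : End R T k → κ × Bool} {p : End R T k → End R T k}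
    (hp : IsTP ty (XX b) p) (ha : Acyc (XX b) kap p) (U : Finset (End R T k)) (hne : U.Nonempty)
    (h1 : ∀ e ∈ U, fl e ∈ U) (h2 : ∀ e ∈ U, PP b p e ∈ U) : ∃ i, se i ∈ U := by
  by_contra hcon
  push Not at hcon
  have hye : ∀ i t, ye b i t ∉ U := by
    intro i t
    induction t using Fin.induction with
    | zero =>
      intro h
      have := h2 _ h
      rw [PP_of_notMem hp (ye_notMem b i _), ch_ye_zero] at this
      exact hcon i this
    | succ t ih =>
      intro h
      have := h1 _ (h2 _ h)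
      rw [PP_of_notMem hp (ye_notMem b i _), ch_ye_succ, fl_xo] at this
      exact ih this
  have hxo : ∀ i t, xo b i t ∉ U := fun i t h => hye i t (by simpa using h1 _ h)
  have hgn : ∀ e ∈ U, ∃ g c, e = gn g c := by
    intro e
    induction e using End.cases4 b with
    | h1 i => exact fun h => absurd h (hcon i)
    | h2 i t => exact fun h => absurd h (hye i t)
    | h3 i t => exact fun h => absurd h (hxo i t)
    | h4 g c => exact fun _ => ⟨g, c, rfl⟩
  have hUX : U ⊆ XX b := by
    intro e he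
    obtain ⟨g, c, rfl⟩ := hgn e he
    exact gn_mem b g c
  obtain ⟨x, hx, hk⟩ := ha U hUX hne (by
      intro e he
      obtain ⟨g, c, rfl⟩ := hgn e he
      simpa using h1 _ he)
    (fun e he => PP_of_mem p (hUX he) ▸ h2 e he)
  obtain ⟨g, c, rfl⟩ := hgn x hx
  rw [kap_gn] at hk
  simp [gn] at hk

lemma card_XX_filter (b : Bits R T) (P : End R T k → Prop) [DecidablePred P] :
    ((XX b).filter P).card = (univ.filter (fun i : Chn R => P (xo b i (Fin.last T)))).card +
      (univ.filter (fun x : Fin k × Bool => P (gn x.1 x.2))).card := by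
  have : (XX b).filter P =
      (univ.filter (fun i : Chn R => P (xo b i (Fin.last T)))).image
        (fun i => xo b i (Fin.last T)) ∪
      (univ.filter (fun x : Fin k × Bool => P (gn x.1 x.2))).image (fun x => gn x.1 x.2) := by
    ext e
    simp only [mem_filter, mem_union, mem_image, mem_univ, true_and]
    constructor
    · rintro ⟨h, h'⟩
      rcases mem_XX_cases h with ⟨i, rfl⟩ | ⟨g, c, rfl⟩
      · exact Or.inl ⟨i, h', rfl⟩
      · exact Or.inr ⟨(g, c), h', rfl⟩
    · rintro (⟨i, h, rfl⟩ | ⟨x, h, rfl⟩)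
      · exact ⟨xo_last_mem b i, h⟩
      · exact ⟨gn_mem b _ _, h⟩
  rw [this, card_union_of_disjoint, card_image_of_injective, card_image_of_injective]
  · intro x y h
    simp only [gn, Prod.mk.injEq, Sum.inr.injEq] at h
    exact Prod.ext h.1 h.2
  · intro x y h
    simp only [xo, Prod.mk.injEq, Sum.inr.injEq, Sum.inl.injEq] at h
    exact h.1.1
  · rw [disjoint_left]
    intro e h1 h2
    obtain ⟨i, -, rfl⟩ := mem_image.mp h1
    obtain ⟨x, -, h⟩ := mem_image.mp h2
    simp [gn, xo] at h

lemma card_XX (b : Bits R T) : (XX b : Finset (End R T k)).card = 2 * (R + k) := by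
  have := card_XX_filter (k := k) b (fun _ => True)
  simp only [filter_true, card_univ, Fintype.card_prod, Fintype.card_fin,
    Fintype.card_bool] at this
  omega

variable {h : ℕ}

/-- offset of an end -/
def dz (c : Bool) : ZMod h := if c then 1 else 0

/-- displacement across a cut -/
def sg (c : Bool) : ZMod h := if c then -1 else 1

lemma dz_not (c : Bool) : (dz (!c) : ZMod h) = dz c + sg c := by
  cases c <;> simp [dz, sg]

lemma sg_not (c : Bool) : (sg (!c) : ZMod h) = - sg c := by
  cases c <;> simp [sg]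

/-- admissible type assignments -/
structure Typed (bs : κ × Bool → ZMod h) (α : Bool → κ × Bool) (cB : Bool) (N E : ℕ)
    (F : Finset (Fin R)) (g₀ : Fin R → Fin k) (b : Bits R T) (τ : Cut R T k → ZMod h)
    (dt : End R T k → κ × Bool) (lb : End R T k → ℕ × Bool) : Prop where
  sp : ∀ r, τ (Sum.inl r) = bs (α false)
  base : ∀ e, τ e.1 + dz e.2 = bs (dt e)
  chn : ∀ e, e ∉ XX b → dt (ch b e) = op (dt e)
  st : ∀ i, dt (se i) = α i.2
  lbd : ∀ e ∈ XX b, ∀ e' ∈ XX b, lb e' = op (lb e) → dt e' = op (dt e)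
  lt : ∀ e ∈ XX b, (lb e).1 < N
  count : ∀ c < N, ∀ o, cnt lb (XX b) (c, o) = E
  kl : ∀ c < N,
    4 ≤ ((XX b).filter (fun x => (lb x).1 = c ∧ (kap x = x ∨ c < (lb (kap x)).1))).card
  sl : ∀ c, c + 1 < N → ∃ r ∈ F, (lb (gn (g₀ r) (b (r, cB) (Fin.last T)))).1 = c ∧
    c < (lb (xo b (r, cB) (Fin.last T))).1

/-- one step of an alternating walk in the base graph -/
def St (bs : κ × Bool → ZMod h) (p : κ × Bool) (z : Bool) (d : κ × Bool) : Prop :=
  bs d = bs (op p) + sg z

/-- alternating walks in the base graph -/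
def Wk (bs : κ × Bool → ZMod h) (a a' : κ × Bool) (p : ℕ → κ × Bool) (σ : ℕ → Bool) (N : ℕ) :
    Prop := p 0 = a ∧ p N = a' ∧ ∀ l < N, St bs (p l) (σ l) (p (l + 1))

lemma mod_succ_eq {α : Type} (p : ℕ → α) {N : ℕ} (hN : 0 < N) (h0 : p 0 = p N) (l : ℕ) :
    p ((l + 1) % N) = p (l % N + 1) := by
  have := Nat.mod_lt l hN
  rw [← Nat.mod_add_mod]
  by_cases hl : l % N + 1 < N
  · rw [Nat.mod_eq_of_lt hl]
  · rw [show l % N + 1 = N by omega, Nat.mod_self, h0]

lemma Wk.rep {bs : κ × Bool → ZMod h} {a : κ × Bool} {p : ℕ → κ × Bool} {σ : ℕ → Bool} {N M : ℕ}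
    (hw : Wk bs a a p σ N) (hN : 0 < N) (hM : N ∣ M) :
    Wk bs a a (fun l => p (l % N)) (fun l => σ (l % N)) M := by
  refine ⟨by simpa using hw.1, ?_, fun l _ => ?_⟩
  · simp only [Nat.mod_eq_zero_of_dvd hM]
    exact hw.1
  · simp only [mod_succ_eq p hN (hw.1.trans hw.2.1.symm)]
    exact hw.2.2 _ (Nat.mod_lt l hN)

lemma Wk.rev {bs : κ × Bool → ZMod h} {a : κ × Bool} {p : ℕ → κ × Bool} {σ : ℕ → Bool} {N : ℕ}
    (hw : Wk bs a a p σ N) :
    Wk bs (op a) (op a) (fun l => op (p (N - l))) (fun l => !σ (N - 1 - l)) N := by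
  refine ⟨by simp [hw.2.1], by simp [hw.1], fun l hl => ?_⟩
  have := hw.2.2 (N - 1 - l) (by omega)
  rw [show N - 1 - l + 1 = N - l by omega] at this
  simp only [St, op_op, sg_not, show N - (l + 1) = N - 1 - l by omega] at this ⊢
  rw [this]; ring

lemma Wk.cons {bs : κ × Bool → ZMod h} {a a' c : κ × Bool} {p : ℕ → κ × Bool} {σ : ℕ → Bool}
    {N : ℕ} {z : Bool} (h1 : St bs a z c) (hw : Wk bs c a' p σ N) :
    ∃ p' σ', Wk bs a a' p' σ' (N + 1) ∧ σ' 0 = z := by
  refine ⟨fun l => Nat.casesOn l a p, fun l => Nat.casesOn l z σ, ⟨rfl, hw.2.1, ?_⟩, rfl⟩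
  intro l hl
  cases l with
  | zero => simpa [hw.1] using h1
  | succ l => exact hw.2.2 l (by omega)

theorem exists_walks [Fintype κ] {bs : κ × Bool → ZMod h} (hsurj : ∀ q, ∃ d, bs d = q) :
    ∃ (N : ℕ) (α : Bool → κ × Bool) (cB : Bool) (pd : Bool → Bool → ℕ → κ × Bool)
      (sd : Bool → Bool → ℕ → Bool), 0 < N ∧ (∀ c z, Wk bs (α c) (α c) (pd c z) (sd c z) N) ∧
      (∀ z, sd (!cB) z 0 = z) ∧ (∀ z, sd cB z (N - 1) = z) ∧
      α cB = op (pd (!cB) true (N - 1)) ∧ sd (!cB) true (N - 1) = cB := by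
  classical
  obtain ⟨Rc, hRc⟩ : ∃ Rc : κ × Bool → κ × Bool → Prop,
    Rc = Relation.ReflTransGen (fun p d => ∃ z, St bs p z d) := ⟨_, rfl⟩
  have htr : ∀ {a b c}, Rc a b → Rc b c → Rc a c := by
    intro a b c; rw [hRc]; exact Relation.ReflTransGen.trans
  have hwk : ∀ a c, Rc a c → ∃ N p σ, Wk bs a c p σ N := by
    intro a c hac
    rw [hRc] at hac
    induction hac using Relation.ReflTransGen.head_induction_on with
    | refl => exact ⟨0, fun _ => c, fun _ => true, rfl, rfl, fun l hl => by omega⟩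
    | head h1 _ ih =>
      obtain ⟨z, h1⟩ := h1
      obtain ⟨N, p, σ, hw⟩ := ih
      obtain ⟨p', σ', h2, -⟩ := Wk.cons h1 hw
      exact ⟨_, _, _, h2⟩
  have hrc : ∀ a c p σ N, Wk bs a c p σ N → ∀ l ≤ N, Rc a (p l) := by
    intro a c p σ N hw l hl
    rw [hRc]
    induction l with
    | zero => rw [hw.1]
    | succ l ih => exact (ih (by omega)).tail ⟨_, hw.2.2 l (by omega)⟩
  obtain ⟨d₀, -⟩ := hsurj 0
  obtain ⟨a, -, ha⟩ := exists_min_image univ (fun a => (univ.filter (Rc a)).card) ⟨d₀, mem_univ _⟩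
  have hback : ∀ c, Rc a c → Rc c a := by
    intro c hc
    have hsub : univ.filter (Rc c) ⊆ univ.filter (Rc a) := by
      intro x hx
      rw [mem_filter] at hx ⊢
      exact ⟨hx.1, htr hc hx.2⟩
    have := eq_of_subset_of_card_le hsub (ha c (mem_univ _))
    have h2 : a ∈ univ.filter (Rc a) := by
      rw [mem_filter, hRc]; exact ⟨mem_univ _, Relation.ReflTransGen.refl⟩
    rw [← this] at h2
    exact (mem_filter.mp h2).2
  have hloop : ∀ c, Rc a c → ∀ z, ∃ N p σ, Wk bs c c p σ (N + 1) ∧ σ 0 = z := by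
    intro c hc z
    obtain ⟨d, hd⟩ := hsurj (bs (op c) + sg z)
    have h1 : Rc c d := by rw [hRc]; exact Relation.ReflTransGen.single ⟨z, hd⟩
    obtain ⟨N, p, σ, hw⟩ := hwk d c (htr (hback d (htr hc h1)) hc)
    obtain ⟨p', σ', h2⟩ := Wk.cons hd hw
    exact ⟨N, p', σ', h2⟩
  choose na pa sa hA hA' using hloop a (by rw [hRc])
  choose nb pb sb hB hB' using hloop (pa true (na true)) (hrc _ _ _ _ _ (hA true) _ (by omega))
  obtain ⟨N, hN⟩ : ∃ N, N = (na true + 1) * (na false + 1) * ((nb true + 1) * (nb false + 1)) :=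
    ⟨_, rfl⟩
  have hN0 : 0 < N := by rw [hN]; positivity
  have hda : ∀ z, na z + 1 ∣ N := by
    intro z
    rw [hN]
    cases z
    · exact Dvd.dvd.mul_right (Dvd.intro_left _ rfl) _
    · exact Dvd.dvd.mul_right (Dvd.intro _ rfl) _
  have hdb : ∀ z, nb z + 1 ∣ N := by
    intro z
    rw [hN]
    cases z
    · exact Dvd.dvd.mul_left (Dvd.intro_left _ rfl) _
    · exact Dvd.dvd.mul_left (Dvd.intro _ rfl) _
  have hlast : (N - 1) % (na true + 1) = na true := by
    obtain ⟨m, hm⟩ := hda true
    rcases m with _ | m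
    · omega
    · rw [hm, show (na true + 1) * (m + 1) - 1 = (na true + 1) * m + na true by
        rw [mul_add]; omega, Nat.mul_add_mod, Nat.mod_eq_of_lt (by omega)]
  obtain ⟨cB, hcB⟩ : ∃ cB, cB = sa true (na true) := ⟨_, rfl⟩
  have hne : (!cB) ≠ cB := by simp
  refine ⟨N, fun c => if c = cB then op (pa true (na true)) else a, cB,
    fun c z => if c = cB then fun l => op (pb (!z) ((N - l) % (nb (!z) + 1)))
      else fun l => pa z (l % (na z + 1)),
    fun c z => if c = cB then fun l => !sb (!z) ((N - 1 - l) % (nb (!z) + 1))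
      else fun l => sa z (l % (na z + 1)), hN0, ?_, ?_, ?_, ?_, ?_⟩
  · intro c z
    by_cases hc : c = cB
    · simp only [if_pos hc]
      exact ((hB (!z)).rep (by omega) (hdb _)).rev
    · simp only [if_neg hc]
      exact (hA z).rep (by omega) (hda _)
  · intro z
    simp only [if_neg hne, Nat.zero_mod, hA']
  · intro z
    simp [hB']
  · simp only [if_neg hne, if_true, hlast]
  · simp only [if_neg hne, hlast]
    exact hcB.symm

lemma card_div_eq {k E N R : ℕ} (hk : k + R = N * E) (hRE : R < E) {j : ℕ} (hj : j < N) :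
    (univ.filter (fun g : Fin k => g.val / E = j)).card + (if j + 1 = N then R else 0) = E := by
  have hE : 0 < E := by omega
  have h1 : univ.filter (fun g : Fin k => g.val / E = j) =
      univ.filter (fun g : Fin k => g.val < (j + 1) * E) \
        univ.filter (fun g : Fin k => g.val < j * E) := by
    ext g
    simp only [mem_filter, mem_univ, true_and, mem_sdiff, not_lt]
    rw [← Nat.div_lt_iff_lt_mul hE, ← Nat.le_div_iff_mul_le hE]
    omega
  rw [h1, card_sdiff_of_subset (by
    intro g hg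
    simp only [mem_filter, mem_univ, true_and] at hg ⊢
    rw [add_mul]; omega), Fin.card_filter_val_lt, Fin.card_filter_val_lt]
  obtain ⟨m, rfl⟩ : ∃ m, N = j + 1 + m := ⟨N - (j + 1), by omega⟩
  rcases m with _ | m
  · simp only [add_zero, if_true, add_mul, one_mul] at hk ⊢
    omega
  · rw [if_neg (by omega)]
    simp only [add_mul, one_mul] at hk ⊢
    omega

theorem exists_typed {bs : κ × Bool → ZMod h} {N : ℕ} {α : Bool → κ × Bool} {cB : Bool}
    {pd : Bool → Bool → ℕ → κ × Bool} {sd : Bool → Bool → ℕ → Bool} (hN : 0 < N)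
    (hw : ∀ c z, Wk bs (α c) (α c) (pd c z) (sd c z) N)
    (h1 : ∀ z, sd (!cB) z 0 = z) (h2 : ∀ z, sd cB z (N - 1) = z)
    (h3 : α cB = op (pd (!cB) true (N - 1))) (h4 : sd (!cB) true (N - 1) = cB)
    {T' E : ℕ} (hT : T + 1 = N * (T' + 1)) (hk : k + R = N * E) (hNR : N ≤ R) (hR : 4 ≤ R)
    (hRE : R < E) :
    ∃ (F : Finset (Fin R)) (g₀ : Fin R → Fin k) (bb : (Chn R → Fin T' → Bool) → Bits R T),
      F.card ≤ N ∧ Set.InjOn g₀ F ∧ (∀ ω ω' i, ω i ≠ ω' i → bb ω i ≠ bb ω' i) ∧
      ∀ ω, ∃ τ dt lb, Typed bs α cB N E F g₀ (bb ω) τ dt lb := by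
  have hE : 0 < E := by omega
  have hNE : E ≤ N * E := Nat.le_mul_of_pos_left _ hN
  have hk0 : 0 < k := by omega
  obtain ⟨p₀, hp₀⟩ : ∃ p₀, p₀ = pd (!cB) true := ⟨_, rfl⟩
  obtain ⟨σ₀, hσ₀⟩ : ∃ σ₀, σ₀ = sd (!cB) true := ⟨_, rfl⟩
  have hw0 := hw (!cB) true
  rw [← hp₀, ← hσ₀] at hw0
  rw [← hp₀] at h3
  rw [← hσ₀] at h4
  have hlt : ∀ r, r + 1 < N → r * E < k := by
    intro r hr
    have : (r + 2) * E ≤ N * E := Nat.mul_le_mul_right _ (by omega)
    rw [add_mul] at this
    omega
  have hgN : ∀ g : Fin k, g.val / E < N := by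
    intro g
    rw [Nat.div_lt_iff_lt_mul hE]
    have := g.isLt
    omega
  obtain ⟨mb, hmb⟩ : ∃ mb : (Chn R → Fin T' → Bool) → Chn R → ℕ → Bool,
    mb = fun ω i u => if hu : u < T' then ω i ⟨u, hu⟩ else σ₀ i.1.val := ⟨_, rfl⟩
  have hdm : ∀ u v, v < N → (N * u + v) / N = u ∧ (N * u + v) % N = v := by
    intro u v hv
    rw [Nat.mul_add_div hN, Nat.mul_add_mod, Nat.div_eq_of_lt hv, Nat.mod_eq_of_lt hv]
    simp
  have hTe : T = N * T' + (N - 1) := by rw [mul_add] at hT; omega
  refine ⟨univ.filter (fun r => r.val + 1 < N),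
    fun r => if hr : r.val * E < k then ⟨_, hr⟩ else ⟨0, hk0⟩,
    fun ω i l => sd i.2 (mb ω i (l.val / N)) (l.val % N), ?_, ?_, ?_, ?_⟩
  · conv_rhs => rw [← card_range N]
    apply card_le_card_of_injOn Fin.val
    · intro r hr
      simp only [coe_filter, mem_univ, true_and, Set.mem_ofPred_eq, coe_range,
        Set.mem_Iio] at hr ⊢
      omega
    · exact Fin.val_injective.injOn
  · intro r hr r' hr' e
    simp only [coe_filter, mem_univ, true_and, Set.mem_ofPred_eq] at hr hr'
    simp only [dif_pos (hlt _ hr), dif_pos (hlt _ hr'), Fin.mk.injEq] at e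
    exact Fin.ext (Nat.eq_of_mul_eq_mul_right hE e)
  · intro ω ω' i hne e
    obtain ⟨u, hu⟩ := Function.ne_iff.mp hne
    apply hu
    have hb : ∀ v < N, N * u.val + v < T + 1 := by
      intro v hv
      have : N * (u.val + 1) ≤ N * T' := Nat.mul_le_mul_left _ u.isLt
      rw [mul_add] at this
      omega
    by_cases hc : i.2 = cB
    · have := congrFun e ⟨_, hb (N - 1) (by omega)⟩
      simpa only [hdm u.val (N - 1) (by omega), hc, h2, hmb, dif_pos u.isLt] using this
    · have := congrFun e ⟨_, hb 0 hN⟩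
      have hc' : i.2 = !cB := Bool.eq_not_iff.mpr hc
      simpa only [hdm u.val 0 hN, hc', h1, hmb, dif_pos u.isLt] using this
  intro ω
  obtain ⟨b, hb⟩ : ∃ b : Bits R T, b = fun i l => sd i.2 (mb ω i (l.val / N)) (l.val % N) :=
    ⟨_, rfl⟩
  beta_reduce
  rw [← hb]
  obtain ⟨pc, hpc⟩ : ∃ pc : Chn R → ℕ → κ × Bool,
    pc = fun i l => pd i.2 (mb ω i (l / N)) (l % N) := ⟨_, rfl⟩
  have hpc0 : ∀ i l, l % N = 0 → pc i l = α i.2 := by
    intro i l hl
    simp only [hpc, hl, (hw _ _).1]
  have hst : ∀ i (l : Fin (T + 1)), St bs (pc i l.val) (b i l) (pc i (l.val + 1)) := by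
    intro i l
    have a := Nat.mod_lt l.val hN
    have c := (hw i.2 (mb ω i (l.val / N))).2.2 _ a
    have d : pc i (l.val + 1) = pd i.2 (mb ω i (l.val / N)) (l.val % N + 1) := by
      by_cases hl : l.val % N + 1 < N
      · have := hdm (l.val / N) _ hl
        rw [← add_assoc, Nat.div_add_mod] at this
        simp only [hpc, this]
      · rw [show l.val % N + 1 = N by omega, (hw _ _).2.1]
        apply hpc0
        rw [← Nat.mod_add_mod, show l.val % N + 1 = N by omega, Nat.mod_self]
    rw [d, hb, hpc]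
    exact c
  have hblast : ∀ r : Fin R, b (r, cB) (Fin.last T) = σ₀ r.val := by
    intro r
    have := hdm T' (N - 1) (by omega)
    rw [← hTe] at this
    simp only [hb, Fin.val_last, this, h2, hmb, lt_irrefl, dif_neg, not_false_eq_true]
  obtain ⟨dt, hdt⟩ : ∃ dt : End R T k → κ × Bool, dt = fun e => Sum.elim (fun _ => α e.2)
    (Sum.elim (fun x => if e.2 = b x.1 x.2 then op (pc x.1 x.2.val) else pc x.1 (x.2.val + 1))
      (fun g => if e.2 = σ₀ (g.val / E) then op (p₀ (g.val / E)) else p₀ (g.val / E + 1))) e.1 :=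
    ⟨_, rfl⟩
  obtain ⟨lb, hlb⟩ : ∃ lb : End R T k → ℕ × Bool, lb = fun e => Sum.elim (fun _ => (0, true))
    (Sum.elim (fun x => if x.1.2 = cB then (N - 1, false) else (0, true))
      (fun g => if e.2 = σ₀ (g.val / E) then (g.val / E, false)
        else ((g.val / E + 1) % N, true))) e.1 := ⟨_, rfl⟩
  have dse : ∀ i, dt (se i) = α i.2 := by intro i; simp [hdt, se]
  have dye : ∀ i l, dt (ye b i l) = op (pc i l.val) := by intro i l; simp [hdt, ye]
  have dxo : ∀ i l, dt (xo b i l) = pc i (l.val + 1) := by intro i l; simp [hdt, xo]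
  have dgn : ∀ g c, dt (gn g c) =
      if c = σ₀ (g.val / E) then op (p₀ (g.val / E)) else p₀ (g.val / E + 1) := by
    intro g c; simp [hdt, gn]
  have lxo : ∀ i l, lb (xo b i l) = if i.2 = cB then (N - 1, false) else (0, true) := by
    intro i l; simp [hlb, xo]
  have lgn : ∀ g c, lb (gn g c) =
      if c = σ₀ (g.val / E) then (g.val / E, false) else ((g.val / E + 1) % N, true) := by
    intro g c; simp [hlb, gn]
  have hμ : ∀ e ∈ XX b, dt e = if (lb e).2 then p₀ (lb e).1 else op (p₀ (lb e).1) := by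
    intro e he
    rcases mem_XX_cases he with ⟨i, rfl⟩ | ⟨g, c, rfl⟩
    · rw [dxo, lxo, hpc0 _ _ (by rw [Fin.val_last, hT, Nat.mul_mod_right])]
      by_cases hc : i.2 = cB
      · simp [hc, h3]
      · rw [if_neg hc, Bool.eq_not_iff.mpr hc]
        simp [hw0.1]
    · rw [dgn, lgn]
      by_cases hc : c = σ₀ (g.val / E)
      · simp [hc]
      · have := mod_succ_eq p₀ hN (hw0.1.trans hw0.2.1.symm) (g.val / E)
        rw [Nat.mod_eq_of_lt (hgN g)] at this
        simp [hc, this]
  have hstep : ∀ (p d : κ × Bool) (z c : Bool), St bs p z d →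
      bs (op p) - dz z + dz c = bs (if c = z then op p else d) := by
    intro p d z c hs
    by_cases hc : c = z
    · rw [if_pos hc, hc]; ring
    · rw [if_neg hc, Bool.eq_not_iff.mpr hc, dz_not, hs]; ring
  refine ⟨Sum.elim (fun _ => bs (α false)) (Sum.elim (fun x => bs (op (pc x.1 x.2.val)) -
    dz (b x.1 x.2)) (fun g => bs (op (p₀ (g.val / E))) - dz (σ₀ (g.val / E)))), dt, lb,
    fun _ => rfl, ?_, ?_, dse, ?_, ?_, ?_, ?_, ?_⟩
  · rintro ⟨r | x | g, c⟩
    · have := hw0.2.2 (N - 1) (by omega)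
      rw [show N - 1 + 1 = N by omega, hw0.2.1, h4, St, ← h3] at this
      have e := dse (r, c)
      simp only [se] at e
      simp only [Sum.elim_inl, e]
      cases c
      · simp [dz]
      · cases cB
        · simpa [dz, sg] using this.symm
        · simp only [Bool.not_true, sg, if_true] at this
          simp [dz, this]
    · simp only [hdt, Sum.elim_inr, Sum.elim_inl]
      exact hstep _ _ _ _ (hst x.1 x.2)
    · simp only [hdt, Sum.elim_inr]
      exact hstep _ _ _ _ (hw0.2.2 _ (hgN g))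
  · intro e
    induction e using End.cases6 b with
    | h1 i => intro _; rw [ch_se, dye, dse, Fin.val_zero, hpc0 _ _ (Nat.zero_mod _)]
    | h2 i => intro _; rw [ch_ye_zero, dye, dse, Fin.val_zero, hpc0 _ _ (Nat.zero_mod _), op_op]
    | h2' i t => intro _; rw [ch_ye_succ, dye, dxo, op_op]; rfl
    | h3 i t => intro _; rw [ch_xo_castSucc, dye, dxo]; rfl
    | h3' i => intro h; exact absurd (xo_last_mem b i) h
    | h4 g c => intro h; exact absurd (gn_mem b g c) h
  · intro e he e' he' hl
    rw [hμ e he, hμ e' he', hl, op_fst, op_snd]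
    cases (lb e).2 <;> simp
  · intro e he
    rcases mem_XX_cases he with ⟨i, rfl⟩ | ⟨g, c, rfl⟩
    · rw [lxo]; split_ifs <;> simp <;> omega
    · rw [lgn]; split_ifs
      · exact hgN g
      · exact Nat.mod_lt _ hN
  · intro c hc o
    rw [cnt, card_XX_filter, card_filter, card_filter, Fintype.sum_prod_type,
      Fintype.sum_prod_type]
    simp only [lxo, lgn]
    have e1 : ∀ (z : Bool) (x y : ℕ × Bool), ∑ c' : Bool,
        (if (if c' = z then x else y) = (c, o) then 1 else 0) =
        (if x = (c, o) then 1 else 0) + (if y = (c, o) then 1 else 0) := by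
      intro z x y
      rw [Fintype.sum_bool]
      cases z
      · rw [if_neg (show ¬ true = false by simp), if_pos rfl, add_comm]
      · rw [if_neg (show ¬ false = true by simp), if_pos rfl]
    simp only [e1, sum_const, card_univ, Fintype.card_fin, smul_eq_mul, Prod.mk.injEq]
    cases o
    · have := card_div_eq hk hRE hc
      rw [card_filter] at this
      simp only [and_true, Bool.true_eq_false, and_false, if_false, add_zero]
      by_cases hc' : c + 1 = N
      · rw [if_pos hc'] at this
        rw [if_pos (by omega)]; omega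
      · rw [if_neg hc'] at this
        rw [if_neg (by omega)]; omega
    · simp only [and_true, Bool.false_eq_true, and_false, if_false, zero_add]
      rcases Nat.eq_zero_or_pos c with h0 | h0
      · have := card_div_eq hk hRE (show N - 1 < N by omega)
        rw [card_filter, if_pos (by omega)] at this
        rw [if_pos h0.symm, mul_one, add_comm]
        refine Eq.trans ?_ this
        congr 1
        apply sum_congr rfl
        intro g _
        have a := hgN g
        by_cases hg : g.val / E = N - 1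
        · rw [if_pos hg, if_pos (by rw [hg, h0, show N - 1 + 1 = N by omega, Nat.mod_self])]
        · rw [if_neg hg, if_neg (by
            rw [Nat.mod_eq_of_lt (by omega), h0]; exact Nat.succ_ne_zero _)]
      · have := card_div_eq hk hRE (show c - 1 < N by omega)
        rw [card_filter, if_neg (by omega), add_zero] at this
        rw [if_neg (by omega), mul_zero, zero_add]
        refine Eq.trans ?_ this
        apply sum_congr rfl
        intro g _
        have a := hgN g
        by_cases hg : g.val / E = c - 1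
        · rw [if_pos hg, if_pos (by rw [Nat.mod_eq_of_lt (by omega)]; omega)]
        · rw [if_neg hg, if_neg]
          by_cases hg' : g.val / E + 1 < N
          · rw [Nat.mod_eq_of_lt hg']; omega
          · rw [show g.val / E + 1 = N by omega, Nat.mod_self]; omega
  · intro c hc
    by_cases hc' : c + 1 = N
    · refine hR.trans ?_
      conv_lhs => rw [← Fintype.card_fin R, ← card_univ]
      apply card_le_card_of_injOn (fun r => xo b (r, cB) (Fin.last T))
      · intro r _
        simp only [coe_filter, Set.mem_ofPred_eq]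
        refine ⟨xo_last_mem b _, ?_, Or.inl rfl⟩
        rw [lxo]; simp; omega
      · intro r _ r' _ h
        simp only [xo, Prod.mk.injEq, Sum.inr.injEq, Sum.inl.injEq] at h
        exact h.1.1.1
    · have := card_div_eq hk hRE hc
      rw [if_neg hc', add_zero] at this
      refine le_trans (show 4 ≤ E by omega) ?_
      rw [← this]
      apply card_le_card_of_injOn (fun g => gn g (σ₀ c))
      · intro g hg
        simp only [coe_filter, mem_univ, true_and, Set.mem_ofPred_eq] at hg ⊢
        refine ⟨gn_mem b _ _, ?_, Or.inr ?_⟩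
        · rw [lgn, hg, if_pos rfl]
        · rw [kap_gn, lgn, hg, if_neg (by simp), Nat.mod_eq_of_lt (by omega)]
          simp
      · intro g _ g' _ h
        simp only [gn, Prod.mk.injEq, Sum.inr.injEq] at h
        exact h.1
  · intro c hc
    refine ⟨⟨c, by omega⟩, by simpa using hc, ?_, ?_⟩
    · rw [hblast, lgn]
      simp only [dif_pos (hlt c hc), Nat.mul_div_cancel _ hE, if_true]
    · rw [lxo]; simp; omega

end Pool.Agent.MP_755159_pr.G
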