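import Pool.Agent.MP_755159_pr.G.Ext

/-! Placing the cuts on the lift of a Hamilton cycle of a general base graph. -/

set_option linter.unusedSectionVars false

namespace Pool.Agent.MP_755159_pr.G

open Finset

variable {V : Type} [Fintype V] [DecidableEq V] {R T k : ℕ} {h : ℕ} [Fact (2 < h)]
  {κ : Type} [DecidableEq κ] {W : Type} [Fintype W] [DecidableEq W]

lemma z1 : (1 : ZMod h) ≠ 0 := by
  have : Fact (1 < h) := ⟨by have := Fact.out (p := 2 < h); omega⟩
  exact one_ne_zero

lemma z2 : (2 : ZMod h) ≠ 0 := by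
  intro e
  apply ZMod.neg_one_ne_one (n := h)
  linear_combination -e

section
variable {pos : V → ZMod h} {s : Equiv.Perm V} (hs : ∀ v, pos (s v) = pos v + 1)
include hs

lemma pos_inv (v : V) : pos (s⁻¹ v) = pos v - 1 := by
  have := hs (s⁻¹ v)
  rw [show s (s⁻¹ v) = v by simp] at this
  rw [this]; ring

lemma pos_aw (c : Bool) (v : V) : pos (aw s c v) = pos v - sg c := by
  cases c
  · exact pos_inv hs v
  · simpa [aw, sg] using hs v

lemma pos_loc (t : Cut R T k → V) (e : End R T k) : pos (loc s t e) = pos (t e.1) + dz e.2 := by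
  obtain ⟨j, c⟩ := e
  cases c <;> simp [loc, dz, hs]

lemma loc_inj {t : Cut R T k → V} (h : Sep s t) : Function.Injective (loc s t) := by
  rintro ⟨j, c⟩ ⟨j', c'⟩ e
  by_cases hj : j = j'
  · subst hj
    have := congrArg pos e
    cases c <;> cases c' <;> simp only [loc, Bool.false_eq_true, if_true, if_false, hs] at this
    · rfl
    · exact absurd (by linear_combination -this) z1
    · exact absurd (by linear_combination this) z1
    · rfl
  · rw [loc_zpow, loc_zpow, zpow_eq_iff] at e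
    refine absurd e (h j j' hj _ ?_)
    cases c <;> cases c' <;> simp

lemma away_ne {t : Cut R T k → V} (h : Sep s t) (e e' : End R T k) :
    aw s e.2 (loc s t e) ≠ loc s t e' := by
  obtain ⟨j, c⟩ := e
  obtain ⟨j', c'⟩ := e'
  intro e
  by_cases hj : j = j'
  · subst hj
    have := congrArg pos e
    rw [pos_aw hs, pos_loc hs, pos_loc hs] at this
    cases c <;> cases c' <;> simp only [dz, sg, Bool.false_eq_true, if_true, if_false] at this
    · exact z1 (by linear_combination -this)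
    · exact z2 (by linear_combination -this)
    · exact z2 (by linear_combination this)
    · exact z1 (by linear_combination this)
  · rw [loc_zpow, loc_zpow, aw_zpow, zpow_app, zpow_eq_iff] at e
    refine absurd e (h j j' hj _ ?_)
    cases c <;> cases c' <;> simp

end

theorem exists_sX {pos : V → ZMod h} {s : Equiv.Perm V} (hs : ∀ v, pos (s v) = pos v + 1)
    {t : Cut R T k → V} (hsep : Sep s t)
    (hsp : ∀ W : Finset V, W.Nonempty → (∀ v ∈ W, s v ∈ W) → ∃ r, t (Sum.inl r) ∈ W)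
    (b : Bits R T) (ty : End R T k → κ × Bool)
    (h1 : ∀ i t', ∃ g c, First s t (ye b i t') (gn g c)) :
    ∃ sX : End R T k → End R T k, Inv (XX b) sX ∧ (∀ e ∈ XX b, sX e ≠ e) ∧
      (∀ x ∈ XX b, ∀ y ∈ XX b, First s t x y → x ≠ y → sX y = x) ∧
      ∀ p, IsTP ty (XX b) p → Conn (XX b) sX p → ∀ U : Finset (V × Bool), U.Nonempty →
        (∀ d ∈ U, (d.1, !d.2) ∈ U) → (∀ d ∈ U, eta s t (PP b p) d ∈ U) → ∀ d, d ∈ U := by
  have hinj := loc_inj hs hsep
  have hinv := eta_eta hinj (ch_ch b)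
  obtain ⟨σ, s1, s2, s3⟩ := exists_sigma (eta s t (ch b)) _ univ (fun d : V × Bool => (d.1, !d.2))
    rfl (by intro d _; simp) (by intro d _ h; simpa using congrArg Prod.snd h)
    (fun d _ => ⟨mem_univ _, hinv d⟩)
  have hfix : ∀ d, eta s t (ch b) d = d → ∃ e ∈ XX b, dl s t e = d := by
    intro d h
    by_cases hd : ∃ e, dl s t e = d
    · obtain ⟨e, rfl⟩ := hd
      rw [eta_dl hinj] at h
      exact ⟨e, mem_XX.mpr (dl_inj hinj h), rfl⟩
    · rw [eta_uncut _ hd] at h
      exact absurd h (etaF_ne s d)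
  have hfix' : ∀ e ∈ XX b, eta s t (ch b) (dl s t e) = dl s t e := by
    intro e he
    rw [eta_dl hinj, mem_XX.mp he]
  have hex : ∀ e : End R T k, ∃ e', e ∈ XX b → e' ∈ XX b ∧ dl s t e' = σ (dl s t e) := by
    intro e
    by_cases he : e ∈ XX b
    · obtain ⟨e', a, b⟩ := hfix _ (s1 _ (mem_univ _) (hfix' e he)).2.1
      exact ⟨e', fun _ => ⟨a, b⟩⟩
    · exact ⟨e, fun h => absurd h he⟩
  choose sX hsX using hex
  have hacyc : ∀ U : Finset (V × Bool), U.Nonempty → (∀ d ∈ U, (d.1, !d.2) ∈ U) →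
      (∀ d ∈ U, eta s t (ch b) d ∈ U) → ∃ e ∈ XX b, dl s t e ∈ U := by
    intro U hne a c
    have hboth : ∀ v q q', (v, q) ∈ U → (v, q') ∈ U := by
      intro v q q' h
      by_cases hq : q' = q
      · rwa [hq]
      · rw [Bool.eq_not_iff.mpr hq]; exact a _ h
    have hcut : ∃ e, dl s t e ∈ U := by
      by_contra hcon
      push Not at hcon
      obtain ⟨r, hr⟩ := hsp (U.image Prod.fst) (hne.image _) (by
        intro v hv
        obtain ⟨d, hd, rfl⟩ := mem_image.mp hv
        have := c _ (hboth d.1 d.2 false hd)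
        rw [eta_uncut _ (by rintro ⟨e, he⟩; exact hcon e (he ▸ hboth d.1 d.2 false hd))] at this
        exact mem_image.mpr ⟨_, this, rfl⟩)
      obtain ⟨d, hd, h⟩ := mem_image.mp hr
      apply hcon (se (r, false))
      have := hboth d.1 d.2 false hd
      rwa [h] at this
    have hye : ∀ i t', dl s t (ye b i t') ∈ U → ∃ e ∈ XX b, dl s t e ∈ U := by
      intro i t' h
      obtain ⟨g, q, hf⟩ := h1 i t'
      exact ⟨_, gn_mem b g q, hf.mem _ U a c h⟩
    obtain ⟨e, he⟩ := hcut
    induction e using End.cases6 b with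
    | h1 i => exact hye i 0 (by simpa [eta_dl hinj] using c _ he)
    | h2 i => exact hye i _ he
    | h2' i t' => exact hye i _ he
    | h3 i t' => exact hye i t'.succ (by simpa [eta_dl hinj] using c _ he)
    | h3' i => exact ⟨_, xo_last_mem b i, he⟩
    | h4 g q => exact ⟨_, gn_mem b g q, he⟩
  have hsXinv : Inv (XX b) sX := by
    intro e he
    obtain ⟨a, c⟩ := hsX e he
    refine ⟨a, dl_inj hinj ?_⟩
    rw [(hsX _ a).2, c, (s1 _ (mem_univ _) (hfix' e he)).2.2.1]
  refine ⟨sX, hsXinv, ?_, ?_, ?_⟩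
  · intro e he h
    apply (s1 _ (mem_univ _) (hfix' e he)).2.2.2
    rw [← (hsX e he).2, h]
  · intro x hx y hy hxy hne
    obtain ⟨U, -, a, c, d, f⟩ := s3 _ (mem_univ _) (hfix' x hx)
    rcases f _ (hxy.mem _ U a c d) (hfix' y hy) with h | h
    · exact absurd (dl_inj hinj h).symm hne
    · rw [← (hsX x hx).2] at h
      rw [dl_inj hinj h, (hsXinv x hx).2]
  · intro p hp hconn U hne a c
    have c' : ∀ d ∈ U, eta s t (ch b) d ∈ U := by
      intro d hd
      by_cases hd' : ∃ e, dl s t e = d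
      · obtain ⟨e, rfl⟩ := hd'
        by_cases he : e ∈ XX b
        · rwa [hfix' e he]
        · have := c _ hd
          rw [eta_dl hinj, PP_of_notMem hp he] at this
          rwa [eta_dl hinj]
      · have := c _ hd
        rw [eta_uncut _ hd'] at this ⊢
        exact this
    have hall := hconn ((XX b).filter (fun e => dl s t e ∈ U)) (filter_subset _ _)
      (by obtain ⟨e, h1, h2⟩ := hacyc U hne a c'; exact ⟨e, mem_filter.mpr ⟨h1, h2⟩⟩)
      (by
        intro e he
        rw [mem_filter] at he ⊢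
        refine ⟨(hsX e he.1).1, ?_⟩
        rw [(hsX e he.1).2]
        exact s2 U (subset_univ _) a c' _ he.2 (hfix' e he.1))
      (by
        intro e he
        rw [mem_filter] at he ⊢
        refine ⟨(hp.2 e he.1).1, ?_⟩
        have := c _ he.2
        rwa [eta_dl hinj, PP_of_mem p he.1] at this)
    by_contra hcon
    push Not at hcon
    obtain ⟨d, hd⟩ := hcon
    obtain ⟨e, h1, h2⟩ := hacyc Uᶜ ⟨d, mem_compl.mpr hd⟩
      (by
        intro d hd
        rw [mem_compl] at hd ⊢
        intro h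
        exact hd (by simpa using a _ h))
      (by
        intro d hd
        rw [mem_compl] at hd ⊢
        intro h
        exact hd (by simpa [hinv] using c' _ h))
    exact mem_compl.mp h2 (mem_filter.mp (hall h1)).2

/-- a covering of a Hamilton cycle together with the fibres over the chords -/
structure Cov (h : ℕ) (κ V W : Type) [Fintype V] [Fintype W] [DecidableEq V] [DecidableEq W]
    [DecidableEq κ] (n : ℕ) where
  pos : V → ZMod h
  s : Equiv.Perm V
  bs : κ × Bool → ZMod h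
  tw : W → κ × Bool
  lf : V → κ × Bool → W
  pr : W → V
  hs : ∀ v, pos (s v) = pos v + 1
  nV : ∀ q, cnt pos univ q = n
  nW : ∀ d, cnt tw univ d = n
  tw_lf : ∀ v d, tw (lf v d) = d
  pr_lf : ∀ v d, pos v = bs d → pr (lf v d) = v
  b0 : ∀ d, bs (op d) ≠ bs d
  b1 : ∀ d, bs (op d) ≠ bs d + 1

variable {n : ℕ}

/-- the half-edge used at an end -/
def lw (C : Cov h κ V W n) (t : Cut R T k → V) (dt : End R T k → κ × Bool) (e : End R T k) : W :=
  C.lf (loc C.s t e) (dt e)

/-- the matching realises the pairing -/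
def Rl (C : Cov h κ V W n) (t : Cut R T k → V) (dt : End R T k → κ × Bool)
    (P : End R T k → End R T k) (m : W → W) : Prop := ∀ e, m (lw C t dt e) = lw C t dt (P e)

/-- the graph -/
def Gr (C : Cov h κ V W n) (m : W → W) : SimpleGraph V :=
  SimpleGraph.fromRel (fun u v => v = C.s u ∨ ∃ w, C.pr w = u ∧ C.pr (m w) = v)

/-- ends lie over the base points of their half-edges -/
def Ov (C : Cov h κ V W n) (t : Cut R T k → V) (dt : End R T k → κ × Bool) : Prop :=
  ∀ e, C.pos (loc C.s t e) = C.bs (dt e)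

lemma tw_lw (C : Cov h κ V W n) (t : Cut R T k → V) (dt : End R T k → κ × Bool) (e : End R T k) :
    C.tw (lw C t dt e) = dt e := C.tw_lf _ _

lemma Ov.pr_lw {C : Cov h κ V W n} {t : Cut R T k → V} {dt : End R T k → κ × Bool}
    (ho : Ov C t dt) (e : End R T k) : C.pr (lw C t dt e) = loc C.s t e := C.pr_lf _ _ (ho e)

lemma Ov.loc_eq {C : Cov h κ V W n} {t t' : Cut R T k → V} {dt dt' : End R T k → κ × Bool}
    (ho : Ov C t dt) (ho' : Ov C t' dt') {e e' : End R T k} (q : lw C t dt e = lw C t' dt' e') :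
    loc C.s t e = loc C.s t' e' := by rw [← ho.pr_lw, ← ho'.pr_lw, q]

lemma Ov.lw_inj {C : Cov h κ V W n} {t : Cut R T k → V} {dt : End R T k → κ × Bool}
    (ho : Ov C t dt) (hsep : Sep C.s t) : Function.Injective (lw C t dt) :=
  fun _ _ q => loc_inj C.hs hsep (ho.loc_eq ho q)

lemma Ov.lw_eq_iff {C : Cov h κ V W n} {t t' : Cut R T k → V} {dt : End R T k → κ × Bool}
    (ho : Ov C t dt) (ho' : Ov C t' dt) (e : End R T k) :
    lw C t dt e = lw C t' dt e ↔ t e.1 = t' e.1 := by
  rw [← loc_eq_iff C.s]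
  exact ⟨ho.loc_eq ho', fun q => by rw [lw, lw, q]⟩

lemma Ov.of_pos {C : Cov h κ V W n} {t : Cut R T k → V} {dt : End R T k → κ × Bool}
    {τ : Cut R T k → ZMod h} (h1 : ∀ j, C.pos (t j) = τ j)
    (h2 : ∀ e, τ e.1 + dz e.2 = C.bs (dt e)) : Ov C t dt := fun e => by
  rw [pos_loc C.hs, h1, h2]

theorem ham_of_conn {C : Cov h κ V W n} [Nonempty V] {t : Cut R T k → V} (hsep : Sep C.s t)
    {dt : End R T k → κ × Bool} (ho : Ov C t dt) {P : End R T k → End R T k}
    (hP : IsTP dt univ P) {m : W → W} (hr : Rl C t dt P m)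
    (hconn : ∀ U : Finset (V × Bool), U.Nonempty →
        (∀ d ∈ U, (d.1, !d.2) ∈ U) → (∀ d ∈ U, eta C.s t P d ∈ U) → ∀ d, d ∈ U) :
    (Gr C m).IsHamiltonian := by
  have hs := C.hs
  have hinj := loc_inj hs hsep
  have hcase : ∀ d : V × Bool, (∃ e, dl C.s t e = d ∧ (eta C.s t P d).1 = loc C.s t (P e)) ∨
      (eta C.s t P d).1 = aw C.s (!d.2) d.1 := by
    intro d
    by_cases hd : ∃ e, dl C.s t e = d
    · left
      obtain ⟨e, rfl⟩ := hd
      exact ⟨e, rfl, by rw [eta_dl hinj]; rfl⟩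
    · right
      rw [eta_uncut _ hd]; rfl
  have hch : ∀ e c, loc C.s t (P e) ≠ aw C.s c (loc C.s t e) := by
    intro e c q
    have hp := congrArg C.pos q
    rw [pos_aw hs, ho, ho, hP.pos_eq] at hp
    cases c
    · exact C.b1 (op (dt e)) (by rw [op_op, hp]; simp [sg])
    · exact C.b1 (dt e) (by rw [hp]; simp [sg])
  apply ham_of_darts (Gr C m) (eta C.s t P) (eta_eta hinj hP.invol) _ _ hconn
  · intro d
    rw [Gr, SimpleGraph.fromRel_adj]
    rcases hcase d with ⟨e, rfl, q⟩ | q <;> rw [q]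
    · refine ⟨fun e' => ?_, Or.inl (Or.inr ⟨lw C t dt e, ho.pr_lw e, by rw [hr, ho.pr_lw]⟩)⟩
      have hp := congrArg C.pos e'
      simp only [dl] at hp
      rw [ho, ho, hP.pos_eq] at hp
      exact C.b0 _ hp.symm
    · constructor
      · intro e
        have := congrArg C.pos e
        rw [pos_aw hs] at this
        cases hd : d.2 <;> simp only [hd, sg, Bool.not_false, Bool.not_true, if_true,
          Bool.false_eq_true, if_false] at this
        · exact z1 (by linear_combination -this)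
        · exact z1 (by linear_combination this)
      · cases d.2
        · exact Or.inl (Or.inl rfl)
        · exact Or.inr (Or.inl (by simp [aw]))
  · intro v e
    rcases hcase (v, true) with ⟨e1, a, q⟩ | q <;> rcases hcase (v, false) with ⟨e2, c, q'⟩ | q'
    · simp only [dl, Prod.mk.injEq] at a c
      have := hinj (a.1.trans c.1.symm)
      rw [this, c.2] at a
      simp at a
    · rw [q, q'] at e
      simp only [dl, Prod.mk.injEq] at a
      exact hch e1 _ (by rw [a.1]; exact e)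
    · rw [q, q'] at e
      simp only [dl, Prod.mk.injEq] at c
      exact hch e2 _ (by rw [c.1]; exact e.symm)
    · have hp := congrArg C.pos e
      rw [q, q', pos_aw hs, pos_aw hs] at hp
      simp only [sg, Bool.not_false, Bool.not_true, if_true, Bool.false_eq_true, if_false] at hp
      exact z2 (by linear_combination -hp)

open Classical in
/-- good pairings for a placement -/
noncomputable def GoodP (C : Cov h κ V W n) (b : Bits R T) (dt : End R T k → κ × Bool)
    (lb : End R T k → ℕ × Bool) (t : Cut R T k → V) : Finset (End R T k → End R T k) :=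
  (TP lb (XX b)).filter (fun p => Acyc (XX b) kap p ∧
    ∀ m, Rl C t dt (PP b p) m → (Gr C m).IsHamiltonian)

lemma mem_GoodP {C : Cov h κ V W n} {b : Bits R T} {dt : End R T k → κ × Bool}
    {lb : End R T k → ℕ × Bool} {t : Cut R T k → V} {p : End R T k → End R T k} :
    p ∈ GoodP C b dt lb t ↔ IsTP lb (XX b) p ∧ Acyc (XX b) kap p ∧
      ∀ m, Rl C t dt (PP b p) m → (Gr C m).IsHamiltonian := by
  simp only [GoodP, mem_filter, mem_TP]

lemma Typed.isTP {bs : κ × Bool → ZMod h} {α : Bool → κ × Bool} {cB : Bool} {N E : ℕ}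
    {F : Finset (Fin R)} {g₀ : Fin R → Fin k} {b : Bits R T} {τ : Cut R T k → ZMod h}
    {dt : End R T k → κ × Bool} {lb : End R T k → ℕ × Bool}
    (hτ : Typed bs α cB N E F g₀ b τ dt lb) {p : End R T k → End R T k} (hp : IsTP lb (XX b) p) :
    IsTP dt (XX b) p :=
  ⟨hp.1, fun d hd => ⟨(hp.2 d hd).1, (hp.2 d hd).2.1,
    hτ.lbd d hd _ (hp.2 d hd).1 (hp.2 d hd).2.2⟩⟩

theorem card_GoodP {C : Cov h κ V W n} [Nonempty V] {t : Cut R T k → V} (hsep : Sep C.s t)
    (hsp : ∀ W : Finset V, W.Nonempty → (∀ v ∈ W, C.s v ∈ W) → ∃ r, t (Sum.inl r) ∈ W)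
    {α : Bool → κ × Bool} {cB : Bool} {N E : ℕ} {F : Finset (Fin R)} {g₀ : Fin R → Fin k}
    {b : Bits R T} {τ : Cut R T k → ZMod h} {dt : End R T k → κ × Bool}
    {lb : End R T k → ℕ × Bool} (hτ : Typed C.bs α cB N E F g₀ b τ dt lb) (hN : 0 < N)
    (hE : 1 ≤ E) (hpos : ∀ j, C.pos (t j) = τ j)
    (h1 : ∀ i t', ∃ g c, First C.s t (ye b i t') (gn g c))
    (h2 : ∀ r ∈ F, First C.s t (xo b (r, cB) (Fin.last T)) (gn (g₀ r) (b (r, cB) (Fin.last T)))) :
    (E - 2).factorial ^ N ≤ (GoodP C b dt lb t).card := by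
  obtain ⟨sX, a1, a2, a3, a4⟩ := exists_sX C.hs hsep hsp b lb h1
  obtain ⟨j, rfl⟩ : ∃ j, N = j + 1 := ⟨N - 1, by omega⟩
  refine le_trans (multi_phase lb (j + 1) E hE j 0 (by omega) (XX b) sX kap a1 a2 (kap_inv b)
    (fun _ _ => Nat.zero_le _) ⟨hτ.lt, fun c _ => hτ.count c, fun c _ hc => ?_,
      fun c _ => hτ.kl c⟩) (card_le_card ?_)
  · obtain ⟨r, hr, q1, q2⟩ := hτ.sl c hc
    refine ⟨_, gn_mem b _ _, q1, ?_⟩
    rwa [a3 _ (xo_last_mem b _) _ (gn_mem b _ _) (h2 r hr) (by simp [xo, gn])]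
  · intro p hp
    rw [mem_GP] at hp
    rw [mem_GoodP]
    refine ⟨hp.1, hp.2.2, fun m hr => ?_⟩
    exact ham_of_conn hsep (Ov.of_pos hpos hτ.base) (PP_isTP (hτ.isTP hp.1) hτ.chn) hr
      (a4 p hp.1 hp.2.1)

end Pool.Agent.MP_755159_pr.G
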