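import Pool.Agent.MP_755159_pr.G.Params

/-! Transfer to random lifts of a Hamiltonian graph of minimum degree at least three. -/

set_option linter.unusedSectionVars false

namespace Pool.Agent.MP_755159_pr.G

open Finset Filter Topology

variable {h n : ℕ}

/-- edges of the base graph -/
abbrev Ed (H : SimpleGraph (Fin h)) := {p : Fin h × Fin h // p.1 < p.2 ∧ H.Adj p.1 p.2}

variable {H : SimpleGraph (Fin h)} [DecidableRel H.Adj]

/-- the lift -/
def Lf (σ : Ed H → Equiv.Perm (Fin n)) : SimpleGraph (Fin h × Fin n) :=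
  SimpleGraph.fromRel (fun u v => ∃ hp : u.1 < v.1 ∧ H.Adj u.1 v.1, σ ⟨(u.1, v.1), hp⟩ u.2 = v.2)

/-- transport along an oriented edge -/
def tr (σ : Ed H → Equiv.Perm (Fin n)) (u w : Fin h) : Equiv.Perm (Fin n) :=
  if hp : u < w ∧ H.Adj u w then σ ⟨(u, w), hp⟩
  else if hp : w < u ∧ H.Adj w u then (σ ⟨(w, u), hp⟩)⁻¹ else 1

lemma Lf_adj (σ : Ed H → Equiv.Perm (Fin n)) {u w : Fin h} (huw : H.Adj u w) (x : Fin n) :
    (Lf σ).Adj (u, x) (w, tr σ u w x) := by
  rw [Lf, SimpleGraph.fromRel_adj]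
  refine ⟨fun e => huw.ne (congrArg Prod.fst e), ?_⟩
  by_cases hp : u < w ∧ H.Adj u w
  · exact Or.inl ⟨hp, by simp [tr, dif_pos hp]⟩
  · have hq : w < u ∧ H.Adj w u :=
      ⟨lt_of_le_of_ne (not_lt.mp fun q => hp ⟨q, huw⟩) huw.ne', huw.symm⟩
    exact Or.inr ⟨hq, by simp [tr, dif_neg hp, dif_pos hq]⟩

lemma tr_congr {σ σ' : Ed H → Equiv.Perm (Fin n)} {u w : Fin h}
    (he : ∀ e : Ed H, e.1 = (u, w) ∨ e.1 = (w, u) → σ e = σ' e) : tr σ u w = tr σ' u w := by
  unfold tr
  split_ifs with a b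
  · exact he _ (Or.inl rfl)
  · rw [he _ (Or.inr rfl)]
  · rfl

lemma tr_inj {u w : Fin h} (huw : H.Adj u w) : ∃ e : Ed H, (e.1 = (u, w) ∨ e.1 = (w, u)) ∧
    ∀ σ σ' : Ed H → Equiv.Perm (Fin n), tr σ u w = tr σ' u w → σ e = σ' e := by
  by_cases hp : u < w ∧ H.Adj u w
  · exact ⟨⟨(u, w), hp⟩, Or.inl rfl, fun σ σ' q => by simpa [tr, dif_pos hp] using q⟩
  · have hq : w < u ∧ H.Adj w u :=
      ⟨lt_of_le_of_ne (not_lt.mp fun q => hp ⟨q, huw⟩) huw.ne', huw.symm⟩
    exact ⟨⟨(w, u), hq⟩, Or.inr rfl, fun σ σ' q => by simpa [tr, dif_neg hp, dif_pos hq] using q⟩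

variable [Fact (2 < h)] (ν : ZMod h ≃ Fin h)

/-- edges of the Hamilton cycle -/
def IsC (e : Ed H) : Prop :=
  ν.symm e.1.2 = ν.symm e.1.1 + 1 ∨ ν.symm e.1.1 = ν.symm e.1.2 + 1

instance : DecidablePred (IsC (H := H) ν) := fun e => by unfold IsC; infer_instance

/-- chords -/
abbrev Ch (H : SimpleGraph (Fin h)) (ν : ZMod h ≃ Fin h) := {e : Ed H // ¬ IsC ν e}

/-- base point of a half-edge -/
def en (d : Ch H ν × Bool) : Fin h := if d.2 then d.1.1.1.1 else d.1.1.1.2

/-- the lift of the Hamilton cycle -/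
def sOf (σ : Ed H → Equiv.Perm (Fin n)) : Equiv.Perm (Fin h × Fin n) :=
  (Equiv.prodCongrRight (fun u => tr σ u (ν (ν.symm u + 1)))).trans
    (Equiv.prodCongr (ν.symm.trans ((Equiv.addRight 1).trans ν)) (Equiv.refl _))

lemma sOf_apply (σ : Ed H → Equiv.Perm (Fin n)) (u : Fin h) (x : Fin n) :
    sOf ν σ (u, x) = (ν (ν.symm u + 1), tr σ u (ν (ν.symm u + 1)) x) := rfl

/-- the lift of the chords -/
def mOf (u : Ch H ν → Equiv.Perm (Fin n)) (w : (Ch H ν × Bool) × Fin n) :
    (Ch H ν × Bool) × Fin n := (op w.1, if w.1.2 then u w.1.1 w.2 else (u w.1.1)⁻¹ w.2)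

lemma cnt_fst {A Q : Type} [Fintype A] [DecidableEq A] [DecidableEq Q] (f : A ≃ Q) (q : Q) :
    cnt (fun v : A × Fin n => f v.1) univ q = n := by
  rw [cnt, card_filter, Fintype.sum_prod_type]
  simp [← Equiv.eq_symm_apply]

/-- the covering data of a lift -/
def cov (σ : Ed H → Equiv.Perm (Fin n)) :
    Cov h (Ch H ν) (Fin h × Fin n) ((Ch H ν × Bool) × Fin n) n where
  pos v := ν.symm v.1
  s := sOf ν σ
  bs d := ν.symm (en ν d)
  tw := Prod.fst
  lf v d := (d, v.2)
  pr w := (en ν w.1, w.2)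
  hs := by rintro ⟨u, x⟩; simp [sOf_apply]
  nV := cnt_fst ν.symm
  nW := cnt_fst (Equiv.refl _)
  tw_lf _ _ := rfl
  pr_lf v d q := Prod.ext (ν.symm.injective q).symm rfl
  b0 := by
    rintro ⟨e, c⟩ q
    have := ν.symm.injective q
    have lt := e.1.2.1
    cases c <;> simp only [en, op, Bool.not_false, Bool.not_true, if_true, Bool.false_eq_true,
      if_false] at this
    · exact lt.ne this
    · exact lt.ne' this
  b1 := by
    rintro ⟨e, c⟩ q
    apply e.2
    cases c <;> simp only [en, op, Bool.not_false, Bool.not_true, if_true, Bool.false_eq_true,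
      if_false] at q
    · exact Or.inr q
    · exact Or.inl q

variable {ν}

lemma Gr_le (hν : ∀ q, H.Adj (ν q) (ν (q + 1))) {σ σ' : Ed H → Equiv.Perm (Fin n)}
    (h1 : sOf ν σ' = sOf ν σ) {u : Ch H ν → Equiv.Perm (Fin n)} (h2 : ∀ e, σ' e.1 = u e) :
    Gr (cov ν σ) (mOf ν u) ≤ Lf σ' := by
  have key : ∀ a b : Fin h × Fin n, a ≠ b → (b = (cov ν σ).s a ∨
      ∃ w, (cov ν σ).pr w = a ∧ (cov ν σ).pr (mOf ν u w) = b) → (Lf σ').Adj a b := by
    rintro ⟨q, x⟩ b hne (rfl | ⟨⟨⟨e, c⟩, y⟩, e1, rfl⟩)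
    · change (Lf σ').Adj (q, x) (sOf ν σ (q, x))
      rw [← h1, sOf_apply]
      apply Lf_adj
      simpa using hν (ν.symm q)
    · rw [Lf, SimpleGraph.fromRel_adj]
      refine ⟨hne, ?_⟩
      rw [← e1]
      cases c
      · exact Or.inr ⟨e.1.2, by
          change σ' e.1 ((u e)⁻¹ y) = y
          rw [h2]; simp⟩
      · exact Or.inl ⟨e.1.2, by
          change σ' e.1 y = u e y
          rw [h2]⟩
  intro a b hab
  rw [Gr, SimpleGraph.fromRel_adj] at hab
  rcases hab.2 with q | q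
  · exact key a b hab.1 q
  · exact (key b a hab.1.symm q).symm

lemma mOf_isTP (u : Ch H ν → Equiv.Perm (Fin n)) : IsTP Prod.fst univ (mOf ν u) := by
  refine ⟨by simp, ?_⟩
  rintro ⟨⟨e, c⟩, x⟩ _
  refine ⟨mem_univ _, ?_, rfl⟩
  cases c <;> simp [mOf]

lemma mOf_inj : Function.Injective (mOf (H := H) (n := n) ν) := by
  intro u v q
  funext e
  refine Equiv.ext fun x => ?_
  exact congrArg Prod.snd (congrFun q ((e, true), x))

lemma bs_surj (hd : ∀ v, 3 ≤ H.degree v) (q : ZMod h) :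
    ∃ d : Ch H ν × Bool, ν.symm (en ν d) = q := by
  obtain ⟨w, hw, hw'⟩ := exists_mem_notMem_of_card_lt_card
    (s := {ν (q + 1), ν (q - 1)}) (t := H.neighborFinset (ν q))
    (lt_of_le_of_lt card_le_two (hd (ν q)))
  rw [SimpleGraph.mem_neighborFinset] at hw
  simp only [mem_insert, mem_singleton, not_or] at hw'
  have n1 : ν.symm w ≠ q + 1 := fun e => hw'.1 (by rw [← e]; simp)
  have n2 : q ≠ ν.symm w + 1 := fun e => hw'.2 (by rw [e]; simp)
  rcases lt_or_gt_of_ne hw.ne with lt | lt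
  · exact ⟨(⟨⟨(ν q, w), lt, hw⟩, by simp [IsC, n1, n2]⟩, true), by simp [en]⟩
  · exact ⟨(⟨⟨(w, ν q), lt, hw.symm⟩, by simp [IsC, n1, n2]⟩, false), by simp [en]⟩

variable (ν) in
/-- transport along the Hamilton cycle -/
def psi (σ : Ed H → Equiv.Perm (Fin n)) : ℕ → Equiv.Perm (Fin n)
  | 0 => 1
  | j + 1 => tr σ (ν j) (ν (j + 1)) * psi σ j

lemma sOf_pow (σ : Ed H → Equiv.Perm (Fin n)) (x : Fin n) (j : ℕ) :
    (sOf ν σ ^ j) (ν 0, x) = (ν j, psi ν σ j x) := by
  induction j with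
  | zero => simp [psi]
  | succ j ih => rw [pow_succ', Equiv.Perm.mul_apply, ih, sOf_apply]; simp [psi]

lemma pos_pow (σ : Ed H → Equiv.Perm (Fin n)) (v : Fin h × Fin n) (j : ℕ) :
    ν.symm ((sOf ν σ ^ j) v).1 = ν.symm v.1 + j := by
  induction j with
  | zero => simp
  | succ j ih =>
    rw [pow_succ', Equiv.Perm.mul_apply]
    have := (cov ν σ).hs ((sOf ν σ ^ j) v)
    simp only [cov] at this
    rw [this, ih]; push_cast; ring

lemma exists_sp {a : ℕ} (ha : a ≤ n) {σ : Ed H → Equiv.Perm (Fin n)}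
    (hh : HasHit a (psi ν σ h)) (q₀ : ZMod h) :
    ∃ sp : Fin a → Fin h × Fin n, (∀ r, ν.symm (sp r).1 = q₀) ∧ Function.Injective sp ∧
      ∀ W : Finset (Fin h × Fin n), W.Nonempty → (∀ v ∈ W, sOf ν σ v ∈ W) → ∃ r, sp r ∈ W := by
  have : NeZero h := ⟨by have := Fact.out (p := 2 < h); omega⟩
  obtain ⟨S, hS, hW⟩ := hh
  obtain ⟨S', hsub, hc⟩ := exists_superset_card_eq hS (by simpa using ha)
  refine ⟨fun r => (sOf ν σ ^ q₀.val) (ν 0, S'.orderEmbOfFin hc r), fun _ => ?_, fun r r' e =>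
    (S'.orderEmbOfFin hc).injective (congrArg Prod.snd ((sOf ν σ ^ q₀.val).injective e)), ?_⟩
  · rw [pos_pow]; simp
  rintro W ⟨v, hv⟩ hcl
  have hpow : ∀ j, ∀ v ∈ W, (sOf ν σ ^ j) v ∈ W := by
    intro j v hv
    induction j with
    | zero => exact hv
    | succ j ih => rw [pow_succ', Equiv.Perm.mul_apply]; exact hcl _ ih
  obtain ⟨y, hy, hy'⟩ := hW (univ.filter (fun y => (ν 0, y) ∈ W)) (by
      refine ⟨((sOf ν σ ^ (-ν.symm v.1).val) v).2, mem_filter.mpr ⟨mem_univ _, ?_⟩⟩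
      have e := pos_pow (ν := ν) σ v (-ν.symm v.1).val
      rw [ZMod.natCast_zmod_val, add_neg_cancel, Equiv.symm_apply_eq] at e
      rw [← e]
      exact hpow _ v hv) (by
      intro y hy
      rw [mem_filter] at hy ⊢
      have := hpow h _ hy.2
      rw [sOf_pow, ZMod.natCast_self] at this
      exact ⟨mem_univ _, this⟩)
  have : y ∈ Set.range (S'.orderEmbOfFin hc) := by
    rw [range_orderEmbOfFin]; exact hsub hy
  obtain ⟨r, rfl⟩ := this
  exact ⟨r, hpow _ _ (mem_filter.mp hy').2⟩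

open Classical in
lemma bad1_le (hν : ∀ q, H.Adj (ν q) (ν (q + 1))) (a : ℕ) :
    (univ.filter (fun σ : Ed H → Equiv.Perm (Fin n) => ¬ HasHit a (psi ν σ h))).card *
      n.factorial ≤ Fintype.card (Ed H → Equiv.Perm (Fin n)) *
        (univ.filter (fun φ : Equiv.Perm (Fin n) => ¬ HasHit a φ)).card := by
  have hh : 2 < h := Fact.out
  obtain ⟨e₀, he, he'⟩ := tr_inj (n := n) (hν 0)
  have hρ : ∀ σ : Ed H → Equiv.Perm (Fin n), ∀ j < h, ∃ ρ, ∀ x,
      psi ν (Function.update σ e₀ x) (j + 1) =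
        ρ * tr (Function.update σ e₀ x) (ν 0) (ν (0 + 1)) := by
    intro σ j hj
    induction j with
    | zero => exact ⟨1, fun x => by simp [psi]⟩
    | succ j ih =>
      obtain ⟨ρ, hρ⟩ := ih (by omega)
      refine ⟨tr σ (ν (j + 1 : ℕ)) (ν ((j + 1 : ℕ) + 1)) * ρ, fun x => ?_⟩
      rw [psi, hρ, mul_assoc]
      congr 1
      apply tr_congr
      intro e q
      apply Function.update_of_ne
      rintro rfl
      have n0 : ((j + 1 : ℕ) : ZMod h) ≠ 0 := by
        rw [Ne, ZMod.natCast_eq_zero_iff]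
        exact Nat.not_dvd_of_pos_of_lt (by omega) hj
      rcases he with a | a <;> rcases q with q | q <;> rw [a] at q <;>
        simp only [Prod.mk.injEq, EmbeddingLike.apply_eq_iff_eq] at q
      · exact n0 q.1.symm
      · exact z2 (by linear_combination q.2 - q.1)
      · exact z2 (by linear_combination q.1 - q.2)
      · exact n0 q.2.symm
  have b1 := resample_pi (fun _ : Ed H => (univ : Finset (Equiv.Perm (Fin n)))) e₀
    (univ.filter (fun σ => ¬ HasHit a (psi ν σ h))) (by simp)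
    (univ.filter (fun φ : Equiv.Perm (Fin n) => ¬ HasHit a φ)).card (by
      intro σ _
      apply card_le_card_of_injOn (fun x => psi ν (Function.update σ e₀ x) h)
      · intro x hx
        simpa using hx
      · intro x _ y _ e
        obtain ⟨ρ, hρ⟩ := hρ σ (h - 1) (by omega)
        rw [show h - 1 + 1 = h by omega] at hρ
        simp only [hρ] at e
        simpa using he' _ _ (mul_left_cancel e))
  simpa only [Fintype.piFinset_univ, card_univ, Fintype.card_perm, Fintype.card_fin] using b1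

open Classical in
lemma bad2_le (hν : ∀ q, H.Adj (ν q) (ν (q + 1))) {N : ℕ} {α₀ : Bool → Ch H ν × Bool} {cB : Bool}
    (hW : Walks (fun d => ν.symm (en ν d)) N α₀ cB) {a : ℕ} (ha : 200 ≤ a) (hh : h ≤ a)
    (hN : 100 * N + 100 ≤ a) (h1 : a ^ (100 * N + 100) ≤ n) (h2 : n < (a + 1) ^ (100 * N + 100)) :
    (univ.filter (fun σ : Ed H → Equiv.Perm (Fin n) =>
        HasHit a (psi ν σ h) ∧ ¬ (Lf σ).IsHamiltonian)).card *
        n.factorial ^ Fintype.card (Ch H ν) ≤ Fintype.card (Ed H → Equiv.Perm (Fin n)) *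
        ⌊4 * (1 / a : ℝ) * (n.factorial ^ Fintype.card (Ch H ν) : ℕ)⌋₊ := by
  obtain ⟨upd, hupd⟩ : ∃ upd : (Ed H → Equiv.Perm (Fin n)) → (Ch H ν → Equiv.Perm (Fin n)) →
    Ed H → Equiv.Perm (Fin n), upd = fun σ u e => if he : IsC ν e then σ e else u ⟨e, he⟩ :=
    ⟨_, rfl⟩
  have htr : ∀ σ u q, tr (upd σ u) (ν q) (ν (q + 1)) = tr σ (ν q) (ν (q + 1)) := by
    intro σ u q
    apply tr_congr
    intro e he
    have : IsC ν e := by
      rcases he with he | he <;> simp [IsC, he]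
    simp only [hupd, dif_pos this]
  have hs : ∀ σ u, sOf ν (upd σ u) = sOf ν σ := by
    intro σ u
    refine Equiv.ext ?_
    rintro ⟨v, x⟩
    have := htr σ u (ν.symm v)
    rw [Equiv.apply_symm_apply] at this
    rw [sOf_apply, sOf_apply, this]
  have hpsi : ∀ σ u j, psi ν (upd σ u) j = psi ν σ j := by
    intro σ u j
    induction j with
    | zero => rfl
    | succ j ih => rw [psi, psi, ih, htr]
  have b2 := resample (univ : Finset (Ed H → Equiv.Perm (Fin n))) univ
    (fun σ (e : Ch H ν) => σ e.1) upd (by simp) (by simp)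
    (by
      intro σ u
      funext e
      by_cases c : IsC ν e <;> simp [hupd, c])
    (by
      intro σ u
      funext e
      simp only [hupd, dif_neg e.2])
    (univ.filter (fun σ => HasHit a (psi ν σ h) ∧ ¬ (Lf σ).IsHamiltonian)) (subset_univ _)
    ⌊4 * (1 / a : ℝ) * (n.factorial ^ Fintype.card (Ch H ν) : ℕ)⌋₊ (by
      intro σ _
      by_cases hh' : HasHit a (psi ν σ h)
      · obtain ⟨sp, s1, s2, s3⟩ := exists_sp
          ((Nat.le_self_pow (by omega) a).trans h1) hh' (ν.symm (en ν (α₀ false)))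
        apply Nat.le_floor
        refine le_trans ?_ (few_bad (C := cov ν σ) hW s1 s2 s3 ha hh hN h1 h2 ?_)
        · rw [Nat.cast_le]
          apply card_le_card_of_injOn (mOf ν) _ mOf_inj.injOn
          intro u hu
          simp only [coe_filter, mem_filter, mem_univ, true_and, Set.mem_ofPred_eq] at hu
          refine mem_coe.mpr (mem_Ext.mpr ⟨mOf_isTP u, fun hH => hu.2 ?_⟩)
          exact SimpleGraph.IsHamiltonian.mono
            (Gr_le hν (hs σ u) (fun e => by simp only [hupd, dif_neg e.2])) hH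
        · refine (card_TP_le _ univ _ univ rfl (fun _ _ => mem_univ _)).trans (le_of_eq ?_)
          rw [prod_congr rfl (fun j _ => by rw [(cov ν σ).nW]), prod_const, card_univ]
      · rw [filter_eq_empty_iff.mpr, card_empty]
        · exact Nat.zero_le _
        · intro u _ hu
          apply hh'
          have := (mem_filter.mp hu).2.1
          rwa [hpsi] at this)
  simpa only [card_univ, Fintype.card_fun (α := Ch H ν), Fintype.card_perm, Fintype.card_fin]
    using b2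

lemma nonham_aux' {x x1 x2 N F P y : ℕ} {a u w : ℝ} (hF : 0 < F) (hP : 0 < P) (hu : 0 ≤ u)
    (hw : 0 < w) (b4 : x ≤ x2 + x1) (b1 : x1 * F ≤ N * y) (b2 : x2 * P ≤ N * ⌊u * P⌋₊)
    (b3 : (y : ℝ) * w ≤ a * F) : (x : ℝ) ≤ (u + a / w) * N := by
  have hF : (0 : ℝ) < F := by exact_mod_cast hF
  have hP : (0 : ℝ) < P := by exact_mod_cast hP
  rw [add_mul]
  have b4' : (x : ℝ) ≤ x2 + x1 := by exact_mod_cast b4
  refine le_trans b4' (add_le_add ?_ ?_)
  · apply le_of_mul_le_mul_right _ hP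
    have b2' : (x2 : ℝ) * P ≤ N * ⌊u * P⌋₊ := by exact_mod_cast b2
    refine le_trans b2' ?_
    rw [mul_right_comm, mul_comm]
    apply mul_le_mul_of_nonneg_right _ (by positivity)
    exact Nat.floor_le (by positivity)
  · apply le_of_mul_le_mul_right _ hF
    have b1' : (x1 : ℝ) * F ≤ N * y := by exact_mod_cast b1
    refine le_trans b1' ?_
    rw [mul_right_comm, mul_comm]
    apply mul_le_mul_of_nonneg_right _ (by positivity)
    rwa [div_mul_eq_mul_div, le_div_iff₀ hw]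

open Classical in
theorem nonham_le (hν : ∀ q, H.Adj (ν q) (ν (q + 1))) {N : ℕ} {α₀ : Bool → Ch H ν × Bool}
    {cB : Bool} (hW : Walks (fun d => ν.symm (en ν d)) N α₀ cB) {a : ℕ} (ha : 200 ≤ a)
    (hh : h ≤ a) (hN : 100 * N + 100 ≤ a) (h1 : a ^ (100 * N + 100) ≤ n)
    (h2 : n < (a + 1) ^ (100 * N + 100)) :
    ((univ.filter (fun σ : Ed H → Equiv.Perm (Fin n) => ¬ (Lf σ).IsHamiltonian)).card : ℝ) ≤
      (4 * (1 / a) + (a + 1) ^ (100 * N + 100) / 2 ^ a) *
        Fintype.card (Ed H → Equiv.Perm (Fin n)) := by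
  refine nonham_aux' (Nat.factorial_pos n) (pow_pos (Nat.factorial_pos n) _) (by positivity)
    (by positivity) ?_ (bad1_le hν a) (bad2_le hν hW ha hh hN h1 h2) ?_
  · exact filter_split (fun σ => ¬ (Lf σ).IsHamiltonian) (fun σ => HasHit a (psi ν σ h))
  · exact_mod_cast (card_noHit n a).trans (Nat.mul_le_mul_right _ h2)

lemma exists_nu (hH : H.IsHamiltonian) : ∃ ν : ZMod h ≃ Fin h, ∀ q, H.Adj (ν q) (ν (q + 1)) := by
  have hh : 2 < h := Fact.out
  have : NeZero h := ⟨by omega⟩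
  have : Fact (1 < h) := ⟨by omega⟩
  obtain ⟨a, p, hp⟩ := hH (by rw [Fintype.card_fin]; omega)
  have hl : p.length = h := by rw [hp.length_eq, Fintype.card_fin]
  have hinj : Function.Injective (fun q : ZMod h => p.getVert q.val) := by
    intro q q' e
    have a1 := ZMod.val_lt q
    have a2 := ZMod.val_lt q'
    exact ZMod.val_injective h (hp.isCycle.getVert_injOn' (show q.val ≤ _ by omega)
      (show q'.val ≤ _ by omega) e)
  refine ⟨Equiv.ofBijective _ ((Fintype.bijective_iff_injective_and_card _).mpr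
    ⟨hinj, by simp⟩), fun q => ?_⟩
  have hend : p.getVert 0 = p.getVert h := by
    rw [p.getVert_zero, p.getVert_of_length_le hl.le]
  have a1 := ZMod.val_lt q
  have := p.adj_getVert_succ (i := q.val) (by omega)
  simp only [Equiv.ofBijective_apply]
  rw [ZMod.val_add, ZMod.val_one, mod_succ_eq p.getVert (by omega : 0 < h) hend,
    Nat.mod_eq_of_lt a1]
  exact this

theorem lift_ham (hH : H.IsHamiltonian) (hd : ∀ v, 3 ≤ H.degree v) : Tendsto (fun n : ℕ =>
    (({σ : Ed H → Equiv.Perm (Fin n) | (Lf σ).IsHamiltonian}.ncard : ℕ) : ℝ) /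
      Fintype.card (Ed H → Equiv.Perm (Fin n))) atTop (𝓝 1) := by
  classical
  obtain ⟨ν, hν⟩ := exists_nu hH
  obtain ⟨N, α₀, cB, pd, sd, hN, hw⟩ := exists_walks (bs := fun d : Ch H ν × Bool =>
    ν.symm (en ν d)) (bs_surj hd)
  have hW : Walks (fun d => ν.symm (en ν d)) N α₀ cB := ⟨hN, pd, sd, hw⟩
  obtain ⟨M, hM⟩ : ∃ M, M = 100 * N + 100 := ⟨_, rfl⟩
  have hroot : Tendsto (fun n : ℕ => Nat.nthRoot M n) atTop atTop := by
    rw [tendsto_atTop_atTop]
    intro b
    exact ⟨b ^ M, fun n hn => (Nat.le_nthRoot_iff (by omega)).mpr hn⟩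
  have hf : Tendsto (fun a : ℕ => 1 - (4 * (1 / (a : ℝ)) + (a + 1) ^ M / 2 ^ a)) atTop
      (𝓝 1) := by
    have t1 := tendsto_one_div_atTop_nhds_zero_nat (𝕜 := ℝ)
    have t2 := (tendsto_pow_const_div_const_pow_of_one_lt M (r := 2) (by norm_num)).comp
      (tendsto_add_atTop_nat 1)
    have t3 := (((t1.const_mul 4).add (t2.const_mul 2)).const_sub 1)
    simp only [mul_zero, add_zero, sub_zero] at t3
    refine t3.congr (fun a => ?_)
    simp only [Function.comp]
    push_cast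
    ring
  refine tendsto_of_tendsto_of_tendsto_of_le_of_le' (hf.comp hroot) tendsto_const_nhds ?_ ?_
  · filter_upwards [hroot.eventually_ge_atTop 200, hroot.eventually_ge_atTop h,
      hroot.eventually_ge_atTop M] with n hn hn' hn''
    have hc : (0 : ℝ) < Fintype.card (Ed H → Equiv.Perm (Fin n)) := by
      exact_mod_cast Fintype.card_pos
    have := nonham_le (n := n) hν hW hn hn' (hM ▸ hn'')
      (hM ▸ Nat.pow_nthRoot_le_iff.mpr (Or.inl (by omega)))
      (hM ▸ Nat.lt_pow_nthRoot_add_one (by omega) n)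
    rw [← hM] at this
    have h := card_filter_add_card_filter_not (s := univ)
      (fun σ : Ed H → Equiv.Perm (Fin n) => (Lf σ).IsHamiltonian)
    rw [card_univ] at h
    have h' : (((univ.filter
        (fun σ : Ed H → Equiv.Perm (Fin n) => (Lf σ).IsHamiltonian)).card : ℝ) +
        (univ.filter (fun σ : Ed H → Equiv.Perm (Fin n) => ¬ (Lf σ).IsHamiltonian)).card) =
        Fintype.card (Ed H → Equiv.Perm (Fin n)) := by exact_mod_cast h
    rw [Function.comp, le_div_iff₀ hc, Set.ncard_eq_toFinset_card', Set.toFinset_ofPred, sub_mul]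
    linarith
  · filter_upwards with n
    have hc : (0 : ℝ) < Fintype.card (Ed H → Equiv.Perm (Fin n)) := by
      exact_mod_cast Fintype.card_pos
    rw [div_le_one hc, Set.ncard_eq_toFinset_card', Nat.cast_le]
    exact card_le_univ _

end Pool.Agent.MP_755159_pr.G
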