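import Pool.Agent.Mg.F755159.G37dde7

/-! Typed pairings for an arbitrary number of classes. -/

set_option linter.unusedSectionVars false

namespace Pool.Agent.MP_755159_pr.G

open Finset

variable {D : Type} [Fintype D] [DecidableEq D] {κ : Type} [DecidableEq κ]

/-- the opposite type -/
def op (d : κ × Bool) : κ × Bool := (d.1, !d.2)

@[simp] lemma op_op (d : κ × Bool) : op (op d) = d := by simp [op]
@[simp] lemma op_fst (d : κ × Bool) : (op d).1 = d.1 := rfl
@[simp] lemma op_snd (d : κ × Bool) : (op d).2 = !d.2 := rfl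
@[simp] lemma op_mk (j : κ) (c : Bool) : op (j, c) = (j, !c) := rfl

lemma op_ne (d : κ × Bool) : op d ≠ d := by
  intro h
  have := congrArg Prod.snd h
  simp at this

/-- pairings of `X` joining each type with the opposite type -/
def IsTP (ty : D → κ × Bool) (X : Finset D) (p : D → D) : Prop :=
  (∀ d, d ∉ X → p d = d) ∧ ∀ d ∈ X, p d ∈ X ∧ p (p d) = d ∧ ty (p d) = op (ty d)

open Classical in
/-- the set of typed pairings -/
noncomputable def TP (ty : D → κ × Bool) (X : Finset D) : Finset (D → D) :=
  univ.filter (IsTP ty X)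

lemma mem_TP {ty : D → κ × Bool} {X : Finset D} {p : D → D} : p ∈ TP ty X ↔ IsTP ty X p := by
  simp only [TP, mem_filter, mem_univ, true_and]

/-- number of elements of a type -/
def cnt {Q : Type} [DecidableEq Q] (ty : D → Q) (X : Finset D) (q : Q) : ℕ :=
  (X.filter (fun d => ty d = q)).card

lemma cnt_rem {Q : Type} [DecidableEq Q] {ty : D → Q} {X : Finset D} {e e' : D} (he : e ∈ X)
    (he' : e' ∈ X) (h : e ≠ e') (q : Q) : cnt ty (rem X e e') q + ((if ty e = q then 1 else 0) +
      (if ty e' = q then 1 else 0)) = cnt ty X q := by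
  have h1 : e' ∈ X.erase e := mem_erase.mpr ⟨h.symm, he'⟩
  unfold cnt rem
  simp only [card_filter]
  rw [← add_sum_erase X _ he, ← add_sum_erase (X.erase e) _ h1]
  omega

lemma ne_of_ty {ty : D → κ × Bool} {e e' : D} (h : ty e' = op (ty e)) : e ≠ e' := by
  rintro rfl
  exact op_ne _ h.symm

lemma cnt_rem_same {ty : D → κ × Bool} {X : Finset D} {e e' : D} (he : e ∈ X) (he' : e' ∈ X)
    (h : ty e' = op (ty e)) (o : Bool) :
    cnt ty (rem X e e') ((ty e).1, o) + 1 = cnt ty X ((ty e).1, o) := by
  rw [← cnt_rem he he' (ne_of_ty h), h]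
  congr 1
  generalize ty e = q
  obtain ⟨j, c⟩ := q
  cases c <;> cases o <;> simp

lemma cnt_rem_other {ty : D → κ × Bool} {X : Finset D} {e e' : D} (he : e ∈ X) (he' : e' ∈ X)
    (h : ty e' = op (ty e)) {j : κ} (hj : (ty e).1 ≠ j) (o : Bool) :
    cnt ty (rem X e e') (j, o) = cnt ty X (j, o) := by
  rw [← cnt_rem he he' (ne_of_ty h), h, if_neg, if_neg]
  · rfl
  · intro e; exact hj (by rw [← op_fst, e])
  · intro e; exact hj (by rw [e])

lemma IsTP.ins {ty : D → κ × Bool} {X : Finset D} {e e' : D} (he : e ∈ X) (he' : e' ∈ X)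
    (h : ty e' = op (ty e)) {p : D → D} (hp : IsTP ty (rem X e e') p) :
    IsTP ty X (ins e e' p) := by
  have hne := ne_of_ty h
  constructor
  · intro d hd
    have h1 : d ≠ e := fun h => hd (h ▸ he)
    have h2 : d ≠ e' := fun h => hd (h ▸ he')
    simp only [MP_755159_pr.ins, h1, h2, if_false]
    exact hp.1 d (by simp [hd])
  · intro d hd
    by_cases h1 : d = e
    · subst h1; simp [MP_755159_pr.ins, he', hne.symm, h]
    · by_cases h2 : d = e'
      · subst h2; simp [MP_755159_pr.ins, he, h1, h]
      · obtain ⟨a, b, c⟩ := hp.2 d (by simp [hd, h1, h2])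
        rw [mem_rem] at a
        simp [MP_755159_pr.ins, h1, h2, a, b, c]

theorem card_TP_le (ty : D → κ × Bool) (J : Finset κ) (N : ℕ) : ∀ X : Finset D, X.card = N →
    (∀ x ∈ X, (ty x).1 ∈ J) → (TP ty X).card ≤ ∏ j ∈ J, (cnt ty X (j, true)).factorial := by
  induction N using Nat.strong_induction_on with
  | _ N ih =>
    intro X hX hJ
    have key : ∀ e ∈ X, (TP ty X).card ≤ ∑ e' ∈ X.filter (fun d => ty d = op (ty e)),
        ∏ j ∈ J, (cnt ty (rem X e e') (j, true)).factorial := by
      intro e he
      rw [card_eq_sum_card_fiberwise (f := fun p => p e)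
        (t := X.filter (fun d => ty d = op (ty e)))]
      · apply sum_le_sum
        intro e' he'
        rw [mem_filter] at he'
        have hne := ne_of_ty he'.2
        refine le_trans ?_ (ih _ (by have := card_rem he he'.1 hne; omega) (rem X e e') rfl
          (fun x hx => hJ x (mem_rem.mp hx).1))
        apply card_le_card_of_injOn (fun p d => if d = e ∨ d = e' then d else p d)
        · intro p hp
          simp only [coe_filter, Set.mem_ofPred_eq, mem_TP] at hp
          obtain ⟨hp, hpe⟩ := hp
          have hpe' : p e' = e := by rw [← hpe]; exact (hp.2 e he).2.1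
          simp only [mem_coe, mem_TP]
          constructor
          · intro d hd
            by_cases h : d = e ∨ d = e'
            · simp [h]
            · simp only [h, if_false]
              apply hp.1; intro hdX; apply hd; rw [mem_rem]; tauto
          · intro d hd
            rw [mem_rem] at hd
            obtain ⟨a, b, c⟩ := hp.2 d hd.1
            have h1 : p d ≠ e := fun h => hd.2.2 (by rw [← b, h, hpe])
            have h2 : p d ≠ e' := fun h => hd.2.1 (by rw [← b, h, hpe'])
            simp [hd.2.1, hd.2.2, h1, h2, a, b, c]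
        · intro p hp p' hp' h
          simp only [coe_filter, Set.mem_ofPred_eq, mem_TP] at hp hp'
          funext d
          by_cases h1 : d = e
          · rw [h1, hp.2, hp'.2]
          · by_cases h2 : d = e'
            · rw [h2]
              have a : p e' = e := by rw [← hp.2]; exact (hp.1.2 e he).2.1
              have b : p' e' = e := by rw [← hp'.2]; exact (hp'.1.2 e he).2.1
              rw [a, b]
            · simpa [h1, h2] using congrFun h d
      · intro p hp
        simp only [mem_coe, mem_TP] at hp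
        simp only [coe_filter, Set.mem_ofPred_eq]
        exact ⟨(hp.2 e he).1, (hp.2 e he).2.2⟩
    by_cases h0 : ∃ e ∈ X, (ty e).2 = false
    · obtain ⟨e, he, hty⟩ := h0
      refine (key e he).trans ?_
      have hj := hJ e he
      have hop : op (ty e) = ((ty e).1, true) := by simp [op, hty]
      rw [sum_congr rfl (g := fun _ => (cnt ty X ((ty e).1, true) - 1).factorial *
        ∏ j ∈ J.erase (ty e).1, (cnt ty X (j, true)).factorial)]
      · rw [sum_const, smul_eq_mul, ← mul_assoc, ← mul_prod_erase J _ hj]
        apply Nat.mul_le_mul_right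
        have : (X.filter (fun d => ty d = op (ty e))).card = cnt ty X ((ty e).1, true) := by
          rw [hop]; rfl
        rw [this]
        rcases Nat.eq_zero_or_pos (cnt ty X ((ty e).1, true)) with h | h
        · simp [h]
        · exact (Nat.mul_factorial_pred h.ne').le
      · intro e' he'
        rw [mem_filter] at he'
        rw [← mul_prod_erase J _ hj, ← cnt_rem_same he he'.1 he'.2 true, Nat.add_sub_cancel]
        congr 1
        apply prod_congr rfl
        intro j hj'
        rw [cnt_rem_other he he'.1 he'.2 (mem_erase.mp hj').1.symm]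
    · refine le_trans ?_ (prod_pos (fun _ _ => Nat.factorial_pos _))
      rw [card_le_one]
      have hid : ∀ p ∈ TP ty X, p = id := by
        intro p hp
        rw [mem_TP] at hp
        funext d
        apply hp.1
        intro hd
        obtain ⟨a, -, c⟩ := hp.2 d hd
        cases h : (ty d).2
        · exact h0 ⟨d, hd, h⟩
        · exact h0 ⟨_, a, by rw [c, op_snd, h]; rfl⟩
      intro p hp p' hp'
      rw [hid p hp, hid p' hp']

open Classical in
/-- good pairings -/
noncomputable def GP (ty : D → κ × Bool) (X : Finset D) (s k : D → D) : Finset (D → D) :=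
  (TP ty X).filter (fun p => Conn X s p ∧ Acyc X k p)

lemma mem_GP {ty : D → κ × Bool} {X : Finset D} {s k p : D → D} :
    p ∈ GP ty X s k ↔ IsTP ty X p ∧ Conn X s p ∧ Acyc X k p := by
  simp only [GP, mem_filter, mem_TP]

lemma ins_mem_GP {ty : D → κ × Bool} {X : Finset D} {s k p : D → D} (hs : Inv X s)
    (hs' : ∀ x ∈ X, s x ≠ x) (hk : Inv X k) {e e' : D} (he : e ∈ X) (he' : e' ∈ X)
    (h : ty e' = op (ty e)) (h1 : s e ≠ e') (h2 : k e ≠ e')
    (hp : p ∈ GP ty (rem X e e') (ctr s e e') (ctr k e e')) : ins e e' p ∈ GP ty X s k := by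
  rw [mem_GP] at hp ⊢
  obtain ⟨hp, hc, ha⟩ := hp
  have hne := ne_of_ty h
  have hee : ∀ U : Finset D, (∀ x ∈ U, ins e e' p x ∈ U) → (e ∈ U ↔ e' ∈ U) := by
    intro U hU
    constructor
    · intro h; simpa [ins] using hU e h
    · intro h; simpa [ins, hne.symm] using hU e' h
  have hpc : ∀ U ⊆ X, (∀ x ∈ U, ins e e' p x ∈ U) → ∀ x ∈ rem U e e', p x ∈ rem U e e' := by
    intro U hUX hU x hx
    rw [mem_rem] at hx
    have a := hU x hx.1
    simp only [ins, hx.2.1, hx.2.2, if_false] at a
    have b := (hp.2 x (mem_rem.mpr ⟨hUX hx.1, hx.2⟩)).1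
    rw [mem_rem] at b ⊢
    exact ⟨a, b.2⟩
  have hsub : ∀ U ⊆ X, rem U e e' ⊆ rem X e e' := by
    intro U hUX x hx
    rw [mem_rem] at hx ⊢
    exact ⟨hUX hx.1, hx.2⟩
  refine ⟨hp.ins he he' h, ?_, ?_⟩
  · intro U hUX hne' hsU hpU
    have hiff := hee U hpU
    have hse : s e ∈ rem X e e' := mem_rem.mpr ⟨(hs e he).1, hs' e he, h1⟩
    have hU' : (rem U e e').Nonempty := by
      obtain ⟨x, hx⟩ := hne'
      by_cases hxe : x = e ∨ x = e'
      · have heU : e ∈ U := by
          rcases hxe with rfl | rfl
          · exact hx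
          · exact hiff.mpr hx
        exact ⟨s e, mem_rem.mpr ⟨hsU e heU, (mem_rem.mp hse).2⟩⟩
      · exact ⟨x, mem_rem.mpr ⟨hx, by tauto⟩⟩
    have hall := hc _ (hsub U hUX) hU' (ctr_closed hs he he' h1 hUX hsU hiff) (hpc U hUX hpU)
    have heU : e ∈ U := by
      have := hsU _ (mem_rem.mp (hall hse)).1
      rwa [(hs e he).2] at this
    intro x hx
    by_cases hxe : x = e
    · exact hxe ▸ heU
    · by_cases hxe' : x = e'
      · exact hxe' ▸ hiff.mp heU
      · exact (mem_rem.mp (hall (mem_rem.mpr ⟨hx, hxe, hxe'⟩))).1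
  · intro U hUX hne' hkU hpU
    have hiff := hee U hpU
    by_cases hU' : (rem U e e').Nonempty
    · obtain ⟨x, hx, hfix⟩ := ha _ (hsub U hUX) hU' (ctr_closed hk he he' h2 hUX hkU hiff)
        (hpc U hUX hpU)
      rw [mem_rem] at hx
      have a := hkU x hx.1
      obtain ⟨a1, a2⟩ := hk x (hUX hx.1)
      obtain ⟨b1, b2⟩ := hk e he
      obtain ⟨c1, c2⟩ := hk e' he'
      simp only [ctr] at hfix
      by_cases q1 : k x = e
      · refine ⟨e', hiff.mp (q1 ▸ a), ?_⟩
        grind
      · by_cases q2 : k x = e'
        · refine ⟨e, hiff.mpr (q2 ▸ a), ?_⟩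
          grind
        · refine ⟨x, hx.1, ?_⟩
          grind
    · obtain ⟨x, hx⟩ := hne'
      have heU : e ∈ U := by
        by_contra hcon
        apply hU'
        exact ⟨x, mem_rem.mpr ⟨hx, fun h => hcon (h ▸ hx), fun h => hcon (hiff.mpr (h ▸ hx))⟩⟩
      refine ⟨e, heU, ?_⟩
      by_contra hcon
      exact hU' ⟨k e, mem_rem.mpr ⟨hkU e heU, hcon, h2⟩⟩

lemma GP_step {ty : D → κ × Bool} {X : Finset D} {s k : D → D} (hs : Inv X s)
    (hs' : ∀ x ∈ X, s x ≠ x) (hk : Inv X k) {e : D} (he : e ∈ X) (Ch : Finset D) (N : ℕ)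
    (hCh : ∀ e' ∈ Ch, e' ∈ X ∧ ty e' = op (ty e) ∧ s e ≠ e' ∧ k e ≠ e' ∧
      N ≤ (GP ty (rem X e e') (ctr s e e') (ctr k e e')).card) :
    Ch.card * N ≤ (GP ty X s k).card := by
  calc Ch.card * N = ∑ _e' ∈ Ch, N := by rw [sum_const, smul_eq_mul]
    _ ≤ ∑ e' ∈ Ch, ((GP ty X s k).filter (fun p => p e = e')).card := by
        apply sum_le_sum
        intro e' he'
        obtain ⟨a, b, c, d, f⟩ := hCh e' he'
        refine f.trans (card_le_card_of_injOn (ins e e') ?_ ?_)
        · intro p hp
          simp only [coe_filter, Set.mem_ofPred_eq]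
          exact ⟨ins_mem_GP hs hs' hk he a b c d hp, by simp [ins]⟩
        · intro p hp p' hp' h
          simp only [mem_coe, mem_GP] at hp hp'
          funext x
          by_cases hx : x = e ∨ x = e'
          · rw [hp.1.1 x (by rw [mem_rem]; tauto), hp'.1.1 x (by rw [mem_rem]; tauto)]
          · push Not at hx
            simpa [ins, hx.1, hx.2] using congrFun h x
    _ ≤ _ := by
        rw [← card_biUnion]
        · apply card_le_card
          intro p hp
          obtain ⟨e', -, h⟩ := mem_biUnion.mp hp
          exact (mem_filter.mp h).1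
        · intro a _ b _ hab
          simp only [Function.onFun, disjoint_filter]
          intro p _ h1 h2
          exact hab (h1.symm.trans h2)

lemma ty_cases {ty : D → κ × Bool} {i : κ} {x : D} (h : (ty x).1 = i) :
    ty x = (i, true) ∨ ty x = (i, false) := by
  rw [← h]
  generalize ty x = q
  obtain ⟨j, c⟩ := q
  cases c <;> simp

lemma card_opp {ty : D → κ × Bool} {i : κ} {X : Finset D} {E : ℕ} (h1 : cnt ty X (i, true) = E)
    (h2 : cnt ty X (i, false) = E) {e : D} (he : (ty e).1 = i) :
    (X.filter (fun d => ty d = op (ty e))).card = E := by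
  rcases ty_cases he with h | h <;> rw [h]
  · exact h2
  · exact h1

lemma card_cls {ty : D → κ × Bool} {i : κ} {X : Finset D} {E : ℕ} (h1 : cnt ty X (i, true) = E)
    (h2 : cnt ty X (i, false) = E) {Y : Finset D} (hY : ∀ y ∈ Y, y ∈ X ∧ (ty y).1 = i) :
    Y.card ≤ 2 * E := by
  have hsub : Y ⊆ X.filter (fun d => ty d = (i, true)) ∪ X.filter (fun d => ty d = (i, false)) := by
    intro y hy
    rw [← filter_or, mem_filter]
    exact ⟨(hY y hy).1, ty_cases (hY y hy).2⟩
  have a := (card_le_card hsub).trans (card_union_le _ _)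
  have b1 : (X.filter (fun d => ty d = (i, true))).card = E := h1
  have b2 : (X.filter (fun d => ty d = (i, false))).card = E := h2
  omega

theorem last_phase (ty : D → κ × Bool) (i : κ) (E : ℕ) : ∀ (X : Finset D) (s k : D → D),
    Inv X s → (∀ x ∈ X, s x ≠ x) → Inv X k → (∀ x ∈ X, (ty x).1 = i) →
    cnt ty X (i, true) = E + 1 → cnt ty X (i, false) = E + 1 →
    ((∀ x ∈ X, k x = x) ∨ 4 ≤ (X.filter (fun x => k x = x)).card) →
    (E - 1).factorial ≤ (GP ty X s k).card := by
  induction E with
  | zero =>
    intro X s k hs hs' hk h0 h1 h3 hf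
    obtain ⟨e, he⟩ := card_eq_one.mp h1
    obtain ⟨e', he'⟩ := card_eq_one.mp h3
    have a : e ∈ X ∧ ty e = (i, true) := mem_filter.mp (he ▸ mem_singleton_self e)
    have b : e' ∈ X ∧ ty e' = (i, false) := mem_filter.mp (he' ▸ mem_singleton_self e')
    have hX : ∀ x ∈ X, x = e ∨ x = e' := by
      intro x hx
      rcases ty_cases (h0 x hx) with h | h
      · left; rw [← mem_singleton, ← he]; exact mem_filter.mpr ⟨hx, h⟩
      · right; rw [← mem_singleton, ← he']; exact mem_filter.mpr ⟨hx, h⟩
    have hty : ty e' = op (ty e) := by rw [a.2, b.2]; rfl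
    have hne := ne_of_ty hty
    have hfree : ∀ x ∈ X, k x = x := by
      rcases hf with hf | hf
      · exact hf
      · exfalso
        have : X.filter (fun x => k x = x) ⊆ {e, e'} := by
          intro x hx
          simpa using hX x (mem_filter.mp hx).1
        have := (card_le_card this).trans card_le_two
        omega
    apply card_pos.mpr
    refine ⟨ins e e' id, mem_GP.mpr ⟨IsTP.ins a.1 b.1 hty ⟨fun _ _ => rfl, ?_⟩, ?_, ?_⟩⟩
    · intro d hd
      rw [mem_rem] at hd
      have := hX d hd.1
      tauto
    · intro U hUX ⟨x, hx⟩ _ hp y hy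
      have := hp x hx
      rcases hX x (hUX hx) with rfl | rfl <;> rcases hX y hy with rfl | rfl
      · exact hx
      · simpa [ins] using this
      · simpa [ins, hne.symm] using this
      · exact hx
    · intro U hUX ⟨x, hx⟩ _ _
      exact ⟨x, hx, hfree x (hUX hx)⟩
  | succ E ih =>
    intro X s k hs hs' hk h0 h1 h3 hf
    have hopp : ∀ e ∈ X, (X.filter (fun d => ty d = op (ty e))).card = E + 2 :=
      fun e he => card_opp h1 h3 (h0 e he)
    have hrec : ∀ e ∈ X, ∀ e' ∈ X, ty e' = op (ty e) → s e ≠ e' → k e ≠ e' →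
        ((∀ x ∈ rem X e e', ctr k e e' x = x) ∨
          4 ≤ ((rem X e e').filter (fun x => ctr k e e' x = x)).card) →
        (E - 1).factorial ≤ (GP ty (rem X e e') (ctr s e e') (ctr k e e')).card := by
      intro e he e' he' hty a b c
      have hne := ne_of_ty hty
      have c1 := cnt_rem_same he he' hty true
      have c3 := cnt_rem_same he he' hty false
      rw [h0 e he] at c1 c3
      exact ih _ _ _ (hs.ctr he he' hne a) (ctr_fpf hs hs' he he' hne) (hk.ctr he he' hne b)
        (fun x hx => h0 x (mem_rem.mp hx).1) (by omega) (by omega) c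
    by_cases hall : ∀ x ∈ X, k x = x
    · obtain ⟨e, he⟩ : (X.filter (fun d => ty d = (i, true))).Nonempty := card_pos.mp (by
        have : cnt ty X (i, true) = (X.filter (fun d => ty d = (i, true))).card := rfl
        omega)
      have he := (mem_filter.mp he).1
      refine le_trans ?_ (GP_step hs hs' hk he
        ((X.filter (fun d => ty d = op (ty e))).erase (s e)) (E - 1).factorial ?_)
      · have := pred_card_le_card_erase (s := X.filter (fun d => ty d = op (ty e))) (a := s e)
        rw [hopp e he] at this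
        refine le_trans ?_ (Nat.mul_le_mul_right _ this)
        rcases E with _ | E
        · simp
        · simp only [add_tsub_cancel_right, Nat.factorial_succ]
          apply Nat.mul_le_mul_right; omega
      · intro e' he'
        rw [mem_erase, mem_filter] at he'
        have hne := ne_of_ty he'.2.2
        have b : k e ≠ e' := by rw [hall e he]; exact hne
        refine ⟨he'.2.1, he'.2.2, he'.1.symm, b, hrec e he e' he'.2.1 he'.2.2 he'.1.symm b ?_⟩
        left
        intro x hx
        rw [mem_rem] at hx
        simp [ctr, hall x hx.1, hx.2.1, hx.2.2]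
    · have hf4 := hf.resolve_left hall
      push Not at hall
      obtain ⟨e, he, hke⟩ := hall
      have hE : 1 ≤ E := by
        have a := card_cls h1 h3 (Y := insert e (X.filter (fun x => k x = x))) (by
          intro x hx
          have hxX : x ∈ X := by
            rcases mem_insert.mp hx with rfl | h
            · exact he
            · exact (mem_filter.mp h).1
          exact ⟨hxX, h0 x hxX⟩)
        rw [card_insert_of_notMem (by simp [hke])] at a
        omega
      refine le_trans ?_ (GP_step hs hs' hk he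
        (((X.filter (fun d => ty d = op (ty e))).erase (s e)).erase (k e)) (E - 1).factorial ?_)
      · have a := pred_card_le_card_erase (s := X.filter (fun d => ty d = op (ty e))) (a := s e)
        have b := pred_card_le_card_erase
          (s := (X.filter (fun d => ty d = op (ty e))).erase (s e)) (a := k e)
        rw [hopp e he] at a
        refine le_trans ?_ (Nat.mul_le_mul_right _ (show E ≤ _ by omega))
        simp only [add_tsub_cancel_right]
        exact (Nat.mul_factorial_pred (by omega)).ge
      · intro e' he'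
        rw [mem_erase, mem_erase, mem_filter] at he'
        obtain ⟨b, a, he', hty⟩ := he'
        refine ⟨he', hty, a.symm, b.symm, hrec e he e' he' hty a.symm b.symm ?_⟩
        right
        refine hf4.trans (card_le_card_of_injOn (fun x => if x = e' then k e else x) ?_ ?_)
        · intro x hx
          simp only [coe_filter, Set.mem_ofPred_eq, mem_rem] at hx ⊢
          obtain ⟨b1, b2⟩ := hk e he
          by_cases hxe : x = e'
          · rw [if_pos hxe]
            exact ⟨⟨b1, hke, b.symm⟩, ctr_left' b2 (hxe ▸ hx.2)⟩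
          · rw [if_neg hxe]
            have n1 : x ≠ e := by rintro rfl; exact hke hx.2
            refine ⟨⟨hx.1, n1, hxe⟩, ?_⟩
            rw [ctr_of_ne (by rwa [hx.2]) (by rwa [hx.2]), hx.2]
        · intro x hx y hy h
          simp only [coe_filter, Set.mem_ofPred_eq] at hx hy
          obtain ⟨b1, b2⟩ := hk e he
          by_cases hxe : x = e' <;> by_cases hye : y = e'
          · rw [hxe, hye]
          · simp only [hxe, hye, if_true, if_false] at h
            have : e = y := by rw [← b2, h, hy.2]
            exact absurd (h.trans this.symm) hke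
          · simp only [hxe, hye, if_true, if_false] at h
            have : e = x := by rw [← b2, ← h, hx.2]
            exact absurd (h.symm.trans this.symm) hke
          · simpa only [hxe, hye, if_false] using h

/-- `x` leaves the class `i` along `k` -/
def Ex (ty : D → κ × Bool) (i : κ) (k : D → D) (x : D) : Prop :=
  (ty x).1 = i ∧ (k x = x ∨ (ty (k x)).1 ≠ i)

instance (ty : D → κ × Bool) (i : κ) (k : D → D) : DecidablePred (Ex ty i k) := fun x => by
  unfold Ex; infer_instance

lemma Ex.keep {ty : D → κ × Bool} {i : κ} {k : D → D} {x e e' : D} (h : Ex ty i k x)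
    (he : (ty e).1 = i) (he' : (ty e').1 = i) (n1 : x ≠ e) (n2 : x ≠ e') :
    Ex ty i (ctr k e e') x := by
  have a : k x ≠ e := by
    rcases h.2 with h' | h'
    · rwa [h']
    · intro q; exact h' (q ▸ he)
  have b : k x ≠ e' := by
    rcases h.2 with h' | h'
    · rwa [h']
    · intro q; exact h' (q ▸ he')
  refine ⟨h.1, ?_⟩
  rw [ctr_of_ne a b]
  exact h.2

lemma Ex.move {ty : D → κ × Bool} {i : κ} {X : Finset D} {k : D → D} (hk : Inv X k) {e e' : D}
    (he : e ∈ X) (hne : ¬ Ex ty i k e) (hi : (ty e).1 = i) (h : Ex ty i k e') :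
    Ex ty i (ctr k e e') (k e) := by
  have b2 := (hk e he).2
  have a : (ty (k e)).1 = i := by
    by_contra hc
    exact hne ⟨hi, Or.inr hc⟩
  refine ⟨a, ?_⟩
  by_cases q : k e' = e'
  · exact Or.inl (ctr_left' b2 q)
  · rw [ctr_left b2 q]
    exact Or.inr (h.2.resolve_left q)

lemma ctr_comm (t : D → D) {e e' : D} (hne : e ≠ e') (x : D) :
    ctr t e e' x = ctr t e' e x := by
  simp only [ctr]
  grind

theorem mid_phase (ty : D → κ × Bool) (i : κ) (B : ℕ)
    (Φ : Finset D → (D → D) → (D → D) → Prop)
    (hΦ : ∀ X s k, Φ X s k → ∀ e ∈ X, ∀ e' ∈ X, (ty e).1 = i → ty e' = op (ty e) →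
      Φ (rem X e e') (ctr s e e') (ctr k e e'))
    (hB : ∀ X s k, Inv X s → (∀ x ∈ X, s x ≠ x) → Inv X k → Φ X s k →
      (∀ x ∈ X, (ty x).1 ≠ i) → B ≤ (GP ty X s k).card) (E : ℕ) :
    ∀ (X : Finset D) (s k : D → D), Inv X s → (∀ x ∈ X, s x ≠ x) → Inv X k → Φ X s k →
    cnt ty X (i, true) = E → cnt ty X (i, false) = E → (E = 0 ∨ ∃ x ∈ X, Ex ty i s x) →
    ((∀ x ∈ X, (ty x).1 = i → Ex ty i k x) ∨ 4 ≤ (X.filter (Ex ty i k)).card) →
    (E - 2).factorial * B ≤ (GP ty X s k).card := by
  induction E with
  | zero =>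
    intro X s k hs hs' hk hP h1 h2 _ _
    simp only [zero_tsub, Nat.factorial_zero, one_mul]
    refine hB X s k hs hs' hk hP (fun x hx hi => ?_)
    have := card_cls h1 h2 (Y := {x}) (by simpa using ⟨hx, hi⟩)
    simp at this
  | succ E ih =>
    intro X s k hs hs' hk hP h1 h2 hm hf
    obtain ⟨x0, hx0, hx0e⟩ := hm.resolve_left (by omega)
    -- at most one partner is forbidden by `s`
    have hS : ∀ e ∈ X, (ty e).1 = i → ∃ z, ∀ e' ∈ X, ty e' = op (ty e) → (E = 0 ∨ e' ≠ z) →
        s e ≠ e' ∧ (E = 0 ∨ ∃ x ∈ rem X e e', Ex ty i (ctr s e e') x) := by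
      intro e he hi
      rcases Nat.eq_zero_or_pos E with hE | hE
      · refine ⟨e, fun e' he' hty _ => ⟨fun q => ?_, Or.inl hE⟩⟩
        have hne := ne_of_ty hty
        have hi' : (ty e').1 = i := by rw [hty]; exact hi
        have q' : s e' = e := by rw [← q]; exact (hs e he).2
        have n1 : x0 ≠ e := by
          rintro rfl
          exact (hx0e.2.resolve_left (hs' _ he)) (q ▸ hi')
        have n2 : x0 ≠ e' := by
          rintro rfl
          exact (hx0e.2.resolve_left (hs' _ he')) (q' ▸ hi)
        have := card_cls h1 h2 (Y := {x0, e, e'}) (by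
          intro y hy
          simp only [mem_insert, mem_singleton] at hy
          rcases hy with rfl | rfl | rfl
          · exact ⟨hx0, hx0e.1⟩
          · exact ⟨he, hi⟩
          · exact ⟨he', hi'⟩)
        rw [card_eq_three.mpr ⟨x0, e, e', n1, n2, hne, rfl⟩] at this
        omega
      by_cases hex : Ex ty i s e
      · have hse : ∀ e', ty e' = op (ty e) → s e ≠ e' := by
          intro e' hty q
          exact (hex.2.resolve_left (hs' e he)) (by rw [q, hty]; exact hi)
        by_cases hz : ∃ z ∈ X, z ≠ e ∧ Ex ty i s z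
        · obtain ⟨z, hzX, hze, hz⟩ := hz
          refine ⟨z, fun e' he' hty hne => ⟨hse e' hty, Or.inr ⟨z, mem_rem.mpr ⟨hzX, hze,
            (hne.resolve_left (by omega)).symm⟩, hz.keep hi (by rw [hty]; exact hi) hze
            (hne.resolve_left (by omega)).symm⟩⟩⟩
        · refine ⟨e, fun e' he' hty _ => ⟨hse e' hty, Or.inr ?_⟩⟩
          have hne := ne_of_ty hty
          have hi' : (ty e').1 = i := by rw [hty]; exact hi
          have hn : ¬ Ex ty i s e' := fun h => hz ⟨e', he', hne.symm, h⟩
          refine ⟨s e', mem_rem.mpr ⟨(hs e' he').1, fun q => hse e' hty ?_, hs' e' he'⟩, ?_⟩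
          · rw [← q]; exact (hs e' he').2
          · have := Ex.move hs he' hn hi' hex
            have e1 : ctr s e e' = ctr s e' e := funext (ctr_comm s hne)
            rwa [e1]
      · refine ⟨s e, fun e' he' hty hne => ?_⟩
        have hne := (hne.resolve_left (by omega)).symm
        have hi' : (ty e').1 = i := by rw [hty]; exact hi
        refine ⟨hne, Or.inr ?_⟩
        by_cases hx : x0 = e'
        · exact ⟨s e, mem_rem.mpr ⟨(hs e he).1, hs' e he, hne⟩, Ex.move hs he hex hi (hx ▸ hx0e)⟩
        · have n1 : x0 ≠ e := by rintro rfl; exact hex hx0e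
          exact ⟨x0, mem_rem.mpr ⟨hx0, n1, hx⟩, hx0e.keep hi hi' n1 hx⟩
    have hrec : ∀ e ∈ X, (ty e).1 = i → ∀ e' ∈ X, ty e' = op (ty e) → s e ≠ e' → k e ≠ e' →
        (E = 0 ∨ ∃ x ∈ rem X e e', Ex ty i (ctr s e e') x) →
        ((∀ x ∈ rem X e e', (ty x).1 = i → Ex ty i (ctr k e e') x) ∨
          4 ≤ ((rem X e e').filter (Ex ty i (ctr k e e'))).card) →
        (E - 2).factorial * B ≤ (GP ty (rem X e e') (ctr s e e') (ctr k e e')).card := by
      intro e he hi e' he' hty a b c d
      have hne := ne_of_ty hty
      have c1 := cnt_rem_same he he' hty true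
      have c3 := cnt_rem_same he he' hty false
      rw [hi] at c1 c3
      exact ih _ _ _ (hs.ctr he he' hne a) (ctr_fpf hs hs' he he' hne) (hk.ctr he he' hne b)
        (hΦ X s k hP e he e' he' hi hty) (by omega) (by omega) c d
    by_cases hall : ∀ x ∈ X, (ty x).1 = i → Ex ty i k x
    · obtain ⟨z, hz⟩ := hS x0 hx0 hx0e.1
      have hc := card_opp h1 h2 hx0e.1
      have hall' : ∀ e' ∈ X, ty e' = op (ty x0) → (E = 0 ∨ e' ≠ z) → e' ∈ X ∧
          ty e' = op (ty x0) ∧ s x0 ≠ e' ∧ k x0 ≠ e' ∧ (E - 2).factorial * B ≤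
          (GP ty (rem X x0 e') (ctr s x0 e') (ctr k x0 e')).card := by
        intro e' he' hty hne
        obtain ⟨a, c⟩ := hz e' he' hty hne
        have hi' : (ty e').1 = i := by rw [hty]; exact hx0e.1
        have b : k x0 ≠ e' := by
          rcases (hall x0 hx0 hx0e.1).2 with h | h
          · rw [h]; exact ne_of_ty hty
          · intro q; exact h (q ▸ hi')
        refine ⟨he', hty, a, b, hrec x0 hx0 hx0e.1 e' he' hty a b c (Or.inl ?_)⟩
        intro x hx hxi
        rw [mem_rem] at hx
        exact (hall x hx.1 hxi).keep hx0e.1 hi' hx.2.1 hx.2.2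
      rcases Nat.eq_zero_or_pos E with hE | hE
      · refine le_trans ?_ (GP_step hs hs' hk hx0 (X.filter (fun d => ty d = op (ty x0)))
          ((E - 2).factorial * B) ?_)
        · rw [hc, hE]; simp
        · intro e' he'
          rw [mem_filter] at he'
          exact hall' e' he'.1 he'.2 (Or.inl hE)
      · refine le_trans ?_ (GP_step hs hs' hk hx0
          ((X.filter (fun d => ty d = op (ty x0))).erase z) ((E - 2).factorial * B) ?_)
        · have a := pred_card_le_card_erase (s := X.filter (fun d => ty d = op (ty x0))) (a := z)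
          rw [hc] at a
          refine le_trans ?_ (Nat.mul_le_mul_right _ a)
          rw [← mul_assoc]
          apply Nat.mul_le_mul_right
          rcases E with _ | _ | E
          · omega
          · simp
          · simp only [add_tsub_cancel_right, show E + 1 + 1 + 1 - 2 = E + 1 by omega,
              show E + 1 + 1 - 2 = E by omega, Nat.factorial_succ]
            apply Nat.mul_le_mul_right; omega
        · intro e' he'
          rw [mem_erase, mem_filter] at he'
          exact hall' e' he'.2.1 he'.2.2 (Or.inr he'.1)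
    · have hf4 := hf.resolve_left hall
      push Not at hall
      obtain ⟨e, he, hi, hke⟩ := hall
      obtain ⟨b1, b2⟩ := hk e he
      have hke1 : k e ≠ e := fun q => hke ⟨hi, Or.inl q⟩
      have hke2 : (ty (k e)).1 = i := by
        by_contra hc
        exact hke ⟨hi, Or.inr hc⟩
      have hke3 : ¬ Ex ty i k (k e) := by
        rintro ⟨-, q | q⟩
        · exact hke1 (by rw [← q, b2])
        · exact q (by rw [b2]; exact hi)
      have hE : 2 ≤ E := by
        have a := card_cls h1 h2 (Y := insert e (X.filter (Ex ty i k))) (by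
          intro x hx
          rcases mem_insert.mp hx with rfl | h
          · exact ⟨he, hi⟩
          · exact ⟨(mem_filter.mp h).1, (mem_filter.mp h).2.1⟩)
        rw [card_insert_of_notMem (by simp [hke])] at a
        omega
      obtain ⟨z, hz⟩ := hS e he hi
      have hc := card_opp h1 h2 hi
      refine le_trans ?_ (GP_step hs hs' hk he
        (((X.filter (fun d => ty d = op (ty e))).erase z).erase (k e)) ((E - 2).factorial * B) ?_)
      · have a := pred_card_le_card_erase (s := X.filter (fun d => ty d = op (ty e))) (a := z)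
        have b := pred_card_le_card_erase
          (s := (X.filter (fun d => ty d = op (ty e))).erase z) (a := k e)
        rw [hc] at a
        refine le_trans ?_ (Nat.mul_le_mul_right _ (show E - 1 ≤ _ by omega))
        rw [← mul_assoc]
        apply Nat.mul_le_mul_right
        obtain ⟨E', rfl⟩ : ∃ E', E = E' + 2 := ⟨E - 2, by omega⟩
        simp only [show E' + 2 + 1 - 2 = E' + 1 by omega, show E' + 2 - 2 = E' by omega,
          show E' + 2 - 1 = E' + 1 by omega, Nat.factorial_succ]
        exact le_rfl
      · intro e' he'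
        rw [mem_erase, mem_erase, mem_filter] at he'
        obtain ⟨b, a, he', hty⟩ := he'
        obtain ⟨a', c⟩ := hz e' he' hty (Or.inr a)
        have hi' : (ty e').1 = i := by rw [hty]; exact hi
        refine ⟨he', hty, a', b.symm, hrec e he hi e' he' hty a' b.symm c (Or.inr ?_)⟩
        refine hf4.trans (card_le_card_of_injOn (fun x => if x = e' then k e else x) ?_ ?_)
        · intro x hx
          simp only [coe_filter, Set.mem_ofPred_eq, mem_rem] at hx ⊢
          by_cases hxe : x = e'
          · rw [if_pos hxe]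
            exact ⟨⟨b1, hke1, b.symm⟩, Ex.move hk he hke hi (hxe ▸ hx.2)⟩
          · rw [if_neg hxe]
            have n1 : x ≠ e := by rintro rfl; exact hke hx.2
            exact ⟨⟨hx.1, n1, hxe⟩, hx.2.keep hi hi' n1 hxe⟩
        · intro x hx y hy h
          simp only [coe_filter, Set.mem_ofPred_eq] at hx hy
          by_cases hxe : x = e' <;> by_cases hye : y = e'
          · rw [hxe, hye]
          · simp only [hxe, hye, if_true, if_false] at h
            exact absurd (h ▸ hy.2) hke3
          · simp only [hxe, hye, if_true, if_false] at h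
            exact absurd (h.symm ▸ hx.2) hke3
          · simpa only [hxe, hye, if_false] using h

/-- links from each class to a later class -/
structure Lk (ty : D → ℕ × Bool) (N E i : ℕ) (X : Finset D) (s k : D → D) : Prop where
  lt : ∀ x ∈ X, (ty x).1 < N
  count : ∀ c, i ≤ c → c < N → ∀ o, cnt ty X (c, o) = E
  sl : ∀ c, i ≤ c → c + 1 < N → ∃ x ∈ X, (ty x).1 = c ∧ c < (ty (s x)).1
  kl : ∀ c, i ≤ c → c < N →
    4 ≤ (X.filter (fun x => (ty x).1 = c ∧ (k x = x ∨ c < (ty (k x)).1))).card

theorem multi_phase (ty : D → ℕ × Bool) (N E : ℕ) (hE : 1 ≤ E) (j : ℕ) : ∀ i, i + j + 1 = N →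
    ∀ (X : Finset D) (s k : D → D), Inv X s → (∀ x ∈ X, s x ≠ x) → Inv X k →
    (∀ x ∈ X, i ≤ (ty x).1) → Lk ty N E i X s k →
    (E - 2).factorial ^ (j + 1) ≤ (GP ty X s k).card := by
  induction j with
  | zero =>
    intro i hi X s k hs hs' hk h0 hL
    obtain ⟨E', rfl⟩ : ∃ E', E = E' + 1 := ⟨E - 1, by omega⟩
    have hc : ∀ x ∈ X, (ty x).1 = i := fun x hx => by
      have := h0 x hx
      have := hL.lt x hx
      omega
    rw [zero_add, pow_one, show E' + 1 - 2 = E' - 1 by omega]
    refine last_phase ty i E' X s k hs hs' hk hc (hL.count i le_rfl (by omega) _)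
      (hL.count i le_rfl (by omega) _) (Or.inr ((hL.kl i le_rfl (by omega)).trans
        (card_le_card ?_)))
    intro x hx
    rw [mem_filter] at hx ⊢
    refine ⟨hx.1, hx.2.2.resolve_right ?_⟩
    rw [hc _ (hk x hx.1).1]
    exact lt_irrefl _
  | succ j ih =>
    intro i hi X s k hs hs' hk h0 hL
    rw [pow_succ']
    refine mid_phase ty i _ (fun X s k => (∀ x ∈ X, i ≤ (ty x).1) ∧ Lk ty N E (i + 1) X s k) ?_ ?_
      E X s k hs hs' hk ⟨h0, hL.lt, fun c a => hL.count c (by omega),
        fun c a => hL.sl c (by omega), fun c a => hL.kl c (by omega)⟩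
      (hL.count i le_rfl (by omega) _) (hL.count i le_rfl (by omega) _) (Or.inr ?_) (Or.inr ?_)
    · rintro X s k ⟨h0, hL⟩ e he e' he' hie hty
      have hie' : (ty e').1 = i := by rw [hty]; exact hie
      refine ⟨fun x hx => h0 x (mem_rem.mp hx).1, fun x hx => hL.lt x (mem_rem.mp hx).1, ?_, ?_,
        ?_⟩
      · intro c a b o
        rw [cnt_rem_other he he' hty (by omega)]
        exact hL.count c a b o
      · intro c a b
        obtain ⟨x, hx, q1, q2⟩ := hL.sl c a b
        refine ⟨x, mem_rem.mpr ⟨hx, ?_, ?_⟩, q1, ?_⟩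
        · rintro rfl; omega
        · rintro rfl; omega
        · rwa [ctr_of_ne (by rintro q; rw [q] at q2; omega) (by rintro q; rw [q] at q2; omega)]
      · intro c a b
        refine (hL.kl c a b).trans (card_le_card ?_)
        intro x hx
        rw [mem_filter] at hx
        obtain ⟨hx, q1, q2⟩ := hx
        have n1 : x ≠ e := by rintro rfl; omega
        have n2 : x ≠ e' := by rintro rfl; omega
        have n3 : k x ≠ e := by
          rcases q2 with q | q
          · rwa [q]
          · rintro q'; rw [q'] at q; omega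
        have n4 : k x ≠ e' := by
          rcases q2 with q | q
          · rwa [q]
          · rintro q'; rw [q'] at q; omega
        rw [mem_filter, mem_rem, ctr_of_ne n3 n4]
        exact ⟨⟨hx, n1, n2⟩, q1, q2⟩
    · rintro X s k hs hs' hk ⟨h0, hL⟩ hne
      exact ih (i + 1) (by omega) X s k hs hs' hk (fun x hx => by
        have := h0 x hx
        have := hne x hx
        omega) hL
    · obtain ⟨x, hx, q1, q2⟩ := hL.sl i le_rfl (by omega)
      exact ⟨x, hx, q1, Or.inr (by omega)⟩
    · refine (hL.kl i le_rfl (by omega)).trans (card_le_card ?_)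
      intro x hx
      rw [mem_filter] at hx ⊢
      exact ⟨hx.1, hx.2.1, hx.2.2.imp id (fun h => by omega)⟩

end Pool.Agent.MP_755159_pr.G
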