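import Pool.Agent.MP_755159_pr.G.Assemble

/-! Choice of the parameters for a general base graph. -/

set_option linter.unusedSectionVars false

namespace Pool.Agent.MP_755159_pr.G

open Finset

lemma beta_bd {a n n₂ K E N : ℕ} (ha : 200 ≤ a) (p1 : E ≤ 2 * a ^ 22) (q6 : n ≤ 2 * n₂ * a ^ 26)
    (h : 10 * K ≤ n₂) : 2 * (n : ℝ) ^ (a + N) * (E : ℝ) ^ (2 * N) ≤
      (2 * a ^ (73 * N) * n ^ a) * (n₂ - 5 * K) ^ N := by
  have e1 : (E : ℝ) ≤ 2 * a ^ 22 := by exact_mod_cast p1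
  have e2 : (n : ℝ) ≤ 2 * n₂ * a ^ 26 := by exact_mod_cast q6
  have e0 : ((10 * K : ℕ) : ℝ) ≤ n₂ := by exact_mod_cast h
  push_cast at e0
  have e3 : (n₂ : ℝ) ≤ 2 * (n₂ - 5 * K) := by linarith
  have e4 : (0 : ℝ) ≤ n₂ - 5 * K := by
    have : (0 : ℝ) ≤ K := by positivity
    linarith
  have e5 : (16 * a ^ 70 : ℝ) ≤ a ^ 73 := by
    exact_mod_cast pow_bd a ha 16 70 73 (by omega) (by omega)
  have e6 : (n : ℝ) * E ^ 2 ≤ a ^ 73 * (n₂ - 5 * K) := by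
    calc _ ≤ (2 * (2 * (n₂ - 5 * K)) * a ^ 26 : ℝ) * (2 * a ^ 22) ^ 2 := by
          apply mul_le_mul _ (by gcongr) (by positivity) (by positivity)
          exact e2.trans (mul_le_mul_of_nonneg_right (by linarith) (by positivity))
      _ = 16 * a ^ 70 * (n₂ - 5 * K) := by ring
      _ ≤ _ := mul_le_mul_of_nonneg_right e5 e4
  calc _ = 2 * n ^ a * ((n : ℝ) * E ^ 2) ^ N := by rw [mul_pow, ← pow_mul, pow_add]; ring
    _ ≤ 2 * n ^ a * ((a : ℝ) ^ 73 * (n₂ - 5 * K)) ^ N := by gcongr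
    _ = _ := by rw [mul_pow, ← pow_mul]; ring

lemma eps1_bd {a n n₁ I : ℕ} (ha : 200 ≤ a) (hn : 0 < n) (hn1 : 0 < n₁) (q1 : n₁ * a ^ 15 ≤ n)
    (hI : I ≤ 4 * a ^ 6) :
    ((I : ℝ) * ((a + I) * (2 * (4 * (a * n₁) : ℕ) + 1))) / n ≤ 1 / a := by
  have nR : (0 : ℝ) < n := by exact_mod_cast hn
  have aR0 : (0 : ℝ) < a := by exact_mod_cast (show 0 < a by omega)
  have p3 := pow_bd a ha 1 1 6 (by omega) (by omega)
  rw [pow_one] at p3
  have p4 : 0 < a * n₁ := Nat.mul_pos (by omega) hn1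
  rw [div_le_div_iff₀ nR aR0, one_mul]
  have : I * ((a + I) * (2 * (4 * (a * n₁)) + 1)) * a ≤ n := by
    calc _ ≤ 4 * a ^ 6 * ((5 * a ^ 6) * (9 * (a * n₁))) * a :=
        Nat.mul_le_mul_right _ (Nat.mul_le_mul hI (Nat.mul_le_mul (by omega) (by omega)))
      _ = n₁ * (180 * a ^ 14) := by ring
      _ ≤ n₁ * a ^ 15 := Nat.mul_le_mul_left _ (pow_bd a ha 180 14 15 (by omega) (by omega))
      _ ≤ n := q1
  exact_mod_cast this

lemma alpha_bd' {a n K : ℕ} (ha : 200 ≤ a) (h1 : a ^ 100 ≤ n) (hK5 : K ≤ 5 * a ^ 23) (N : ℕ)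
    (hN : 1 ≤ N) (hN' : N ≤ 5 * a ^ 23) : ((n : ℝ) / (n - 10 * K)) ^ N ≤ 1 + 1 / a := by
  have nR : (0 : ℝ) < n := by
    exact_mod_cast lt_of_lt_of_le (pow_pos (show 0 < a by omega) 100) h1
  have aR : (200 : ℝ) ≤ a := by exact_mod_cast ha
  apply alpha_bd N (by positivity) nR (by linarith) hN
  have : 2 * a * N * (10 * K) ≤ n := by
    calc _ ≤ 2 * a * (5 * a ^ 23) * (10 * (5 * a ^ 23)) :=
        Nat.mul_le_mul (Nat.mul_le_mul_left _ hN') (Nat.mul_le_mul_left _ hK5)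
      _ = 25 * (20 * a ^ 47) := by ring
      _ ≤ 25 * a ^ 48 := Nat.mul_le_mul_left _ (pow_bd a ha 20 47 48 (by omega) (by omega))
      _ ≤ a ^ 100 := pow_bd a ha 25 48 100 (by omega) (by omega)
      _ ≤ n := h1
  exact_mod_cast this

lemma eps3_bd {a n K N : ℕ} (ha : 200 ≤ a) (h1 : a ^ (100 * N + 100) ≤ n) (hK5 : K ≤ 5 * a ^ 23)
    (hnK : 10 * K < n) :
    (2 * a ^ (73 * N) * n ^ a : ℝ) * (2 * K * (2 * K) / (n - 10 * K) ^ (a + 1)) ≤ 1 / a := by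
  have nR : (0 : ℝ) < n := by exact_mod_cast (show 0 < n by omega)
  have aR : (200 : ℝ) ≤ a := by exact_mod_cast ha
  have aR0 : (0 : ℝ) < a := by linarith
  have KR : (K : ℝ) ≤ 5 * a ^ 23 := by exact_mod_cast hK5
  have hpos : (0 : ℝ) < n - 10 * K := by
    have : ((10 * K : ℕ) : ℝ) < n := by exact_mod_cast hnK
    push_cast at this
    linarith
  have p1 := pow_bd a ha 2 1 23 (by omega) (by omega)
  rw [pow_one] at p1
  have f1 := alpha_bd' ha ((Nat.pow_le_pow_right (by omega) (by omega)).trans h1) hK5 (a + 1)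
    (by omega) (by omega)
  have f2 : (1 : ℝ) / a ≤ 1 := by rw [div_le_one aR0]; linarith
  have f3 : (400 * a ^ (73 * N + 47) : ℝ) ≤ n := by
    have : 400 * a ^ (73 * N + 47) ≤ n := by
      calc _ = 4 * (100 * a ^ (73 * N + 47)) := by ring
        _ ≤ 4 * a ^ (73 * N + 48) :=
          Nat.mul_le_mul_left _ (pow_bd a ha 100 _ _ (by omega) (by omega))
        _ ≤ a ^ (100 * N + 100) := pow_bd a ha 4 _ _ (by omega) (by omega)
        _ ≤ n := h1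
    exact_mod_cast this
  calc _ = (8 * a ^ (73 * N) * (K * K) / n) * ((n : ℝ) / (n - 10 * K)) ^ (a + 1) := by
        rw [div_pow]; field_simp; ring
    _ ≤ (8 * a ^ (73 * N) * ((5 * a ^ 23) * (5 * a ^ 23)) / n) * 2 := by
        apply mul_le_mul _ (by linarith) (by positivity) (by positivity)
        apply div_le_div_of_nonneg_right _ nR.le
        apply mul_le_mul_of_nonneg_left _ (by positivity)
        exact mul_le_mul KR KR (by positivity) (by positivity)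
    _ = 400 * a ^ (73 * N + 47) / n * (1 / a) := by rw [pow_add]; field_simp; ring
    _ ≤ 1 * (1 / a) := by
        apply mul_le_mul_of_nonneg_right _ (by positivity)
        rwa [div_le_one nR]
    _ = _ := one_mul _

lemma eps4_bd {a n N : ℕ} (ha : 200 ≤ a) (hN : 100 * N + 100 ≤ a) (h1 : a ^ (100 * N + 100) ≤ n)
    (h2 : n < (a + 1) ^ (100 * N + 100)) :
    (2 * a ^ (73 * N) * n ^ a : ℝ) * (2 * a / 2 ^ (a ^ 4)) ≤ 1 / a := by
  have aR0 : (0 : ℝ) < a := by exact_mod_cast (show 0 < a by omega)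
  rw [← mul_div_assoc, div_le_div_iff₀ (by positivity) aR0, one_mul]
  have : 2 * a ^ (73 * N) * n ^ a * (2 * a) * a ≤ 2 ^ (a ^ 4) := by
    have f1 : n ≤ 2 ^ (a * a) := by
      rw [pow_mul]
      exact h2.le.trans ((Nat.pow_le_pow_left Nat.lt_two_pow_self _).trans
        (Nat.pow_le_pow_right (by positivity) hN))
    calc _ = (4 * a ^ (73 * N + 2)) * n ^ a := by rw [pow_add]; ring
      _ ≤ n * n ^ a := Nat.mul_le_mul_right _
        ((pow_bd a ha 4 _ _ (by omega) (by omega)).trans h1)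
      _ = n ^ (a + 1) := by ring
      _ ≤ (2 ^ (a * a)) ^ (a + 1) := Nat.pow_le_pow_left f1 _
      _ = 2 ^ (a * a * (a + 1)) := by rw [← pow_mul]
      _ ≤ _ := Nat.pow_le_pow_right (by omega) (by
        have := pow_bd a ha 2 3 4 (by omega) (by omega)
        calc a * a * (a + 1) ≤ a * a * (2 * a) := Nat.mul_le_mul_left _ (by omega)
          _ = 2 * a ^ 3 := by ring
          _ ≤ _ := this)
  exact_mod_cast this

lemma nat_facts {n a h N : ℕ} (ha : 200 ≤ a) (hh : h ≤ a) (hN : 0 < N) (hNa : N ≤ a)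
    (h1 : a ^ 100 ≤ n) : ∃ k I K n₁ n₂ : ℕ, k + a = N * (a ^ 22 + 2 * a) ∧
    I = 2 * a * (N * (a ^ 4 + 1)) ∧ I ≤ 4 * a ^ 6 ∧ K = a + I + k ∧ K ≤ 5 * a ^ 23 ∧
    n₁ * a ^ 15 ≤ n ∧ 0 < n₁ ∧ h * n₁ ≤ 4 * (a * n₁) ∧ 2 * (h * n₂) + 2 ≤ 4 * (a * n₁) ∧
    10 * K ≤ n₂ ∧ 10 * K < n ∧ n ≤ 2 * n₂ * a ^ 26 ∧ n₂ ≤ n ∧ N < k ∧
    4 * k * (N * (h * n₂) + 5 * K) ≤ n ∧ 4 * I * n ≤ (k - N) * n₁ := by
  have ha0 : 0 < a := by omega
  have p0 := pow_bd a ha 1 0 4 (by omega) (by omega)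
  have p1 := pow_bd a ha 2 1 22 (by omega) (by omega)
  have p1' := pow_bd a ha 1 1 23 (by omega) (by omega)
  have p2 := pow_bd a ha 4 6 23 (by omega) (by omega)
  rw [pow_one] at p1 p1'
  rw [pow_zero] at p0
  have r1 : a ^ 22 + 2 * a ≤ N * (a ^ 22 + 2 * a) := Nat.le_mul_of_pos_left _ hN
  have r2 : N * (a ^ 22 + 2 * a) ≤ 2 * a ^ 23 := by
    calc _ ≤ a * (2 * a ^ 22) := Nat.mul_le_mul hNa (by omega)
      _ = _ := by ring
  obtain ⟨k, hk⟩ : ∃ k, k + a = N * (a ^ 22 + 2 * a) := ⟨N * (a ^ 22 + 2 * a) - a, by omega⟩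
  obtain ⟨I, hI⟩ : ∃ I, I = 2 * a * (N * (a ^ 4 + 1)) := ⟨_, rfl⟩
  have hI4 : I ≤ 4 * a ^ 6 := by
    calc _ ≤ 2 * a * (a * (2 * a ^ 4)) :=
        hI ▸ Nat.mul_le_mul_left _ (Nat.mul_le_mul hNa (by omega))
      _ = _ := by ring
  obtain ⟨K, hK⟩ : ∃ K, K = a + I + k := ⟨_, rfl⟩
  obtain ⟨n₁, hn₁⟩ : ∃ n₁, n₁ = n / a ^ 15 := ⟨_, rfl⟩
  obtain ⟨n₂, hn₂⟩ : ∃ n₂, n₂ = n / a ^ 26 := ⟨_, rfl⟩
  have hK5 : K ≤ 5 * a ^ 23 := by omega
  have q1 : n₁ * a ^ 15 ≤ n := hn₁ ▸ Nat.div_mul_le_self _ _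
  have q2 : n₂ * a ^ 26 ≤ n := hn₂ ▸ Nat.div_mul_le_self _ _
  have q3 : a ^ 85 ≤ n₁ := by
    rw [hn₁, Nat.le_div_iff_mul_le (by positivity), ← pow_add]; exact h1
  have q4 : a ^ 74 ≤ n₂ := by
    rw [hn₂, Nat.le_div_iff_mul_le (by positivity), ← pow_add]; exact h1
  have p5 := pow_bd a ha 1 0 85 (by omega) (by omega)
  have p6 := pow_bd a ha 50 23 74 (by omega) (by omega)
  have p7 := pow_bd a ha 51 23 100 (by omega) (by omega)
  rw [pow_zero] at p5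
  have q5 : n ≤ 2 * n₁ * a ^ 15 := by
    have := Nat.lt_div_mul_add (a := n) (b := a ^ 15) (by positivity)
    rw [← hn₁] at this
    have : 1 * a ^ 15 ≤ n₁ * a ^ 15 := Nat.mul_le_mul_right _ (by omega)
    rw [mul_assoc]
    omega
  have q6 : n ≤ 2 * n₂ * a ^ 26 := by
    have := Nat.lt_div_mul_add (a := n) (b := a ^ 26) (by positivity)
    rw [← hn₂] at this
    have : 1 * a ^ 26 ≤ n₂ * a ^ 26 := Nat.mul_le_mul_right _ (by omega)
    rw [mul_assoc]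
    omega
  have q7 : n₂ ≤ n₁ := by
    rw [hn₁, hn₂]
    exact Nat.div_le_div_left (Nat.pow_le_pow_right ha0 (by omega)) (by positivity)
  have q8 : h * n₁ ≤ a * n₁ := Nat.mul_le_mul_right _ hh
  have q9 : h * n₂ ≤ a * n₁ := Nat.mul_le_mul hh q7
  have q10 : 0 < a * n₁ := Nat.mul_pos ha0 (by omega)
  refine ⟨k, I, K, n₁, n₂, hk, hI, hI4, hK, hK5, q1, by omega, by omega, by omega, by omega,
    by omega, q6, hn₂ ▸ Nat.div_le_self _ _, by omega, ?_, ?_⟩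
  · have s1 : N * (h * n₂) ≤ a * (a * n₂) := Nat.mul_le_mul hNa (Nat.mul_le_mul_right _ hh)
    have s2 : n₂ ≤ a * (a * n₂) :=
      (Nat.le_mul_of_pos_left _ ha0).trans (Nat.le_mul_of_pos_left _ ha0)
    calc _ ≤ 4 * (2 * a ^ 23) * (2 * (a * (a * n₂))) := Nat.mul_le_mul (by omega) (by omega)
      _ = n₂ * (16 * a ^ 25) := by ring
      _ ≤ n₂ * a ^ 26 := Nat.mul_le_mul_left _ (pow_bd a ha 16 25 26 (by omega) (by omega))
      _ ≤ n := q2
  · calc _ ≤ 4 * (4 * a ^ 6) * (2 * n₁ * a ^ 15) := Nat.mul_le_mul (by omega) q5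
      _ = (32 * a ^ 21) * n₁ := by ring
      _ ≤ _ := Nat.mul_le_mul_right _ (by
        have := pow_bd a ha 32 21 22 (by omega) (by omega); omega)

theorem few_bad {V : Type} [Fintype V] [DecidableEq V] {h : ℕ} [Fact (2 < h)] {κ : Type}
    [DecidableEq κ] {W : Type} [Fintype W] [DecidableEq W] {n : ℕ} {C : Cov h κ V W n} {N : ℕ}
    {α₀ : Bool → κ × Bool} {cB : Bool} (hW : Walks C.bs N α₀ cB) {a : ℕ} {sp : Fin a → V}
    (hsp0 : ∀ r, C.pos (sp r) = C.bs (α₀ false)) (hspi : Function.Injective sp)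
    (hsp : ∀ W : Finset V, W.Nonempty → (∀ v ∈ W, C.s v ∈ W) → ∃ r, sp r ∈ W)
    (ha : 200 ≤ a) (hh : h ≤ a) (hN : 100 * N + 100 ≤ a) (h1 : a ^ (100 * N + 100) ≤ n)
    (h2 : n < (a + 1) ^ (100 * N + 100)) {P : ℕ} (hTP : (TP C.tw univ).card ≤ P) :
    ((Ext C.tw (fun m => ¬ (Gr C m).IsHamiltonian)).card : ℝ) ≤ 4 * (1 / a) * P := by
  have h1' : a ^ 100 ≤ n := (Nat.pow_le_pow_right (by omega) (by omega)).trans h1
  obtain ⟨k, I, K, n₁, n₂, hk, hI, hI4, hK, hK5, q1, q2, q3, q3', q4, q5, q6, q7, c0, c1, c2⟩ :=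
    nat_facts ha hh hW.1 (by omega) h1'
  have p1 := pow_bd a ha 2 1 22 (by omega) (by omega)
  have p4 := pow_bd a ha 1 0 4 (by omega) (by omega)
  rw [pow_one] at p1
  rw [pow_zero] at p4
  have hT : a ^ 4 - 1 + 1 = a ^ 4 := Nat.sub_add_cancel (by omega)
  have hT' : N * (a ^ 4 + 1) - 1 + 1 = N * (a ^ 4 + 1) :=
    Nat.sub_add_cancel (Nat.mul_pos hW.1 (by omega))
  have key := main_det hW hsp0 hspi hsp (N * (a ^ 4 + 1) - 1) (a ^ 4 - 1) k (a ^ 22 + 2 * a)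
    (by rw [hT, hT']) hk (by omega) (by omega) (by omega)
    (L := 4 * (a * n₁)) (n₁ := n₁) (n₂ := n₂) (I := I) (K := K)
    (by rw [hT', hI]) hK q3 q3' q2 q5 c0 c1 c2 (by omega) q7 (beta_bd ha (by omega) q6 q4)
  rw [hT] at key
  have hsplit : (Ext C.tw (fun m => (Gr C m).IsHamiltonian)).card +
      (Ext C.tw (fun m => ¬ (Gr C m).IsHamiltonian)).card = (TP C.tw univ).card := by
    classical
    rw [← card_filter_add_card_filter_not (s := TP C.tw univ) (fun m => (Gr C m).IsHamiltonian)]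
    congr 2
    ext m
    simp only [mem_Ext, mem_filter, mem_TP]
  exact final_bd (Nat.cast_nonneg _) (Nat.cast_nonneg _) (by positivity)
    (by exact_mod_cast hsplit) (by exact_mod_cast hTP) (eps1_bd ha (by omega) q2 q1 hI4)
    (alpha_bd' ha h1' hK5 _ (by omega) (by omega)) (eps3_bd ha h1 hK5 q5) (eps4_bd ha hN h1 h2) key

end Pool.Agent.MP_755159_pr.G
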