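import Pool.Agent.MP_755159_pr.G.Geo

/-! Counting good placements of the cuts for a general base graph. -/

set_option linter.unusedSectionVars false

namespace Pool.Agent.MP_755159_pr.G

open Finset

variable {V : Type} [Fintype V] [DecidableEq V] {R T k : ℕ} {h : ℕ} [Fact (2 < h)]

/-- a fibre -/
def fib (pos : V → ZMod h) (q : ZMod h) : Finset V := univ.filter (fun d => pos d = q)

lemma mem_fib {pos : V → ZMod h} {q : ZMod h} {v : V} : v ∈ fib pos q ↔ pos v = q := by simp [fib]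

lemma Near_trans {s : Equiv.Perm V} {L L' : ℕ} {u v w : V} (h1 : u ∈ Near s L v)
    (h2 : v ∈ Near s L' w) : u ∈ Near s (L + L') w := by
  rw [mem_Near] at h1 h2 ⊢
  obtain ⟨z, a, rfl⟩ := h1
  obtain ⟨z', a', rfl⟩ := h2
  refine ⟨z + z', (abs_add_le _ _).trans ?_, (zpow_app s z z' w).symm⟩
  push_cast
  omega

lemma Win_Near {s : Equiv.Perm V} {c : Bool} {N : ℕ} {u v : V} (hv : v ∈ Win s c N u) :
    v ∈ Near s N u := by
  obtain ⟨l, hl, rfl⟩ := mem_image.mp hv
  exact aw_pow_mem_Near s c (mem_range.mp hl) u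

lemma card_Win_fib {pos : V → ZMod h} {s : Equiv.Perm V} (hs : ∀ v, pos (s v) = pos v + 1)
    (c : Bool) (N : ℕ) {u : V} (hu : ∀ i < h * N, (aw s c ^ (i + 1)) u ≠ u) (q : ZMod h) :
    N ≤ (Win s c (h * N) u ∩ fib pos q).card := by
  have hh : 2 < h := Fact.out
  have : NeZero h := ⟨by omega⟩
  have h1 : ∀ i : ℕ, pos ((aw s c ^ i) u) = pos u - (i : ZMod h) * sg c := by
    intro i
    induction i with
    | zero => simp
    | succ i ih =>
      rw [pow_succ', Equiv.Perm.mul_apply, pos_aw hs, ih]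
      push_cast; ring
  obtain ⟨i, hi, hq⟩ : ∃ i : ℕ, i < h ∧ pos u - ((i : ZMod h) + 1) * sg c = q := by
    refine ⟨((pos u - q) * sg c - 1).val, ZMod.val_lt _, ?_⟩
    rw [ZMod.natCast_zmod_val]
    cases c <;> simp [sg]
  conv_lhs => rw [← card_range N]
  apply card_le_card_of_injOn (fun l => (aw s c ^ (i + 1 + h * l)) u)
  · intro l hl
    simp only [coe_range, Set.mem_Iio] at hl
    simp only [coe_inter, Set.mem_inter_iff, mem_coe, mem_fib, h1]
    refine ⟨mem_image.mpr ⟨i + h * l, mem_range.mpr ?_, by congr 2; ring⟩, ?_⟩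
    · have : h * (l + 1) ≤ h * N := Nat.mul_le_mul_left _ hl
      rw [mul_add] at this
      omega
    · rw [← hq]
      push_cast
      rw [ZMod.natCast_self]; ring
  · have key : ∀ l l', l < l' → l' < N →
        (aw s c ^ (i + 1 + h * l)) u ≠ (aw s c ^ (i + 1 + h * l')) u := by
      intro l l' a b e
      obtain ⟨d, rfl⟩ : ∃ d, l' = l + (d + 1) := ⟨l' - l - 1, by omega⟩
      have h2 : h * (d + 1) ≤ h * N := Nat.mul_le_mul_left _ (by omega)
      have h3 : 0 < h * (d + 1) := by positivity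
      apply hu (h * (d + 1) - 1) (by omega)
      rw [show i + 1 + h * (l + (d + 1)) = (i + 1 + h * l) + (h * (d + 1) - 1 + 1) by
        rw [mul_add h l]; omega, pow_add _ (i + 1 + h * l), Equiv.Perm.mul_apply] at e
      exact ((aw s c ^ (i + 1 + h * l)).injective e).symm
    intro l hl l' hl' e
    simp only [coe_range, Set.mem_Iio] at hl hl'
    rcases lt_trichotomy l l' with h | h | h
    · exact absurd e (key l l' h hl')
    · exact h
    · exact absurd e.symm (key l' l h hl)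

open Classical in
/-- good placements of the chain cuts -/
noncomputable def Nice (pos : V → ZMod h) (s : Equiv.Perm V) (sp : Fin R → V)
    (τ : Cut R T k → ZMod h) (L : ℕ) : Finset (Chn R × Fin (T + 1) → V) :=
  (Fintype.piFinset (fun x => fib pos (τ (Sum.inr (Sum.inl x))))).filter
    (fun γ => ∀ x, (∀ r, γ x ∉ Near s L (sp r)) ∧ ∀ x', x' ≠ x → γ x ∉ Near s L (γ x'))

lemma mem_Nice {pos : V → ZMod h} {s : Equiv.Perm V} {sp : Fin R → V}
    {τ : Cut R T k → ZMod h} {L : ℕ} {γ : Chn R × Fin (T + 1) → V} :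
    γ ∈ Nice pos s sp τ L ↔ (∀ x, pos (γ x) = τ (Sum.inr (Sum.inl x))) ∧
      ∀ x, (∀ r, γ x ∉ Near s L (sp r)) ∧ ∀ x', x' ≠ x → γ x ∉ Near s L (γ x') := by
  simp only [Nice, mem_filter, Fintype.mem_piFinset, mem_fib]

theorem card_Nice {pos : V → ZMod h} {n : ℕ} (hn : ∀ q, cnt pos univ q = n) (s : Equiv.Perm V)
    (sp : Fin R → V) (τ : Cut R T k → ZMod h) (L I : ℕ) (hI : I = 2 * R * (T + 1)) :
    n ^ I * n ≤ (Nice pos s sp τ L).card * n + I * (n ^ I * ((R + I) * (2 * L + 1))) := by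
  classical
  have hI' : Fintype.card (Chn R × Fin (T + 1)) = I := by simp [hI]; ring
  have hfib : ∀ q, (fib pos q).card = n := hn
  obtain ⟨A, hA⟩ : ∃ A : Chn R × Fin (T + 1) → Finset V,
    A = fun x => fib pos (τ (Sum.inr (Sum.inl x))) := ⟨_, rfl⟩
  have hpi : (Fintype.piFinset A).card = n ^ I := by
    rw [Fintype.card_piFinset, hA]
    simp only [hfib, prod_const, card_univ, hI']
  obtain ⟨B, hB⟩ : ∃ B : Chn R × Fin (T + 1) → (Chn R × Fin (T + 1) → V) → Finset V,
    B = fun x γ => univ.biUnion (fun r => Near s L (sp r)) ∪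
      (univ.erase x).biUnion (fun x' => Near s L (γ x')) := ⟨_, rfl⟩
  have hcov : Fintype.piFinset A ⊆ Nice pos s sp τ L ∪
      univ.biUnion (fun x => (Fintype.piFinset A).filter (fun γ => γ x ∈ B x γ)) := by
    intro γ hγ
    rw [mem_union]
    by_contra hcon
    push Not at hcon
    apply hcon.1
    rw [mem_Nice]
    refine ⟨fun x => by simpa [hA, mem_fib] using Fintype.mem_piFinset.mp hγ x, fun x => ?_⟩
    have : γ x ∉ B x γ := fun h => hcon.2 (mem_biUnion.mpr ⟨x, mem_univ _, mem_filter.mpr ⟨hγ, h⟩⟩)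
    simpa [hB] using this
  have hbad : ∀ x, ((Fintype.piFinset A).filter (fun γ => γ x ∈ B x γ)).card * n ≤
      n ^ I * ((R + I) * (2 * L + 1)) := by
    intro x
    have := resample_pi A x _ (filter_subset (fun γ => γ x ∈ B x γ) _) ((R + I) * (2 * L + 1)) ?_
    · rwa [hpi, show (A x).card = n by rw [hA]; exact hfib _] at this
    · intro γ _
      refine le_trans (card_le_card (t := B x γ) ?_) ?_
      · intro v hv
        have := (mem_filter.mp (mem_filter.mp hv).2).2
        simp only [Function.update_self, hB, mem_union, mem_biUnion, mem_erase] at this ⊢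
        rcases this with h | ⟨x', h, h'⟩
        · exact Or.inl h
        · exact Or.inr ⟨x', h, by rwa [Function.update_of_ne h.1] at h'⟩
      · rw [hB]
        refine (card_union_le _ _).trans ?_
        rw [add_mul]
        apply Nat.add_le_add
        · refine (card_biUnion_le_card_mul _ _ _ (fun r _ => card_Near s L _)).trans ?_
          simp
        · refine (card_biUnion_le_card_mul _ _ _ (fun r _ => card_Near s L _)).trans ?_
          apply Nat.mul_le_mul_right
          rw [← hI']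
          exact card_le_univ _
  have h1 := (card_le_card hcov).trans ((card_union_le _ _).trans
    (Nat.add_le_add_left card_biUnion_le _))
  rw [hpi] at h1
  refine (Nat.mul_le_mul_right n h1).trans ?_
  rw [add_mul, sum_mul]
  apply Nat.add_le_add_left
  refine (sum_le_sum (fun x _ => hbad x)).trans ?_
  rw [sum_const, card_univ, hI', smul_eq_mul]

open Classical in
/-- good placements of the generic cuts -/
noncomputable def GoodB (pos : V → ZMod h) (s : Equiv.Perm V) (sp : Fin R → V) (b : Bits R T)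
    (τ : Cut R T k → ZMod h) (cB : Bool) (F : Finset (Fin R)) (g₀ : Fin R → Fin k)
    (γ : Chn R × Fin (T + 1) → V) : Finset (Fin k → V) :=
  univ.filter (fun β => (∀ g, pos (β g) = τ (Sum.inr (Sum.inr g))) ∧ Sep s (tl sp γ β) ∧
    (∀ i t', ∃ g c, First s (tl sp γ β) (ye b i t') (gn g c)) ∧
    ∀ r ∈ F, First s (tl sp γ β) (xo b (r, cB) (Fin.last T)) (gn (g₀ r) (b (r, cB) (Fin.last T))))

lemma mem_GoodB {pos : V → ZMod h} {s : Equiv.Perm V} {sp : Fin R → V} {b : Bits R T}
    {τ : Cut R T k → ZMod h} {cB : Bool} {F : Finset (Fin R)} {g₀ : Fin R → Fin k}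
    {γ : Chn R × Fin (T + 1) → V} {β : Fin k → V} : β ∈ GoodB pos s sp b τ cB F g₀ γ ↔
    (∀ g, pos (β g) = τ (Sum.inr (Sum.inr g))) ∧ Sep s (tl sp γ β) ∧
    (∀ i t', ∃ g c, First s (tl sp γ β) (ye b i t') (gn g c)) ∧
    ∀ r ∈ F, First s (tl sp γ β) (xo b (r, cB) (Fin.last T))
      (gn (g₀ r) (b (r, cB) (Fin.last T))) := by
  simp only [GoodB, mem_filter, mem_univ, true_and]

lemma good_of_avoid {pos : V → ZMod h} {s : Equiv.Perm V} (hs : ∀ v, pos (s v) = pos v + 1)
    {sp : Fin R → V} {q₀ : ZMod h} (hsp0 : ∀ r, pos (sp r) = q₀) (hspi : Function.Injective sp)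
    (hsp : ∀ W : Finset V, W.Nonempty → (∀ v ∈ W, s v ∈ W) → ∃ r, sp r ∈ W)
    {b : Bits R T} {τ : Cut R T k → ZMod h} {cB : Bool} {F : Finset (Fin R)} {g₀ : Fin R → Fin k}
    {L N₁ N₂ : ℕ} (hN₁ : N₁ ≤ L) (hN₂ : 2 * N₂ + 2 ≤ L)
    {γ : Chn R × Fin (T + 1) → V} (hγ : γ ∈ Nice pos s sp τ L) {β : Fin k → V}
    (h0 : ∀ g, pos (β g) = τ (Sum.inr (Sum.inr g)))
    (h1 : ∀ r ∈ F, β (g₀ r) ∈ Win s (!b (r, cB) (Fin.last T)) N₂ (γ ((r, cB), Fin.last T)))
    (h2 : ∀ r ∈ F, ∀ r', β (g₀ r) ∉ Near s 2 (sp r'))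
    (h3 : ∀ r ∈ F, ∀ x, β (g₀ r) ∉ Near s 2 (γ x))
    (h4 : ∀ g, g ∉ F.image g₀ → ∀ r ∈ F,
      β g ∉ Win s (!b (r, cB) (Fin.last T)) N₂ (γ ((r, cB), Fin.last T)))
    (h5 : ∀ g, g ∉ F.image g₀ → ∀ j : Cut R T k, j ≠ Sum.inr (Sum.inr g) →
      β g ∉ Near s 2 (tl sp γ β j))
    (h6 : ∀ x : Chn R × Fin (T + 1), ∃ g, β g ∈ Win s (b x.1 x.2) N₁ (γ x)) :
    β ∈ GoodB pos s sp b τ cB F g₀ γ := by
  rw [mem_Nice] at hγ
  have hL : 2 ≤ L := by omega
  have hfar : ∀ r ∈ F, ∀ r' : Fin R, r' ≠ r →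
      β (g₀ r) ∉ Near s (N₂ + 2) (γ ((r', cB), Fin.last T)) := by
    intro r hr r' hne q
    refine (hγ.2 ((r, cB), Fin.last T)).2 ((r', cB), Fin.last T) (by simpa using hne) ?_
    exact Near_mono (by omega) (Near_trans (Near_symm (Win_Near (h1 r hr))) q)
  have hwin : ∀ x c N, N ≤ L → ∀ j : Cut R T k, tl sp γ β j ∈ Win s c N (γ x) →
      ∃ g, j = Sum.inr (Sum.inr g) := by
    intro x c N hN j hj
    obtain ⟨l, hl, e⟩ := mem_image.mp hj
    rw [mem_range] at hl
    have hnear : γ x ∈ Near s L (tl sp γ β j) :=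
      Near_symm (e ▸ aw_pow_mem_Near s c (by omega) _)
    rcases j with r | x' | g
    · exact absurd hnear ((hγ.2 x).1 r)
    · by_cases h : x' = x
      · subst h
        exact absurd e (no_short hsp (hγ.2 x').1 c (by omega))
      · exact absurd hnear ((hγ.2 x).2 x' h)
    · exact ⟨g, rfl⟩
  rw [mem_GoodB]
  refine ⟨h0, ?_, ?_, ?_⟩
  · have key : ∀ j j' : Cut R T k, j ≠ j' → (∃ g, j = Sum.inr (Sum.inr g)) ∨
        ((∃ x, j = Sum.inr (Sum.inl x)) ∧ ∀ g, j' ≠ Sum.inr (Sum.inr g)) →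
        tl sp γ β j ∉ Near s 2 (tl sp γ β j') := by
      rintro j j' hne (⟨g, rfl⟩ | ⟨⟨x, rfl⟩, h⟩)
      · by_cases hg : g ∈ F.image g₀
        · obtain ⟨r, hr, rfl⟩ := mem_image.mp hg
          rcases j' with r' | x | g'
          · exact h2 r hr r'
          · exact h3 r hr x
          · by_cases hg' : g' ∈ F.image g₀
            · obtain ⟨r', hr', rfl⟩ := mem_image.mp hg'
              intro q
              refine hfar r hr r' (by rintro rfl; exact hne rfl) ?_
              rw [add_comm]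
              exact Near_trans q (Win_Near (h1 r' hr'))
            · exact fun h => h5 g' hg' _ hne (Near_symm h)
        · exact h5 g hg j' hne.symm
      · rcases j' with r | x' | g'
        · exact fun h => (hγ.2 x).1 r (Near_mono hL h)
        · exact fun h => (hγ.2 x).2 x' (by rintro rfl; exact hne rfl) (Near_mono hL h)
        · exact absurd rfl (h g')
    intro j j' hne z hz e
    have hnear : tl sp γ β j' ∈ Near s 2 (tl sp γ β j) := mem_Near.mpr ⟨z, hz, e⟩
    rcases j with r | x | g <;> rcases j' with r' | x' | g'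
    · simp only [tl, Sum.elim_inl] at e
      have hp := congrArg pos e
      rw [abs_le] at hz
      obtain ⟨q1, q2⟩ := hz
      interval_cases z
      · rw [show s ^ (-2 : ℤ) = s⁻¹ * s⁻¹ by group, Equiv.Perm.mul_apply, pos_inv hs, pos_inv hs,
          hsp0, hsp0] at hp
        exact z2 (by linear_combination -hp)
      · rw [zpow_neg_one, pos_inv hs, hsp0, hsp0] at hp
        exact z1 (by linear_combination -hp)
      · exact hne (by rw [hspi e])
      · rw [zpow_one, hs, hsp0, hsp0] at hp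
        exact z1 (by linear_combination hp)
      · rw [zpow_two, Equiv.Perm.mul_apply, hs, hs, hsp0, hsp0] at hp
        exact z2 (by linear_combination hp)
    · exact key _ _ hne.symm (Or.inr ⟨⟨_, rfl⟩, by simp⟩) hnear
    · exact key _ _ hne.symm (Or.inl ⟨_, rfl⟩) hnear
    · exact key _ _ hne (Or.inr ⟨⟨_, rfl⟩, by simp⟩) (Near_symm hnear)
    · exact key _ _ hne (Or.inr ⟨⟨_, rfl⟩, by simp⟩) (Near_symm hnear)
    · exact key _ _ hne.symm (Or.inl ⟨_, rfl⟩) hnear
    · exact key _ _ hne (Or.inl ⟨_, rfl⟩) (Near_symm hnear)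
    · exact key _ _ hne (Or.inl ⟨_, rfl⟩) (Near_symm hnear)
    · exact key _ _ hne (Or.inl ⟨_, rfl⟩) (Near_symm hnear)
  · intro i t'
    obtain ⟨g, hg⟩ := h6 (i, t')
    obtain ⟨j', ⟨g', rfl⟩, hf⟩ := first_of_win (s := s) (t := tl sp γ β)
      (j := Sum.inr (Sum.inl (i, t'))) (c := b i t') (N := N₁)
      (fun j => ∃ g, j = Sum.inr (Sum.inr g)) ⟨Sum.inr (Sum.inr g), hg⟩ (hwin _ _ _ hN₁)
    exact ⟨g', _, hf⟩
  · intro r hr
    obtain ⟨j', rfl, hf⟩ := first_of_win (s := s) (t := tl sp γ β)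
      (j := Sum.inr (Sum.inl ((r, cB), Fin.last T))) (c := !b (r, cB) (Fin.last T)) (N := N₂)
      (fun j => j = Sum.inr (Sum.inr (g₀ r))) ⟨Sum.inr (Sum.inr (g₀ r)), h1 r hr⟩ (by
        intro j hj
        obtain ⟨g, rfl⟩ := hwin _ _ _ (by omega) j hj
        by_contra hcon
        by_cases hg : g ∈ F.image g₀
        · obtain ⟨r', hr', rfl⟩ := mem_image.mp hg
          exact hfar r' hr' r (by rintro rfl; exact hcon rfl)
            (Near_mono (by omega) (Win_Near hj))
        · exact h4 g hg r hr hj)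
    rw [Bool.not_not] at hf
    exact hf

theorem card_GoodB {pos : V → ZMod h} {n : ℕ} (hn : ∀ q, cnt pos univ q = n) {s : Equiv.Perm V}
    (hs : ∀ v, pos (s v) = pos v + 1)
    {sp : Fin R → V} {q₀ : ZMod h} (hsp0 : ∀ r, pos (sp r) = q₀) (hspi : Function.Injective sp)
    (hsp : ∀ W : Finset V, W.Nonempty → (∀ v ∈ W, s v ∈ W) → ∃ r, sp r ∈ W)
    (b : Bits R T) {τ : Cut R T k → ZMod h} (cB : Bool) {F : Finset (Fin R)} {g₀ : Fin R → Fin k}
    (hg₀ : Set.InjOn g₀ F) {L n₁ n₂ I K k' : ℕ}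
    (hI : I = 2 * R * (T + 1)) (hK : K = R + I + k) (hk' : k' + F.card = k) (hk0 : 0 < k')
    (hN₁ : h * n₁ ≤ L) (hN₂ : 2 * (h * n₂) + 2 ≤ L) (hn0 : 0 < n) (hn1 : 0 < n₁)
    (c1 : 4 * k * (F.card * (h * n₂) + 5 * K) ≤ n) (c2 : 4 * I * n ≤ k' * n₁)
    {γ : Chn R × Fin (T + 1) → V} (hγ : γ ∈ Nice pos s sp τ L) :
    (n₂ - 5 * K) ^ F.card * n ^ k' ≤ 2 * (GoodB pos s sp b τ cB F g₀ γ).card := by
  classical
  have hI' : Fintype.card (Chn R × Fin (T + 1)) = I := by simp [hI]; ring
  have hK' : Fintype.card (Cut R T k) = K := by simp [hK, hI]; ring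
  have hfib : ∀ q, (fib pos q).card = n := hn
  have hγ' := mem_Nice.mp hγ
  obtain ⟨W, hW⟩ : ∃ W : Fin R → Finset V, W = fun r => Win s (!b (r, cB) (Fin.last T)) (h * n₂)
    (γ ((r, cB), Fin.last T)) := ⟨_, rfl⟩
  obtain ⟨G, hG⟩ : ∃ G, G = F.image g₀ := ⟨_, rfl⟩
  have hGc : G.card = F.card := by rw [hG, card_image_of_injOn hg₀]
  have hGc' : Gᶜ.card = k' := by rw [card_compl, Fintype.card_fin]; omega
  obtain ⟨A₀, hA₀⟩ : ∃ A₀ : Fin k → Finset V, A₀ = fun g =>
    (univ.filter (fun v => ∀ r ∈ F, g₀ r = g → v ∈ W r) ∩ fib pos (τ (Sum.inr (Sum.inr g)))) \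
    (univ.biUnion (fun r => Near s 2 (sp r)) ∪ univ.biUnion (fun x => Near s 2 (γ x))) := ⟨_, rfl⟩
  have hA₀c : ∀ g ∈ G, n₂ - 5 * K ≤ (A₀ g).card := by
    intro g hg
    rw [hG] at hg
    obtain ⟨r, hr, rfl⟩ := mem_image.mp hg
    rw [hA₀]
    refine le_trans ?_ (le_card_sdiff _ _)
    have a := card_Win_fib hs (!b (r, cB) (Fin.last T)) n₂
      (fun i hi => no_short hsp (hγ'.2 ((r, cB), Fin.last T)).1 _ (by omega))
      (τ (Sum.inr (Sum.inr (g₀ r))))
    have a' : univ.filter (fun v => ∀ r' ∈ F, g₀ r' = g₀ r → v ∈ W r') =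
        Win s (!b (r, cB) (Fin.last T)) (h * n₂) (γ ((r, cB), Fin.last T)) := by
      ext v
      simp only [mem_filter, mem_univ, true_and]
      constructor
      · intro q; simpa [hW] using q r hr rfl
      · intro q r' hr' e
        rw [hg₀ hr' hr e, hW]; exact q
    rw [← a'] at a
    have c := card_union_le (univ.biUnion (fun r => Near s 2 (sp r)))
      (univ.biUnion (fun x => Near s 2 (γ x)))
    have d := card_biUnion_le_card_mul univ (fun r => Near s 2 (sp r)) _
      (fun r _ => card_Near s 2 _)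
    have e := card_biUnion_le_card_mul univ (fun x => Near s 2 (γ x)) _
      (fun r _ => card_Near s 2 _)
    rw [card_univ, hI'] at e
    rw [card_univ, Fintype.card_fin] at d
    omega
  obtain ⟨A, hA⟩ : ∃ A : Fin k → Finset V,
    A = fun g => if g ∈ G then A₀ g else fib pos (τ (Sum.inr (Sum.inr g))) := ⟨_, rfl⟩
  have hprod : ∀ (B : Fin k → Finset V), (Fintype.piFinset
      (fun g => if g ∈ G then A₀ g else B g)).card =
      (∏ g ∈ G, (A₀ g).card) * ∏ g ∈ Gᶜ, (B g).card := by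
    intro B
    rw [Fintype.card_piFinset, ← prod_mul_prod_compl G]
    congr 1
    · exact prod_congr rfl (fun g hg => by rw [if_pos hg])
    · exact prod_congr rfl (fun g hg => by rw [if_neg (mem_compl.mp hg)])
  have hpi : (Fintype.piFinset A).card = (∏ g ∈ G, (A₀ g).card) * n ^ k' := by
    rw [hA, hprod]
    simp only [hfib, prod_const, hGc']
  obtain ⟨B, hB⟩ : ∃ B : Fin k → (Fin k → V) → Finset V, B = fun g β => F.biUnion W ∪
      (univ.erase (Sum.inr (Sum.inr g))).biUnion
        (fun j : Cut R T k => Near s 2 (tl sp γ β j)) := ⟨_, rfl⟩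
  obtain ⟨M, hM⟩ : ∃ M : Chn R × Fin (T + 1) → Finset (Fin k → V), M = fun x =>
    Fintype.piFinset (fun g => if g ∈ G then A₀ g else
      fib pos (τ (Sum.inr (Sum.inr g))) \ Win s (b x.1 x.2) (h * n₁) (γ x)) := ⟨_, rfl⟩
  have hcov : Fintype.piFinset A ⊆ GoodB pos s sp b τ cB F g₀ γ ∪
      (Gᶜ.biUnion (fun g => (Fintype.piFinset A).filter (fun β => β g ∈ B g β)) ∪
        univ.biUnion M) := by
    intro β hβ
    rw [mem_union, mem_union]
    by_contra hcon
    push Not at hcon
    obtain ⟨q1, q2, q3⟩ := hcon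
    have hβ' := Fintype.mem_piFinset.mp hβ
    have a0 : ∀ g ∈ G, β g ∈ A₀ g := by
      intro g hg; simpa [hA, hg] using hβ' g
    have a1 : ∀ g, g ∉ G → β g ∈ fib pos (τ (Sum.inr (Sum.inr g))) := by
      intro g hg; simpa [hA, hg] using hβ' g
    have a2 : ∀ g, g ∉ G → β g ∉ B g β := fun g hg h =>
      q2 (mem_biUnion.mpr ⟨g, mem_compl.mpr hg, mem_filter.mpr ⟨hβ, h⟩⟩)
    have a0' := a0
    simp only [hA₀, mem_sdiff, mem_inter, mem_union, mem_biUnion, mem_univ, true_and, not_or,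
      not_exists, mem_fib, mem_filter] at a0'
    have hmem : ∀ r ∈ F, g₀ r ∈ G := fun r hr => hG ▸ mem_image_of_mem _ hr
    apply q1
    apply good_of_avoid hs hsp0 hspi hsp hN₁ hN₂ hγ _ _ (fun r hr => (a0' _ (hmem r hr)).2.1)
      (fun r hr => (a0' _ (hmem r hr)).2.2)
    · intro g hg r hr h
      exact a2 g (hG ▸ hg) (by
        rw [hB]; exact mem_union_left _ (mem_biUnion.mpr ⟨r, hr, by rw [hW]; exact h⟩))
    · intro g hg j hj h
      exact a2 g (hG ▸ hg) (by
        rw [hB]; exact mem_union_right _ (mem_biUnion.mpr ⟨j, mem_erase.mpr ⟨hj, mem_univ _⟩, h⟩))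
    · intro x
      by_contra hcon
      push Not at hcon
      apply q3
      refine mem_biUnion.mpr ⟨x, mem_univ _, ?_⟩
      rw [hM, Fintype.mem_piFinset]
      intro g
      by_cases hg : g ∈ G
      · rw [if_pos hg]; exact a0 g hg
      · rw [if_neg hg]; exact mem_sdiff.mpr ⟨a1 g hg, hcon g⟩
    · intro g
      by_cases hg : g ∈ G
      · exact (a0' g hg).1.2
      · exact mem_fib.mp (a1 g hg)
    · intro r hr
      simpa [hW] using (a0' _ (hmem r hr)).1.1 r hr rfl
  have hbad1 : ∀ g ∈ Gᶜ, ((Fintype.piFinset A).filter (fun β => β g ∈ B g β)).card * n ≤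
      (Fintype.piFinset A).card * (F.card * (h * n₂) + 5 * K) := by
    intro g hg
    have hg := mem_compl.mp hg
    have := resample_pi A g _ (filter_subset (fun β => β g ∈ B g β) _)
      (F.card * (h * n₂) + 5 * K) ?_
    · rwa [show (A g).card = n by rw [hA]; simp only [if_neg hg]; exact hfib _] at this
    · intro β _
      refine le_trans (card_le_card (t := B g β) ?_) ?_
      · intro v hv
        have := (mem_filter.mp (mem_filter.mp hv).2).2
        simp only [Function.update_self, hB, mem_union, mem_biUnion, mem_erase] at this ⊢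
        rcases this with h | ⟨j, h, h'⟩
        · exact Or.inl h
        · refine Or.inr ⟨j, h, ?_⟩
          have : tl sp γ (Function.update β g v) j = tl sp γ β j := by
            rcases j with r | x | g'
            · rfl
            · rfl
            · exact Function.update_of_ne (by rintro rfl; exact h.1 rfl) _ _
          rwa [this] at h'
      · rw [hB]
        refine (card_union_le _ _).trans (Nat.add_le_add
          (card_biUnion_le_card_mul _ _ _ (fun r _ => by rw [hW]; exact card_Win _ _ _ _)) ?_)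
        refine (card_biUnion_le_card_mul _ _ _ (fun r _ => card_Near s 2 _)).trans ?_
        rw [mul_comm]
        apply Nat.mul_le_mul_left
        rw [← hK']
        exact card_le_univ _
  have hbad2 : ∀ x, (M x).card * (k' * n₁) ≤ (Fintype.piFinset A).card * n := by
    intro x
    rw [hM, hpi]
    simp only
    rw [hprod, mul_assoc, mul_assoc]
    apply Nat.mul_le_mul_left
    have a : ∀ q, (fib pos q \ Win s (b x.1 x.2) (h * n₁) (γ x)).card + n₁ ≤ n := by
      intro q
      have a := card_Win_fib hs (b x.1 x.2) n₁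
        (fun i hi => no_short hsp (hγ'.2 x).1 _ (by omega)) q
      have c := card_sdiff_add_card_inter (fib pos q) (Win s (b x.1 x.2) (h * n₁) (γ x))
      rw [inter_comm, hfib] at c
      omega
    have hle : n₁ ≤ n := le_trans (Nat.le_add_left _ _) (a 0)
    have c := prod_le_pow_card Gᶜ
      (fun g => (fib pos (τ (Sum.inr (Sum.inr g))) \ Win s (b x.1 x.2) (h * n₁) (γ x)).card)
      (n - n₁) (fun g _ => by have := a (τ (Sum.inr (Sum.inr g))); omega)
    rw [hGc'] at c
    refine (Nat.mul_le_mul_right _ c).trans ?_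
    have d := pow_add_mul_le_add_pow (a := n - n₁) (b := n₁) (Nat.zero_le _) (Nat.zero_le _)
      (k' + 1)
    rw [Nat.sub_add_cancel hle, Nat.add_sub_cancel, Nat.cast_id] at d
    rw [← pow_succ]
    refine le_trans ?_ d
    refine le_trans ?_ (Nat.le_add_left _ _)
    rw [mul_left_comm, ← mul_assoc]
    exact Nat.mul_le_mul_right _ (Nat.mul_le_mul_right _ (Nat.le_succ _))
  have h1 := (card_le_card hcov).trans ((card_union_le _ _).trans
    (Nat.add_le_add_left ((card_union_le _ _).trans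
      (Nat.add_le_add card_biUnion_le card_biUnion_le)) _))
  have h2 : 4 * ∑ g ∈ Gᶜ, ((Fintype.piFinset A).filter (fun β => β g ∈ B g β)).card ≤
      (Fintype.piFinset A).card := by
    apply Nat.le_of_mul_le_mul_right _ hn0
    rw [mul_assoc, sum_mul]
    refine (Nat.mul_le_mul_left 4 (sum_le_sum hbad1)).trans ?_
    rw [sum_const, smul_eq_mul, hGc']
    refine le_trans ?_ (Nat.mul_le_mul_left _ c1)
    rw [mul_left_comm (Fintype.piFinset A).card, ← mul_assoc]
    apply Nat.mul_le_mul_right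
    omega
  have h3 : 4 * ∑ x, (M x).card ≤ (Fintype.piFinset A).card := by
    apply Nat.le_of_mul_le_mul_right _ (Nat.mul_pos hk0 hn1)
    rw [mul_assoc, sum_mul]
    refine (Nat.mul_le_mul_left 4 (sum_le_sum (fun x _ => hbad2 x))).trans ?_
    rw [sum_const, smul_eq_mul, card_univ, hI']
    refine le_trans (le_of_eq ?_) (Nat.mul_le_mul_left _ c2)
    ring
  have h4 := Nat.mul_le_mul_right (n ^ k') (pow_card_le_prod G _ _ hA₀c)
  rw [← hpi, hGc] at h4
  omega

end Pool.Agent.MP_755159_pr.G
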