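import Pool.Agent.MP_755159_pr.G.Place

/-! Overlap estimates for two placements over a general base graph. -/

set_option linter.unusedSectionVars false

namespace Pool.Agent.MP_755159_pr.G

open Finset

variable {V : Type} [Fintype V] [DecidableEq V] {R T k : ℕ} {h : ℕ} [Fact (2 < h)]
  {κ : Type} [DecidableEq κ] {W : Type} [Fintype W] [DecidableEq W] {n : ℕ}

/-- valid configurations -/
structure Val (C : Cov h κ V W n) (sp : Fin R → V) (α : Bool → κ × Bool) (b : Bits R T)
    (dt : End R T k → κ × Bool) (t : Cut R T k → V) (p : End R T k → End R T k) : Prop where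
  hsp : ∀ r, t (Sum.inl r) = sp r
  ov : Ov C t dt
  sep : Sep C.s t
  tp : IsTP dt (XX b) p
  chn : ∀ e, e ∉ XX b → dt (ch b e) = op (dt e)
  st : ∀ i, dt (se i) = α i.2
  ac : Acyc (XX b) kap p

lemma half_TP {D : Type} [Fintype D] [DecidableEq D] {ty : D → κ × Bool} {X : Finset D}
    {P : D → D} (h : IsTP ty X P) : ∃ S ⊆ X, (∀ x ∈ S, P x ∉ S) ∧ (∀ x ∈ X, x ∈ S ∨ P x ∈ S) ∧
      2 * S.card = X.card := by
  have h1 : ∀ x ∈ X, P x ∈ X.filter (fun d => (ty d).2 = true) ↔
      x ∉ X.filter (fun d => (ty d).2 = true) := by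
    intro x hx
    simp [hx, (h.2 x hx).1, (h.2 x hx).2.2]
  have hinj : Set.InjOn P X := by
    intro x hx y hy e
    rw [← (h.2 x hx).2.1, e, (h.2 y hy).2.1]
  refine ⟨X.filter (fun d => (ty d).2 = true), filter_subset _ _, ?_, ?_, ?_⟩
  · intro x hx hx'
    exact (h1 x (mem_filter.mp hx).1).mp hx' hx
  · intro x hx
    rw [h1 x hx]
    exact em _
  · have a := card_sdiff_add_card_eq_card (filter_subset (fun d => (ty d).2 = true) X)
    have c : (X.filter (fun d => (ty d).2 = true)).card ≤
        (X \ X.filter (fun d => (ty d).2 = true)).card := by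
      apply card_le_card_of_injOn P _ (hinj.mono (filter_subset _ _))
      intro x hx
      have hx' := (mem_filter.mp hx).1
      exact mem_coe.mpr (mem_sdiff.mpr ⟨(h.2 x hx').1, fun q => (h1 x hx').mp q hx⟩)
    have d : (X \ X.filter (fun d => (ty d).2 = true)).card ≤
        (X.filter (fun d => (ty d).2 = true)).card := by
      apply card_le_card_of_injOn P _ (hinj.mono sdiff_subset)
      intro x hx
      have hx' := mem_sdiff.mp hx
      exact mem_coe.mpr ((h1 x hx'.1).mpr hx'.2)
    omega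

lemma Rl_Loc (C : Cov h κ V W n) (t : Cut R T k → V) (dt : End R T k → κ × Bool)
    (P : End R T k → End R T k) : Loc C.tw (univ.image (lw C t dt)) (Rl C t dt P) := by
  constructor
  · intro m _ h a ha
    obtain ⟨e, -, rfl⟩ := mem_image.mp ha
    rw [h e]
    exact mem_image_of_mem _ (mem_univ _)
  · intro m m' h h' e
    rw [h' _ (mem_image_of_mem _ (mem_univ _)), h e]

section
variable {C : Cov h κ V W n} {sp : Fin R → V} {α : Bool → κ × Bool} {K : ℕ}
  (hK : K = R + 2 * R * (T + 1) + k)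
include hK

theorem first_moment {b : Bits R T} {dt : End R T k → κ × Bool} {t : Cut R T k → V}
    {p : End R T k → End R T k} (h : Val C sp α b dt t p) (hn0 : 0 < n) :
    (TP C.tw univ).card ≤ n ^ K * (Ext C.tw (Rl C t dt (PP b p))).card := by
  have hP := PP_isTP h.tp h.chn
  have hinj := h.ov.lw_inj h.sep
  obtain ⟨S, -, a, c, d⟩ := half_TP hP
  rw [card_univ, card_End hK] at d
  refine (Ext_down_iter C.nW (lw C t dt) (fun e => lw C t dt (PP b p e)) S ?_ ?_).trans
    (Nat.mul_le_mul (Nat.pow_le_pow_right hn0 (by omega)) (Ext_congr ?_))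
  · intro x _
    rw [tw_lw, tw_lw, hP.pos_eq]
  · intro x hx y hy hxy
    refine ⟨fun e => hxy (hinj e), fun e => a y hy (hinj e ▸ hx), fun e => hxy (hP.inj (hinj e))⟩
  · intro m hm hS e
    rcases c e (mem_univ _) with h' | h'
    · exact hS e h'
    · have := hS _ h'
      rw [hP.invol] at this
      rw [← this, hm.invol]

theorem removal {Q : (W → W) → Prop} {A : Finset W} (hQ : Loc C.tw A Q) (hA : A.card ≤ 2 * K)
    {f : End R T k → W} (hinj : Function.Injective f) (P : End R T k → End R T k)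
    (D : Finset (End R T k)) (h1 : ∀ x ∈ D, f x ∉ A) (h2 : ∀ x ∈ D, P x ∉ D) :
    (Ext C.tw (fun m => Q m ∧ ∀ e, m (f e) = f (P e))).card * (n - 10 * K) ^ D.card ≤
      (Ext C.tw (fun m => Q m ∧ ∀ e, e ∉ D → P e ∉ D → m (f e) = f (P e))).card := by
  obtain ⟨S, hS⟩ : ∃ S : Finset (End R T k), ∀ e, e ∈ S ↔ e ∉ D ∧ P e ∉ D := by
    classical
    exact ⟨univ.filter (fun e => e ∉ D ∧ P e ∉ D), by simp⟩
  have := Ext_up_iter C.nW (hQ.add S f (fun e => f (P e))) f
    (fun e => f (P e)) (10 * K) D ?_ ?_ ?_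
  · refine le_trans (Nat.mul_le_mul_right _ (Ext_congr ?_)) (this.trans (Ext_congr ?_))
    · intro m _ h
      exact ⟨⟨h.1, fun x _ => h.2 x⟩, fun x _ => h.2 x⟩
    · intro m _ h
      exact ⟨h.1, fun e a c => h.2 e (by simp [hS, a, c])⟩
  · intro x hx
    simp only [mem_union, mem_image, not_or, not_exists, not_and, hS]
    exact ⟨h1 x hx, fun y hy e => hy.1 (hinj e ▸ hx), fun y hy e => hy.2 (hinj e ▸ hx)⟩
  · intro x hx y hy hxy
    exact ⟨fun e => hxy (hinj e), fun e => h2 y hy (hinj e ▸ hx)⟩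
  · have a := card_union_le A (S.image f ∪ S.image (fun e => f (P e)))
    have b := card_union_le (S.image f) (S.image (fun e => f (P e)))
    have c := card_image_le (s := S) (f := f)
    have d := card_image_le (s := S) (f := fun e => f (P e))
    have e := card_le_univ S
    have f := card_le_univ D
    rw [card_End hK] at e f
    omega

theorem untouched {Q : (W → W) → Prop} {A : Finset W} (hQ : Loc C.tw A Q) (hA : A.card ≤ 2 * K)
    {b : Bits R T} {dt : End R T k → κ × Bool} {t : Cut R T k → V}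
    {p : End R T k → End R T k} (h : Val C sp α b dt t p) (h1 : ∀ x ∈ XX b, lw C t dt x ∉ A) :
    (Ext C.tw (fun m => Q m ∧ Rl C t dt (PP b p) m)).card * (n - 10 * K) ^ (R + k) ≤
      (Ext C.tw (fun m => Q m ∧ ∀ e, e ∉ XX b → m (lw C t dt e) = lw C t dt (ch b e))).card := by
  obtain ⟨S, hS, a, -, d⟩ := half_TP h.tp
  rw [card_XX] at d
  rw [show R + k = S.card by omega]
  refine (removal hK hQ hA (h.ov.lw_inj h.sep) (PP b p) S (fun x hx => h1 x (hS hx)) ?_).trans
    (Ext_congr ?_)
  · intro x hx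
    rw [PP_of_mem p (hS hx)]
    exact a x hx
  · intro m _ hm
    refine ⟨hm.1, fun e he => ?_⟩
    have := hm.2 e (fun h => he (hS h))
    rw [PP_of_notMem h.tp he] at this
    exact this (fun h => ch_notMem he (hS h))

end

lemma chain_pre {C : Cov h κ V W n} {t t' : Cut R T k → V} {dt dt' : End R T k → κ × Bool}
    (ho : Ov C t dt) (ho' : Ov C t' dt') (h0 : ∀ r, t (Sum.inl r) = t' (Sum.inl r))
    {b b' : Bits R T} {m : W → W} (i : Chn R) (h0' : dt (se i) = dt' (se i)) (d : Fin (T + 1))
    (hb : ∀ l < d, b i l = b' i l ∧ dt (xo b i l) = dt' (xo b' i l))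
    (h1 : ∀ l ≤ d, m (lw C t dt (ch b (ye b i l))) = lw C t dt (ye b i l))
    (h2 : ∀ l ≤ d, m (lw C t' dt' (ch b' (ye b' i l))) = lw C t' dt' (ye b' i l)) :
    ∀ l ≤ d, loc C.s t (ye b i l) = loc C.s t' (ye b' i l) := by
  intro l
  induction l using Fin.induction with
  | zero =>
    intro h
    apply ho.loc_eq ho'
    rw [← h1 _ h, ← h2 _ h, ch_ye_zero, ch_ye_zero, lw, lw, h0',
      (loc_eq_iff C.s t t' _).mpr (h0 _)]
  | succ l ih =>
    intro h
    have hl : l.castSucc < d := lt_of_lt_of_le Fin.castSucc_lt_succ h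
    apply ho.loc_eq ho'
    rw [← h1 _ h, ← h2 _ h, ch_ye_succ, ch_ye_succ, lw, lw, (hb _ hl).2, ← fl_ye b, ← fl_ye b',
      loc_fl, loc_fl, ih hl.le]
    simp only [ye, (hb _ hl).1]

lemma chain_edge {f : End R T k → W} {b : Bits R T} {m : W → W}
    {e : End R T k} (h : m (f (ch b e)) = f (ch b (ch b e))) : m (f (ch b e)) = f e := by
  rwa [ch_ch] at h

lemma unique_gamma {C : Cov h κ V W n} {sp : Fin R → V} {b : Bits R T} {m : W → W}
    {dt : End R T k → κ × Bool} {γ γ' : Chn R × Fin (T + 1) → V} {β β' : Fin k → V}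
    (ho : Ov C (tl sp γ β) dt) (ho' : Ov C (tl sp γ' β') dt)
    (h : ∀ e, e ∉ XX b → m (lw C (tl sp γ β) dt e) = lw C (tl sp γ β) dt (ch b e))
    (h' : ∀ e, e ∉ XX b → m (lw C (tl sp γ' β') dt e) = lw C (tl sp γ' β') dt (ch b e)) :
    γ = γ' := by
  funext ⟨i, l⟩
  have := chain_pre ho ho' (fun _ => rfl) (b := b)
    (b' := b) (m := m) i rfl l (fun _ _ => ⟨rfl, rfl⟩)
    (fun l _ => chain_edge (h _ (ch_notMem (ye_notMem b i l))))
    (fun l _ => chain_edge (h' _ (ch_notMem (ye_notMem b i l)))) l le_rfl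
  exact (loc_eq_iff _ _ _ _).mp this

theorem crude {C : Cov h κ V W n} {sp : Fin R → V} {α : Bool → κ × Bool} (Q : (W → W) → Prop)
    {b : Bits R T} {dt : End R T k → κ × Bool} {p : End R T k → End R T k} {ι : Type}
    (S : Finset ι) (t : ι → Cut R T k → V) (hinj : Set.InjOn t S)
    (h : ∀ i ∈ S, Val C sp α b dt (t i) p) :
    ∑ i ∈ S, (Ext C.tw (fun m => Q m ∧ Rl C (t i) dt (PP b p) m)).card ≤ (Ext C.tw Q).card := by
  classical
  refine (sum_card_le_mul S _ (Ext C.tw Q) 1 ?_ ?_).trans (by simp)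
  · intro i _ m hm
    rw [mem_Ext] at hm ⊢
    exact ⟨hm.1, hm.2.1⟩
  · intro m _
    rw [card_le_one]
    intro i hi i' hi'
    rw [mem_filter, mem_Ext] at hi hi'
    apply hinj hi.1 hi'.1
    by_contra hcon
    obtain ⟨j, hj⟩ := Function.ne_iff.mp hcon
    obtain ⟨r, hr⟩ := full_acyc (h i hi.1).tp (h i hi.1).ac
      (univ.filter (fun e => t i e.1 ≠ t i' e.1)) ⟨(j, true), by simpa using hj⟩
      (by intro e he; simpa [fl] using he) (by
        intro e he
        simp only [mem_filter, mem_univ, true_and] at he ⊢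
        intro e'
        apply he
        rw [← (h i hi.1).ov.lw_eq_iff (h i' hi'.1).ov] at e' ⊢
        apply hi.2.1.inj
        rw [hi.2.2.2 e, hi'.2.2.2 e, e'])
    simp only [mem_filter, mem_univ, true_and, se] at hr
    exact hr (by rw [(h i hi.1).hsp, (h i' hi'.1).hsp])

lemma PP_ZZ {b : Bits R T} {d : Chn R → Fin (T + 1)} {ty : End R T k → κ × Bool}
    {p : End R T k → End R T k} (hp : IsTP ty (XX b) p) {e : End R T k} (he : e ∈ ZZ b d) :
    PP b p e ∈ ZZ b d := by
  by_cases h : e ∈ XX b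
  · rw [PP_of_mem p h]
    exact XX_sub_ZZ b d (hp.2 e h).1
  · rw [PP_of_notMem hp h]
    exact ch_ZZ he

theorem touched_exists {C : Cov h κ V W n} {sp : Fin R → V} {α : Bool → κ × Bool}
    {b b' : Bits R T} {dt dt' : End R T k → κ × Bool} {t t' : Cut R T k → V}
    {p p' : End R T k → End R T k} (h : Val C sp α b dt t p) (h' : Val C sp α b' dt' t' p')
    {d : Chn R → Fin (T + 1)}
    (hd : ∀ i, ¬ (b i (d i) = b' i (d i) ∧ dt (xo b i (d i)) = dt' (xo b' i (d i))))
    (hd' : ∀ i, ∀ l < d i, b i l = b' i l ∧ dt (xo b i l) = dt' (xo b' i l)) {m : W → W}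
    (hr : Rl C t dt (PP b p) m) (hr' : Rl C t' dt' (PP b' p') m)
    (hx : ∃ x ∈ XX b', lw C t' dt' x ∈ univ.image (lw C t dt)) :
    (∀ i, lw C t' dt' (xo b' i (d i)) ∉ univ.image (lw C t dt)) ∧
    ∃ u, u ∈ ZZ b' d ∧ fl u ∈ ZZ b' d ∧ lw C t' dt' u ∈ univ.image (lw C t dt) ∧
      lw C t' dt' (fl u) ∉ univ.image (lw C t dt) := by
  have hz : ∀ i, lw C t' dt' (xo b' i (d i)) ∉ univ.image (lw C t dt) := by
    intro i hi
    obtain ⟨e, -, he0⟩ := mem_image.mp hi
    have he := h.ov.loc_eq h'.ov he0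
    have := chain_pre h.ov h'.ov (fun r => by rw [h.hsp, h'.hsp]) (b := b)
      (b' := b') (m := m) i (by rw [h.st, h'.st]) (d i) (hd' i)
      (fun l _ => chain_edge (by
        rw [hr, PP_of_notMem h.tp (ch_notMem (ye_notMem b i l))]))
      (fun l _ => chain_edge (by
        rw [hr', PP_of_notMem h'.tp (ch_notMem (ye_notMem b' i l))])) (d i) le_rfl
    rw [← fl_ye, loc_fl, ← this] at he
    by_cases hbb : b i (d i) = b' i (d i)
    · have hb : (ye b' i (d i) : End R T k).2 = (ye b i (d i) : End R T k).2 := hbb.symm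
      rw [hb, ← loc_fl, fl_ye] at he
      have := loc_inj C.hs h.sep he
      refine hd i ⟨hbb, ?_⟩
      rw [← this, ← tw_lw C t dt, he0, tw_lw]
    · have hb : (!(ye b' i (d i) : End R T k).2) = (ye b i (d i) : End R T k).2 := by
        simp only [ye]
        exact (Bool.eq_not_iff.mpr hbb).symm
      rw [hb] at he
      exact away_ne C.hs h.sep _ _ he.symm
  refine ⟨hz, ?_⟩
  by_contra hcon
  push Not at hcon
  obtain ⟨x, hx, hx'⟩ := hx
  obtain ⟨i, hi⟩ := full_acyc h'.tp h'.ac
    ((ZZ b' d).filter (fun e => lw C t' dt' e ∈ univ.image (lw C t dt)))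
    ⟨x, mem_filter.mpr ⟨XX_sub_ZZ b' d hx, hx'⟩⟩ (by
      intro e he
      rw [mem_filter] at he ⊢
      have : fl e ∈ ZZ b' d := by
        by_contra hc
        obtain ⟨i, rfl⟩ := fl_ZZ he.1 hc
        exact hz i he.2
      exact ⟨this, hcon e he.1 this he.2⟩) (by
      intro e he
      rw [mem_filter] at he ⊢
      refine ⟨PP_ZZ h'.tp he.1, ?_⟩
      obtain ⟨e', -, he'⟩ := mem_image.mp he.2
      rw [← hr', ← he', hr]
      exact mem_image_of_mem _ (mem_univ _))
  exact se_ZZ i (mem_filter.mp hi).1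

theorem touched_sum {C : Cov h κ V W n} {sp : Fin R → V} {α : Bool → κ × Bool} {K : ℕ}
    (hK : K = R + 2 * R * (T + 1) + k) (hnK : 10 * K < n)
    {Q : (W → W) → Prop} {A : Finset W} (hQ : Loc C.tw A Q) (hA : A.card ≤ 2 * K)
    {b : Bits R T} {dt : End R T k → κ × Bool} {p : End R T k → End R T k}
    (d : Chn R → Fin (T + 1)) {u : End R T k} (hu : u ∈ ZZ b d) (hu' : fl u ∈ ZZ b d) {ι : Type}
    (S : Finset ι) (t : ι → Cut R T k → V) (hinj : Set.InjOn t S)
    (h : ∀ i ∈ S, Val C sp α b dt (t i) p)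
    (h1 : ∀ i ∈ S, ∀ x, lw C (t i) dt (xo b x (d x)) ∉ A)
    (h2 : ∀ i ∈ S, lw C (t i) dt u ∈ A) (h3 : ∀ i ∈ S, lw C (t i) dt (fl u) ∉ A) :
    (∑ i ∈ S, (Ext C.tw (fun m => Q m ∧ Rl C (t i) dt (PP b p) m)).card) *
      (n - 10 * K) ^ (R + 1) ≤ 2 * K * (Ext C.tw Q).card := by
  classical
  rcases S.eq_empty_or_nonempty with rfl | ⟨i₀, hi₀⟩
  · simp
  have hp := (h i₀ hi₀).tp
  have hP := PP_isTP hp (h i₀ hi₀).chn
  obtain ⟨kz, hkz⟩ : ∃ kz : End R T k → End R T k,
    kz = fun e => if fl e ∈ ZZ b d ∧ e.1 ≠ u.1 then fl e else e := ⟨_, rfl⟩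
  have hk1 : ∀ e, fl e ∈ ZZ b d → e.1 ≠ u.1 → kz e = fl e := by
    intro e a c; simp [hkz, a, c]
  have hk2 : ∀ e, kz e = e ∨ kz e = fl e := by
    intro e; simp only [hkz]; split_ifs <;> simp
  obtain ⟨D, hDZ, hDk, huD, hDc, hD⟩ := exists_transversal (ZZ b d) (PP b p) kz
    (fun x hx => ⟨PP_ZZ hp hx, hP.invol x⟩) (fun x _ => (ne_of_ty (hP.pos_eq x)).symm)
    (by
      intro x hx
      by_cases hc : fl x ∈ ZZ b d ∧ x.1 ≠ u.1
      · rw [hk1 x hc.1 hc.2, hk1 (fl x) (by simpa using hx) hc.2]
        exact ⟨hc.1, fl_fl x⟩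
      · have : kz x = x := by simp only [hkz, if_neg hc]
        rw [this, this]
        exact ⟨hx, rfl⟩)
    (by
      intro U hUZ hne a c
      by_contra hcon
      push Not at hcon
      obtain ⟨i, hi⟩ := full_acyc hp (h i₀ hi₀).ac U hne
        (fun e he => ((hk2 e).resolve_left (hcon e he)) ▸ a e he) c
      exact se_ZZ i (hUZ hi)) u
  have hDR : R + 1 ≤ D.card := by
    have hsub : insert u (insert (fl u) (univ.image (fun x => xo b x (d x)))) ⊆
        (ZZ b d).filter (fun x => kz x = x) := by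
      intro e he
      simp only [mem_insert, mem_image, mem_univ, true_and] at he
      rw [mem_filter]
      rcases he with rfl | rfl | ⟨x, rfl⟩
      · exact ⟨hu, by simp [hkz]⟩
      · exact ⟨hu', by simp [hkz, fl]⟩
      · exact ⟨by simp, by simp [hkz]⟩
    have := card_le_card hsub
    rw [card_insert_of_notMem, card_insert_of_notMem, card_image_of_injective, card_univ,
      Fintype.card_prod, Fintype.card_fin, Fintype.card_bool] at this
    · omega
    · intro x y e
      simp only [xo, Prod.mk.injEq, Sum.inr.injEq, Sum.inl.injEq] at e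
      exact e.1.1
    · intro he
      obtain ⟨x, -, e⟩ := mem_image.mp he
      rw [← fl_fl u, ← e] at hu
      simp at hu
    · intro he
      rcases mem_insert.mp he with e | he
      · exact fl_ne u e.symm
      · obtain ⟨x, -, e⟩ := mem_image.mp he
        rw [← e] at hu'
        simp at hu'
  have hDP : ∀ x ∈ D, PP b p x ∉ D := by
    intro x hx hx'
    obtain ⟨y, hy, -, hy'⟩ := hD {x, PP b p x} (by
        intro y hy
        simp only [mem_insert, mem_singleton] at hy
        rcases hy with rfl | rfl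
        · exact hDZ hx
        · exact hDZ hx') ⟨x, by simp⟩ (by
        intro y hy
        simp only [mem_insert, mem_singleton] at hy ⊢
        rcases hy with rfl | rfl
        · exact Or.inl (hDk _ hx)
        · exact Or.inr (hDk _ hx')) (by
        intro y hy
        simp only [mem_insert, mem_singleton] at hy ⊢
        rcases hy with rfl | rfl
        · exact Or.inr rfl
        · exact Or.inl (hP.invol _))
    simp only [mem_insert, mem_singleton] at hy
    rcases hy with rfl | rfl
    · exact hy' hx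
    · exact hy' hx'
  have hDA : ∀ i ∈ S, ∀ x ∈ D, lw C (t i) dt x ∉ A := by
    intro i hi x hx
    by_cases c1 : fl x ∈ ZZ b d
    · by_cases c2 : x.1 = u.1
      · have : x = fl u := by
          have hne : x ≠ u := fun e => huD (e ▸ hx)
          refine Prod.ext c2 (Bool.eq_not_iff.mpr fun e => hne (Prod.ext c2 e))
        rw [this]; exact h3 i hi
      · exact absurd ((hk1 x c1 c2).symm.trans (hDk x hx)) (fl_ne x)
    · obtain ⟨y, rfl⟩ := fl_ZZ (hDZ hx) c1
      exact h1 i hi y
  rw [sum_mul]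
  refine le_trans (sum_le_sum (fun i hi => le_trans (Nat.mul_le_mul_left _
    (Nat.pow_le_pow_right (by omega) hDR))
    (removal hK hQ hA ((h i hi).ov.lw_inj (h i hi).sep) (PP b p) D (hDA i hi) hDP))) ?_
  refine sum_card_le_mul S _ (Ext C.tw Q) _ ?_ ?_
  · intro i _ m hm
    rw [mem_Ext] at hm ⊢
    exact ⟨hm.1, hm.2.1⟩
  · intro m _
    refine le_trans (card_le_card_of_injOn (fun i => lw C (t i) dt u) ?_ ?_) hA
    · intro i hi
      exact h2 i (mem_filter.mp hi).1
    · intro i hi i' hi' huu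
      simp only [coe_filter, Set.mem_ofPred_eq, mem_Ext] at hi hi'
      apply hinj hi.1 hi'.1
      by_contra hcon
      obtain ⟨j, hj⟩ := Function.ne_iff.mp hcon
      have hedge : ∀ i ∈ S, (∀ e, e ∉ D → PP b p e ∉ D →
          m (lw C (t i) dt e) = lw C (t i) dt (PP b p e)) → ∀ x, ∀ l ≤ d x,
          m (lw C (t i) dt (ch b (ye b x l))) = lw C (t i) dt (ye b x l) := by
        intro i _ hm x l hl
        have a : (ye b x l : End R T k) ∉ ZZ b d := by simpa using hl
        have c : PP b p (ch b (ye b x l)) = ye b x l := by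
          rw [PP_of_notMem hp (ch_notMem (ye_notMem b x l)), ch_ch]
        have := hm (ch b (ye b x l)) (fun h => a (by simpa [ch_ch] using ch_ZZ (hDZ h)))
          (fun h => a (c ▸ hDZ h))
        rwa [c] at this
      have hU : ∀ e : End R T k, t i e.1 ≠ t i' e.1 → e ∈ ZZ b d ∧ kz e = fl e := by
        have hpre : ∀ x l, t i (Sum.inr (Sum.inl (x, l))) ≠ t i' (Sum.inr (Sum.inl (x, l))) →
            d x < l := by
          intro x l hne
          by_contra hc
          exact hne ((loc_eq_iff _ _ _ _).mp (chain_pre (h i hi.1).ov (h i' hi'.1).ov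
            (fun r => by rw [(h i hi.1).hsp, (h i' hi'.1).hsp]) (b := b) (b' := b) (m := m) x rfl
            (d x) (fun _ _ => ⟨rfl, rfl⟩) (hedge i hi.1 hi.2.2.2 x) (hedge i' hi'.1 hi'.2.2.2 x) l
            (not_lt.mp hc)))
        have hZ : ∀ e : End R T k, t i e.1 ≠ t i' e.1 → e ∈ ZZ b d := by
          intro e
          induction e using End.cases4 b with
          | h1 x => intro hne; exact absurd (by rw [se, (h i hi.1).hsp, (h i' hi'.1).hsp]) hne
          | h2 x l => intro hne; simpa using hpre x l hne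
          | h3 x l => intro hne; simpa using (hpre x l hne).le
          | h4 g c => simp
        intro e he
        refine ⟨hZ e he, hk1 e (hZ (fl e) he) ?_⟩
        intro e'
        rw [e'] at he
        exact he (((h i hi.1).ov.lw_eq_iff (h i' hi'.1).ov _).mp huu)
      obtain ⟨x, hx, hx1, hx2⟩ := hD (univ.filter (fun e => t i e.1 ≠ t i' e.1) ∪
          D.filter (fun x => t i (PP b p x).1 ≠ t i' (PP b p x).1)) (by
          intro e he
          simp only [mem_union, mem_filter, mem_univ, true_and] at he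
          rcases he with he | he
          · exact (hU e he).1
          · exact hDZ he.1) ⟨(j, true), by simp [hj]⟩ (by
          intro e he
          simp only [mem_union, mem_filter, mem_univ, true_and] at he ⊢
          rcases he with he | he
          · rw [(hU e he).2]; exact Or.inl he
          · rw [hDk e he.1]; exact Or.inr he) (by
          intro e he
          simp only [mem_union, mem_filter, mem_univ, true_and] at he ⊢
          rcases he with he | he
          · by_cases hc : PP b p e ∈ D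
            · exact Or.inr ⟨hc, by rwa [hP.invol]⟩
            · left
              have heD : e ∉ D := fun h => fl_ne e ((hU e he).2.symm.trans (hDk e h))
              intro e'
              apply he
              rw [← (h i hi.1).ov.lw_eq_iff (h i' hi'.1).ov] at e' ⊢
              apply hi.2.1.inj
              rw [hi.2.2.2 e heD hc, hi'.2.2.2 e heD hc, e']
          · exact Or.inl he.2)
      simp only [mem_union, mem_filter, mem_univ, true_and] at hx
      rcases hx with hx | hx
      · exact fl_ne x ((hU x hx).2.symm.trans hx1)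
      · exact hx2 hx.1

end Pool.Agent.MP_755159_pr.G
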