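import Pool.Agent.MP_755159_pr.G.ZGen

/-! A base graph whose random lift is Hamiltonian with probability bounded away from 0 and 1. -/

set_option linter.unusedSectionVars false

namespace Pool.Agent.MP_755159_pr.G

open Finset Filter Topology

/-- the edges of the example -/
def E16 : List (Fin 16 × Fin 16) :=
  [(0, 1), (1, 2), (2, 3), (3, 4), (4, 5), (5, 6), (6, 7), (0, 4), (2, 4), (1, 3), (1, 5),
    (11, 13), (13, 14), (10, 14), (8, 10), (7, 8), (7, 11), (11, 12), (12, 13), (8, 9), (9, 10),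
    (14, 15), (0, 15)]

/-- the example -/
def H16 : SimpleGraph (Fin 16) := SimpleGraph.fromRel (fun u v => (u, v) ∈ E16)

instance : DecidableRel H16.Adj :=
  fun u v => inferInstanceAs (Decidable (u ≠ v ∧ ((u, v) ∈ E16 ∨ (v, u) ∈ E16)))

/-- the edges of the contracted graph -/
def E7 : List (Fin 7 × Fin 7) :=
  [(0, 1), (1, 2), (2, 3), (3, 4), (4, 5), (5, 6), (0, 6), (0, 4), (2, 4), (1, 3), (1, 5)]

/-- the contracted graph -/
def H7 : SimpleGraph (Fin 7) := SimpleGraph.fromRel (fun u v => (u, v) ∈ E7)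

instance : DecidableRel H7.Adj :=
  fun u v => inferInstanceAs (Decidable (u ≠ v ∧ ((u, v) ∈ E7 ∨ (v, u) ∈ E7)))

instance : Fact (2 < 7) := ⟨by omega⟩

open Classical in
lemma H7_small (Q : ℕ) (hQ : 0 < Q) : ∀ᶠ n : ℕ in atTop,
    Q * (univ.filter (fun σ : Ed H7 → Equiv.Perm (Fin n) =>
      ¬ (Lf σ).IsHamiltonian)).card ≤ Fintype.card (Ed H7 → Equiv.Perm (Fin n)) := by
  let ν : ZMod 7 ≃ Fin 7 := Equiv.refl _
  obtain ⟨N, α, cB, hW⟩ := exists_walks' (bs := fun d : Ch H7 ν × Bool => ν.symm (en ν d))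
    (fun q => q = 0 ∨ q = 2 ∨ q = 3 ∨ q = 5) ⟨0, Or.inl rfl⟩ (by
      rintro q (rfl | rfl | rfl | rfl)
      · exact ⟨(⟨⟨(0, 4), by decide⟩, by decide⟩, true), rfl, by decide⟩
      · exact ⟨(⟨⟨(2, 4), by decide⟩, by decide⟩, true), rfl, by decide⟩
      · exact ⟨(⟨⟨(1, 3), by decide⟩, by decide⟩, false), rfl, by decide⟩
      · exact ⟨(⟨⟨(1, 5), by decide⟩, by decide⟩, false), rfl, by decide⟩)
  exact nonham_small (ν := ν) (by decide) hW Q hQ

variable {n : ℕ}

/-- half of the hexagon -/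
def tau (σ : Ed H16 → Equiv.Perm (Fin n)) : Equiv.Perm (Fin n) :=
  tr σ 14 10 * tr σ 13 14 * tr σ 11 13
/-- monodromy of the hexagon -/
def hex (σ : Ed H16 → Equiv.Perm (Fin n)) : Equiv.Perm (Fin n) :=
  tr σ 7 11 * (tr σ 8 7 * tr σ 10 8 * tau σ)
/-- monodromy of the first triangle -/
def rho0 (σ : Ed H16 → Equiv.Perm (Fin n)) : Equiv.Perm (Fin n) :=
  tr σ 12 13 * (tr σ 11 12 * tr σ 13 11)
/-- monodromy of the second triangle -/
def rho1 (σ : Ed H16 → Equiv.Perm (Fin n)) : Equiv.Perm (Fin n) :=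
  tr σ 9 10 * (tr σ 8 9 * tr σ 10 8)

/-- the edge 12 13 -/
def eA : Ed H16 := ⟨(12, 13), by decide⟩
/-- the edge 9 10 -/
def eB : Ed H16 := ⟨(9, 10), by decide⟩
/-- the edge 7 11 -/
def eC : Ed H16 := ⟨(7, 11), by decide⟩

section
variable (σ : Ed H16 → Equiv.Perm (Fin n)) (x : Equiv.Perm (Fin n))

lemma t_A : tr (Function.update σ eA x) 11 13 = tr σ 11 13 := tr_upd_ne _ _ _ (by decide)
lemma t_B : tr (Function.update σ eB x) 11 13 = tr σ 11 13 := tr_upd_ne _ _ _ (by decide)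
lemma t_C : tr (Function.update σ eC x) 11 13 = tr σ 11 13 := tr_upd_ne _ _ _ (by decide)

lemma tau_A : tau (Function.update σ eA x) = tau σ := by
  rw [tau, tau, tr_upd_ne _ _ _ (by decide), tr_upd_ne _ _ _ (by decide), t_A]
lemma tau_B : tau (Function.update σ eB x) = tau σ := by
  rw [tau, tau, tr_upd_ne _ _ _ (by decide), tr_upd_ne _ _ _ (by decide), t_B]
lemma tau_C : tau (Function.update σ eC x) = tau σ := by
  rw [tau, tau, tr_upd_ne _ _ _ (by decide), tr_upd_ne _ _ _ (by decide), t_C]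
lemma hex_A : hex (Function.update σ eA x) = hex σ := by
  rw [hex, hex, tau_A, tr_upd_ne _ _ _ (by decide), tr_upd_ne _ _ _ (by decide),
    tr_upd_ne _ _ _ (by decide)]
lemma hex_B : hex (Function.update σ eB x) = hex σ := by
  rw [hex, hex, tau_B, tr_upd_ne _ _ _ (by decide), tr_upd_ne _ _ _ (by decide),
    tr_upd_ne _ _ _ (by decide)]
lemma rho0_B : rho0 (Function.update σ eB x) = rho0 σ := by
  rw [rho0, rho0, tr_upd_ne _ _ _ (by decide), tr_upd_ne _ _ _ (by decide),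
    tr_upd_ne _ _ _ (by decide)]
lemma rho0_C : rho0 (Function.update σ eC x) = rho0 σ := by
  rw [rho0, rho0, tr_upd_ne _ _ _ (by decide), tr_upd_ne _ _ _ (by decide),
    tr_upd_ne _ _ _ (by decide)]
lemma rho1_C : rho1 (Function.update σ eC x) = rho1 σ := by
  rw [rho1, rho1, tr_upd_ne _ _ _ (by decide), tr_upd_ne _ _ _ (by decide),
    tr_upd_ne _ _ _ (by decide)]

lemma rho0_inj : Function.Injective (fun x => rho0 (Function.update σ eA x)) := by
  have : ∀ x, rho0 (Function.update σ eA x) = x * (tr σ 11 12 * tr σ 13 11) := by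
    intro x
    rw [rho0, show tr (Function.update σ eA x) 12 13 = x from tr_upd σ eA x,
      tr_upd_ne _ _ _ (by decide), tr_upd_ne _ _ _ (by decide)]
  intro x y e
  simp only [this] at e
  exact mul_right_cancel e

lemma rho1_inj : Function.Injective (fun x => rho1 (Function.update σ eB x)) := by
  have : ∀ x, rho1 (Function.update σ eB x) = x * (tr σ 8 9 * tr σ 10 8) := by
    intro x
    rw [rho1, show tr (Function.update σ eB x) 9 10 = x from tr_upd σ eB x,
      tr_upd_ne _ _ _ (by decide), tr_upd_ne _ _ _ (by decide)]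
  intro x y e
  simp only [this] at e
  exact mul_right_cancel e

lemma hex_inj : Function.Injective (fun x => hex (Function.update σ eC x)) := by
  have : ∀ x, hex (Function.update σ eC x) = x * (tr σ 8 7 * tr σ 10 8 * tau σ) := by
    intro x
    rw [hex, show tr (Function.update σ eC x) 7 11 = x from tr_upd σ eC x, tau_C,
      tr_upd_ne _ _ _ (by decide), tr_upd_ne _ _ _ (by decide)]
  intro x y e
  simp only [this] at e
  exact mul_right_cancel e

end

theorem not_ham {σ : Ed H16 → Equiv.Perm (Fin n)} {i j : Fin n} (hi : rho0 σ i = i)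
    (hj : rho1 σ j = j) (hij : (hex σ).SameCycle (tr σ 13 11 i) ((tau σ)⁻¹ j)) :
    ¬ (Lf σ).IsHamiltonian := by
  intro hH
  obtain ⟨F, hle, hc, h2⟩ := ham_two hH (by rw [Fintype.card_prod, Fintype.card_fin]; omega)
  have a1 := alt hle h2 (p := 11) (u := 13) (w := 14) (c := 12) (c' := 11) (by decide)
  have a2 := alt hle h2 (p := 13) (u := 14) (w := 10) (c := 15) (c' := 0) (by decide)
  have a3 := alt hle h2 (p := 14) (u := 10) (w := 8) (c := 9) (c' := 8) (by decide)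
  have a4 := alt hle h2 (p := 10) (u := 8) (w := 7) (c := 9) (c' := 10) (by decide)
  have a5 := alt hle h2 (p := 8) (u := 7) (w := 11) (c := 6) (c' := 5) (by decide)
  have a6 := alt hle h2 (p := 7) (u := 11) (w := 13) (c := 12) (c' := 13) (by decide)
  have b1 : ∀ x, F.Adj (10, tau σ x) (8, tr σ 10 8 (tau σ x)) ↔
      ¬ F.Adj (11, x) (13, tr σ 11 13 x) := by
    intro x
    simp only [tau, Equiv.Perm.mul_apply]
    rw [a3, a2, a1, not_not]
  have b2 : ∀ x, F.Adj (11, hex σ x) (13, tr σ 11 13 (hex σ x)) ↔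
      F.Adj (11, x) (13, tr σ 11 13 x) := by
    intro x
    simp only [hex, Equiv.Perm.mul_apply]
    rw [a6, a5, a4, b1]
    tauto
  have b3 : ∀ k x, F.Adj (11, (hex σ ^ k) x) (13, tr σ 11 13 ((hex σ ^ k) x)) ↔
      F.Adj (11, x) (13, tr σ 11 13 x) := by
    intro k x
    induction k with
    | zero => rfl
    | succ k ih => rw [pow_succ', Equiv.Perm.mul_apply, b2, ih]
  obtain ⟨k, hk⟩ := hij.exists_nat_pow_eq
  have c1 := tri hle h2 hc (a := 13) (b := 11) (c := 12) (d := 0) (by decide) hi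
  have c2 := tri hle h2 hc (a := 10) (b := 8) (c := 9) (d := 0) (by decide) hj
  have c3 := b1 ((tau σ)⁻¹ j)
  rw [show tau σ ((tau σ)⁻¹ j) = j by simp, ← hk, b3, tr_tr] at c3
  exact c2 (c3.mpr (fun q => c1 q.symm))

lemma good_of_bad {α : Type} {O : Finset α} {P : α → Prop} [DecidablePred P]
    [DecidablePred (fun x => ¬ P x)] {p : ℕ}
    (h : (p + 1) * (O.filter (fun x => ¬ P x)).card ≤ p * O.card) :
    O.card ≤ (p + 1) * (O.filter P).card := by
  have := card_filter_add_card_filter_not (s := O) P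
  nlinarith

open Classical in
theorem many_nonham : ∀ᶠ n : ℕ in atTop, Fintype.card (Ed H16 → Equiv.Perm (Fin n)) ≤
    8 * (univ.filter (fun σ : Ed H16 → Equiv.Perm (Fin n) => ¬ (Lf σ).IsHamiltonian)).card := by
  filter_upwards [derang_half, eventually_gt_atTop 0] with n hn hn0
  obtain ⟨fx, hfx⟩ : ∃ fx : Equiv.Perm (Fin n) → Fin n, ∀ f, (¬ ∀ x, f x ≠ x) → f (fx f) = fx f := by
    refine ⟨fun f => if h : ∃ x, f x = x then h.choose else ⟨0, hn0⟩, fun f hf => ?_⟩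
    push Not at hf
    simp only [dif_pos hf]
    exact hf.choose_spec
  have hcard : Fintype.card (Equiv.Perm (Fin n)) = n.factorial := by
    rw [Fintype.card_perm, Fintype.card_fin]
  obtain ⟨O1, hO1⟩ : ∃ O1, O1 = univ.filter (fun σ : Ed H16 → Equiv.Perm (Fin n) =>
    ¬ ∀ x, rho0 σ x ≠ x) := ⟨_, rfl⟩
  obtain ⟨O2, hO2⟩ : ∃ O2, O2 = O1.filter (fun σ => ¬ ∀ x, rho1 σ x ≠ x) := ⟨_, rfl⟩
  have u1 := unif eA univ (by simp) rho0 rho0_inj
    (fun _ => univ.filter (fun f : Equiv.Perm (Fin n) => ∀ x, f x ≠ x)) (fun _ _ => rfl)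
    (p := 1) (q := 2) (fun _ _ => by rw [hcard, one_mul]; exact hn) (by omega)
  have u2 := unif eB O1 (by
      intro σ hσ x
      rw [hO1, mem_filter] at hσ ⊢
      rw [rho0_B]
      exact ⟨mem_univ _, hσ.2⟩) rho1 rho1_inj
    (fun _ => univ.filter (fun f : Equiv.Perm (Fin n) => ∀ x, f x ≠ x)) (fun _ _ => rfl)
    (p := 1) (q := 2) (fun _ _ => by rw [hcard, one_mul]; exact hn) (by omega)
  have u3 := unif eC O2 (by
      intro σ hσ x
      simp only [hO2, hO1, mem_filter] at hσ ⊢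
      rw [rho0_C, rho1_C]
      exact ⟨⟨mem_univ _, hσ.1.2⟩, hσ.2⟩) hex hex_inj
    (fun σ => univ.filter (fun f : Equiv.Perm (Fin n) =>
      ¬ f.SameCycle (tr σ 13 11 (fx (rho0 σ))) ((tau σ)⁻¹ (fx (rho1 σ)))))
    (fun σ x => by rw [rho0_C, rho1_C, tau_C, tr_upd_ne _ _ _ (by decide)])
    (p := 1) (q := 2) (fun σ _ => by
      have := card_notSame_le (tr σ 13 11 (fx (rho0 σ))) ((tau σ)⁻¹ (fx (rho1 σ)))
      rwa [Fintype.card_fin, ← hcard, ← one_mul (Fintype.card _)] at this) (by omega)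
  simp only [mem_filter, mem_univ, true_and] at u1 u2 u3
  have v1 := good_of_bad (P := fun σ : Ed H16 → Equiv.Perm (Fin n) => ¬ ∀ x, rho0 σ x ≠ x)
    (O := univ) (p := 1) (by simpa only [not_not] using u1)
  have v2 := good_of_bad (P := fun σ : Ed H16 → Equiv.Perm (Fin n) => ¬ ∀ x, rho1 σ x ≠ x)
    (O := O1) (p := 1) (by simpa only [not_not] using u2)
  have v3 := good_of_bad (O := O2) (p := 1) u3
  rw [← hO1, card_univ] at v1
  rw [← hO2] at v2
  have v4 : (O2.filter (fun σ => (hex σ).SameCycle (tr σ 13 11 (fx (rho0 σ)))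
      ((tau σ)⁻¹ (fx (rho1 σ))))).card ≤ (univ.filter (fun σ : Ed H16 → Equiv.Perm (Fin n) =>
      ¬ (Lf σ).IsHamiltonian)).card := by
    apply card_le_card
    intro σ hσ
    simp only [hO2, hO1, mem_filter, mem_univ, true_and] at hσ ⊢
    exact not_ham (hfx _ hσ.1.1) (hfx _ hσ.1.2) hσ.2
  omega

/-- the next fibre along the oriented 2-factor -/
def nt (u : Fin 16) (c : Bool) : Fin 16 :=
  if c then ![1, 2, 3, 4, 5, 6, 7, 8, 9, 10, 14, 12, 13, 11, 15, 0] u
  else ![1, 2, 3, 4, 5, 6, 7, 11, 9, 10, 8, 12, 13, 14, 15, 0] u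

/-- an oriented 2-factor whose cycles all meet the first seven fibres -/
def Pth (σ : Ed H16 → Equiv.Perm (Fin n)) (θ : Equiv.Perm (Fin n)) : Prop :=
  ∃ s : Equiv.Perm (Fin 16 × Fin n), (∀ v, ∃ c, s v = (nt v.1 c, tr σ v.1 (nt v.1 c) v.2)) ∧
    (∀ v, ∃ k, ¬ 7 ≤ ((s ^ k) v).1) ∧ ∀ x, ∃ k, (s ^ (k + 1)) (6, x) = (0, θ x) ∧
      ∀ j, 0 < j → j ≤ k → 7 ≤ ((s ^ j) (6, x)).1

theorem exists_pth {σ : Ed H16 → Equiv.Perm (Fin n)} {A : Finset (Fin n)}
    (hA : ∀ x, hex σ x ∈ A ↔ x ∈ A) (h0 : NoCyc (A.image (tr σ 11 13)) (rho0 σ))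
    (h1 : NoCyc (Aᶜ.image (tau σ)) (rho1 σ)) : ∃ θ, Pth σ θ := by
  classical
  obtain ⟨st, hst⟩ : ∃ st : Fin 16 × Fin n → Bool, st = fun v => decide (
    (if v.1 = 13 then tr σ 13 11 v.2 else if v.1 = 10 then (tau σ)⁻¹ v.2
      else tr σ 7 11 v.2) ∈ A) := ⟨_, rfl⟩
  have s13 : ∀ x, st (13, x) = true ↔ tr σ 13 11 x ∈ A := by intro x; simp [hst]
  have s10 : ∀ x, st (10, x) = true ↔ (tau σ)⁻¹ x ∈ A := by intro x; simp [hst]
  have s7 : ∀ x, st (7, x) = true ↔ tr σ 7 11 x ∈ A := by intro x; simp [hst]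
  obtain ⟨f, hf⟩ : ∃ f : Fin 16 × Fin n → Fin 16 × Fin n,
    f = fun v => (nt v.1 (st v), tr σ v.1 (nt v.1 (st v)) v.2) := ⟨_, rfl⟩
  have hinj : Function.Injective f := by
    have key : ∀ u u' c c', nt u c = nt u' c' → u = u' ∨
        ((u = 7 ∧ c = true) ∧ (u' = 10 ∧ c' = false)) ∨
        ((u = 7 ∧ c = false) ∧ (u' = 13 ∧ c' = true)) ∨
        ((u = 10 ∧ c = true) ∧ (u' = 13 ∧ c' = false)) ∨
        ((u' = 7 ∧ c' = true) ∧ (u = 10 ∧ c = false)) ∨
        ((u' = 7 ∧ c' = false) ∧ (u = 13 ∧ c = true)) ∨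
        ((u' = 10 ∧ c' = true) ∧ (u = 13 ∧ c = false)) := by decide
    have k1 : ∀ x y, st (7, x) = true → st (10, y) = false → tr σ 7 8 x ≠ tr σ 10 8 y := by
      intro x y a b e
      rw [← Bool.not_eq_true, s10, ← hA] at b
      rw [s7, ← tr_tr σ 7 8 x, e] at a
      exact b (by simpa [hex] using a)
    have k2 : ∀ x y, st (7, x) = false → st (13, y) = true → tr σ 7 11 x ≠ tr σ 13 11 y := by
      intro x y a b e
      rw [← Bool.not_eq_true, s7, e, ← s13] at a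
      exact a b
    have k3 : ∀ x y, st (10, x) = true → st (13, y) = false → tr σ 10 14 x ≠ tr σ 13 14 y := by
      intro x y a b e
      rw [← Bool.not_eq_true, s13] at b
      rw [s10, ← tr_tr σ 10 14 x, e] at a
      exact b (by simpa [tau, tr_symm σ 11 13] using a)
    rintro ⟨u, x⟩ ⟨u', y⟩ e
    simp only [hf, Prod.mk.injEq] at e
    obtain ⟨e1, e2⟩ := e
    rcases key _ _ _ _ e1 with rfl | ⟨⟨rfl, a⟩, rfl, b⟩ | ⟨⟨rfl, a⟩, rfl, b⟩ | ⟨⟨rfl, a⟩, rfl, b⟩ |
      ⟨⟨rfl, a⟩, rfl, b⟩ | ⟨⟨rfl, a⟩, rfl, b⟩ | ⟨⟨rfl, a⟩, rfl, b⟩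
    · rw [e1] at e2
      rw [(tr σ _ _).injective e2]
    · rw [a, b] at e2; exact absurd e2 (k1 _ _ a b)
    · rw [a, b] at e2; exact absurd e2 (k2 _ _ a b)
    · rw [a, b] at e2; exact absurd e2 (k3 _ _ a b)
    · rw [a, b] at e2; exact absurd e2.symm (k1 _ _ a b)
    · rw [a, b] at e2; exact absurd e2.symm (k2 _ _ a b)
    · rw [a, b] at e2; exact absurd e2.symm (k3 _ _ a b)
  obtain ⟨s, hs⟩ : ∃ s : Equiv.Perm (Fin 16 × Fin n), ∀ v, s v = f v :=
    ⟨Equiv.ofBijective f (Finite.injective_iff_bijective.mp hinj), fun _ => rfl⟩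
  have hs' : ∀ u x, s (u, x) = (nt u (st (u, x)), tr σ u (nt u (st (u, x))) x) := by
    intro u x; rw [hs, hf]
  have hesc : ∀ v, ∃ k, ¬ 7 ≤ ((s ^ k) v).1 := by
    obtain ⟨U, hU⟩ : ∃ U : Fin 16 → Fin n → Prop, U = fun u x => ∀ k, 7 ≤ ((s ^ k) (u, x)).1 :=
      ⟨_, rfl⟩
    have hcl : ∀ u x, U u x → U (nt u (st (u, x))) (tr σ u (nt u (st (u, x))) x) := by
      intro u x q
      rw [hU] at q ⊢
      intro k
      have := q (k + 1)
      rwa [pow_succ, Equiv.Perm.mul_apply, hs'] at this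
    have hfix : ∀ u w, (∀ c, nt u c = w) → ∀ x, U u x → U w (tr σ u w x) := by
      intro u w q x hx
      have := hcl u x hx
      rwa [q] at this
    have hlow : ∀ u x, U u x → 7 ≤ u := by
      intro u x q
      rw [hU] at q
      exact q 0
    have n15 : ∀ x, ¬ U 15 x := fun x q => absurd (hlow _ _ (hfix 15 0 (by decide) x q)) (by decide)
    have n14 : ∀ x, ¬ U 14 x := fun x q => n15 _ (hfix 14 15 (by decide) x q)
    have n13 : ∀ x, ¬ U 13 x := by
      have a : ∀ x, U 13 x → st (13, x) = true := by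
        intro x q
        by_contra hc
        have := hcl 13 x q
        rw [Bool.not_eq_true] at hc
        rw [hc] at this
        exact n14 _ this
      have := h0 (univ.filter (U 13)) (by
        intro x hx
        exact mem_image.mpr ⟨_, (s13 x).mp (a x (mem_filter.mp hx).2), tr_tr _ _ _ _⟩) (by
        intro x hx
        rw [mem_filter] at hx ⊢
        have b := hcl 13 x hx.2
        rw [a x hx.2] at b
        exact ⟨mem_univ _, hfix 12 13 (by decide) _ (hfix 11 12 (by decide) _ b)⟩)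
      intro x q
      exact filter_eq_empty_iff.mp this (mem_univ x) q
    have n10 : ∀ x, ¬ U 10 x := by
      have a : ∀ x, U 10 x → st (10, x) = false := by
        intro x q
        by_contra hc
        have := hcl 10 x q
        rw [Bool.not_eq_false] at hc
        rw [hc] at this
        exact n14 _ this
      have := h1 (univ.filter (U 10)) (by
        intro x hx
        refine mem_image.mpr ⟨(tau σ)⁻¹ x, mem_compl.mpr ?_, by simp⟩
        rw [← s10, a x (mem_filter.mp hx).2]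
        simp) (by
        intro x hx
        rw [mem_filter] at hx ⊢
        have b := hcl 10 x hx.2
        rw [a x hx.2] at b
        exact ⟨mem_univ _, hfix 9 10 (by decide) _ (hfix 8 9 (by decide) _ b)⟩)
      intro x q
      exact filter_eq_empty_iff.mp this (mem_univ x) q
    have n12 : ∀ x, ¬ U 12 x := fun x q => n13 _ (hfix 12 13 (by decide) x q)
    have n11 : ∀ x, ¬ U 11 x := fun x q => n12 _ (hfix 11 12 (by decide) x q)
    have n9 : ∀ x, ¬ U 9 x := fun x q => n10 _ (hfix 9 10 (by decide) x q)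
    have n8 : ∀ x, ¬ U 8 x := fun x q => n9 _ (hfix 8 9 (by decide) x q)
    have n7 : ∀ x, ¬ U 7 x := by
      intro x q
      have := hcl 7 x q
      cases hc : st (7, x) <;> rw [hc] at this
      · exact n11 _ this
      · exact n8 _ this
    rintro ⟨u, x⟩
    by_contra hcon
    push Not at hcon
    have q : U u x := by rw [hU]; exact hcon
    have : ∀ u : Fin 16, 7 ≤ u → u = 7 ∨ u = 8 ∨ u = 9 ∨ u = 10 ∨ u = 11 ∨ u = 12 ∨ u = 13 ∨
      u = 14 ∨ u = 15 := by decide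
    rcases this u (hlow _ _ q) with rfl | rfl | rfl | rfl | rfl | rfl | rfl | rfl | rfl
    exacts [n7 _ q, n8 _ q, n9 _ q, n10 _ q, n11 _ q, n12 _ q, n13 _ q, n14 _ q, n15 _ q]
  have hret : ∀ x, ∃ y k, (s ^ (k + 1)) (6, x) = (0, y) ∧
      ∀ j, 0 < j → j ≤ k → 7 ≤ ((s ^ j) (6, x)).1 := by
    intro x
    have hex' : ∃ k, ¬ 7 ≤ ((s ^ (k + 1)) (6, x)).1 := by
      obtain ⟨k, hk⟩ := hesc (s (6, x))
      exact ⟨k, by rwa [pow_succ, Equiv.Perm.mul_apply]⟩
    have hmin : ∀ j, 0 < j → j ≤ Nat.find hex' → 7 ≤ ((s ^ j) (6, x)).1 := by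
      intro j a b
      have := Nat.find_min hex' (m := j - 1) (by omega)
      rwa [Nat.sub_add_cancel a, not_not] at this
    refine ⟨((s ^ (Nat.find hex' + 1)) (6, x)).2, Nat.find hex', Prod.ext ?_ rfl, hmin⟩
    have a := Nat.find_spec hex'
    have key : ∀ u c, (u = 6 ∨ 7 ≤ u) → ¬ 7 ≤ nt u c → nt u c = 0 := by decide
    rw [pow_succ', Equiv.Perm.mul_apply, hs, hf] at a ⊢
    refine key _ _ ?_ a
    rcases Nat.eq_zero_or_pos (Nat.find hex') with q | q
    · rw [q]; exact Or.inl rfl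
    · exact Or.inr (hmin _ q le_rfl)
  choose θ k hθ hk using hret
  have hθi : Function.Injective θ := by
    have key : ∀ x y, θ x = θ y → k x ≤ k y → x = y := by
      intro x y e le
      obtain ⟨d, hd⟩ := Nat.exists_eq_add_of_le le
      have a := hθ y
      rw [← e, ← hθ x, hd, add_right_comm, pow_add, Equiv.Perm.mul_apply] at a
      have b := (s ^ (k x + 1)).injective a
      rcases Nat.eq_zero_or_pos d with q | q
      · rw [q] at b
        exact (congrArg Prod.snd b).symm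
      · have := hk y d q (by omega)
        rw [b] at this
        exact absurd this (by show ¬ (7 : Fin 16) ≤ 6; decide)
    intro x y e
    rcases le_total (k x) (k y) with q | q
    · exact key x y e q
    · exact (key y x e.symm q).symm
  exact ⟨Equiv.ofBijective θ (Finite.injective_iff_bijective.mp hθi), s,
    fun v => ⟨st v, by rw [hs, hf]⟩, hesc, fun x => ⟨k x, hθ x, hk x⟩⟩

/-- inclusion of the first seven vertices -/
def up (u : Fin 7) : Fin 16 := Fin.castLE (by omega) u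
/-- projection to the first seven vertices -/
def dn (u : Fin 16) : Fin 7 := Fin.ofNat 7 u.val

theorem ham_of_pth {ς σ : Ed H16 → Equiv.Perm (Fin n)} {θ : Equiv.Perm (Fin n)} (hn : 0 < n)
    (hp : Pth ς θ) (hout : ∀ u w, 7 ≤ u ∨ 7 ≤ w → tr σ u w = tr ς u w)
    {σ' : Ed H7 → Equiv.Perm (Fin n)} (lam : Fin 7 → Equiv.Perm (Fin n))
    (h1 : ∀ u w, H7.Adj u w → ¬ (u = 6 ∧ w = 0) → ¬ (u = 0 ∧ w = 6) →
      tr σ (up u) (up w) * lam u = lam w * tr σ' u w)
    (h2 : θ * lam 6 = lam 0 * tr σ' 6 0) (hH : (Lf σ').IsHamiltonian) :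
    (Lf σ).IsHamiltonian := by
  obtain ⟨s, s1, s2, s3⟩ := hp
  have : Nonempty (Fin n) := ⟨⟨0, hn⟩⟩
  have hinv : ∀ v, ∃ c, v.1 = nt (s⁻¹ v).1 c := by
    intro v
    obtain ⟨c, hc⟩ := s1 (s⁻¹ v)
    exact ⟨c, by simpa using congrArg Prod.fst hc⟩
  refine contract (G' := Lf σ') (ι := fun a => (up a.1, lam a.1 a.2)) ?_ s (fun v => 7 ≤ v.1) ?_
    (fun a => a.1 = 6) (fun a => a.1 = 0) (fun a => (0, tr σ' 6 0 a.2)) ?_ ?_ ?_ ?_ ?_ ?_ ?_ ?_
    (fun _ _ => rfl) ?_ ?_ ?_ s2 hH (by rw [Fintype.card_prod, Fintype.card_fin]; omega)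
  · rintro ⟨u, x⟩ ⟨w, y⟩ e
    simp only [Prod.mk.injEq] at e
    obtain rfl : u = w := Fin.castLE_injective _ e.1
    rw [(lam u).injective e.2]
  · rintro ⟨u, x⟩
    have a : ∀ u : Fin 16, ¬ 7 ≤ u → up (dn u) = u := by decide
    have b : ∀ u, ¬ 7 ≤ up u := by decide
    constructor
    · intro q
      exact ⟨(dn u, (lam (dn u))⁻¹ x), by simp [a u q]⟩
    · rintro ⟨c, e⟩
      rw [← e]; exact b _
  · rintro ⟨u, x⟩ ⟨w, y⟩ q q1 q2
    have a : ∀ u w, H7.Adj u w → ¬ (u = 6 ∧ w = 0) → ¬ (u = 0 ∧ w = 6) →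
      H16.Adj (up u) (up w) := by decide
    rw [Lf_adj_iff] at q ⊢
    refine ⟨a u w q.1 q1 q2, ?_⟩
    have := congrArg (fun g : Equiv.Perm (Fin n) => g x) (h1 u w q.1 q1 q2)
    simp only [Equiv.Perm.mul_apply] at this q ⊢
    rw [this, q.2]
  · intro v q
    obtain ⟨c, hc⟩ := s1 v
    have a : ∀ u c, H16.Adj u (nt u c) := by decide
    rw [hc] at q ⊢
    exact (Lf_adj_iff _ _ _).mpr ⟨a _ _, by rw [hout _ _ q]⟩
  · intro v _ e
    obtain ⟨c, hc⟩ := s1 v
    obtain ⟨c', hc'⟩ := s1 (s v)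
    have a : ∀ u c c', nt (nt u c) c' ≠ u := by decide
    rw [e, hc] at hc'
    exact a _ _ _ (congrArg Prod.fst hc').symm
  · intro a
    obtain ⟨c, hc⟩ := s1 (up a.1, lam a.1 a.2)
    have b : ∀ u c, 7 ≤ nt (up u) c ↔ u = 6 := by decide
    rw [hc]; exact b _ _
  · intro a
    obtain ⟨c, hc⟩ := hinv (up a.1, lam a.1 a.2)
    have b : ∀ u w c, up u = nt w c → (7 ≤ w ↔ u = 0) := by decide
    exact b _ _ _ hc
  · intro a q q'
    exact absurd (q.symm.trans q') (by decide)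
  · rintro ⟨u, x⟩ rfl
    refine ⟨(5, tr σ' 6 5 x), ?_⟩
    rintro ⟨w, y⟩ q
    have a : ∀ w, H7.Adj 6 w → w = 0 ∨ w = 5 := by decide
    rw [Lf_adj_iff] at q
    obtain ⟨q1, q2⟩ := q
    simp only at q1 q2
    rcases a w q1 with rfl | rfl
    · exact Or.inl (by rw [q2])
    · exact Or.inr (by rw [q2])
  · rintro ⟨u, x⟩ ⟨w, y⟩ rfl rfl q
    exact Prod.ext rfl ((Lf_adj_iff _ _ _).mp q).2
  · rintro ⟨u, x⟩ ⟨w, y⟩ rfl rfl q
    exact Prod.ext rfl ((tr σ' 6 0).injective (congrArg Prod.snd q))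
  · rintro ⟨u, x⟩ rfl
    exact ⟨(6, (tr σ' 6 0)⁻¹ x), rfl, by simp⟩
  · rintro ⟨u, x⟩ rfl
    obtain ⟨k, a, b⟩ := s3 (lam 6 x)
    refine ⟨k, a.trans (Prod.ext rfl ?_), b⟩
    exact congrArg (fun g : Equiv.Perm (Fin n) => g x) h2

/-- the edge 5 6 -/
def f56 : Ed H7 := ⟨(5, 6), by decide⟩
/-- the edge 0 6 -/
def f06 : Ed H7 := ⟨(0, 6), by decide⟩

open Classical in
theorem many_ham : ∀ᶠ n : ℕ in atTop, Fintype.card (Ed H16 → Equiv.Perm (Fin n)) ≤
    512 * (univ.filter (fun σ : Ed H16 → Equiv.Perm (Fin n) => (Lf σ).IsHamiltonian)).card := by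
  filter_upwards [H7_small 512 (by omega), eventually_ge_atTop 8] with n hn hn0
  have hcard : Fintype.card (Equiv.Perm (Fin n)) = n.factorial := by
    rw [Fintype.card_perm, Fintype.card_fin]
  obtain ⟨Af, hAf⟩ : ∃ Af : Equiv.Perm (Fin n) → Finset (Fin n),
      ∀ f, (∃ A, Mid f A) → Mid f (Af f) :=
    ⟨fun f => if h : ∃ A, Mid f A then h.choose else ∅, fun f hf => by
      simp only [dif_pos hf]; exact hf.choose_spec⟩
  obtain ⟨O1, hO1⟩ : ∃ O1, O1 = univ.filter (fun σ : Ed H16 → Equiv.Perm (Fin n) =>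
    ∃ A, Mid (hex σ) A) := ⟨_, rfl⟩
  obtain ⟨O2, hO2⟩ : ∃ O2, O2 = O1.filter (fun σ =>
    NoCyc ((Af (hex σ)).image (tr σ 11 13)) (rho0 σ)) := ⟨_, rfl⟩
  obtain ⟨O3, hO3⟩ : ∃ O3, O3 = O2.filter (fun σ =>
    NoCyc ((Af (hex σ))ᶜ.image (tau σ)) (rho1 σ)) := ⟨_, rfl⟩
  have u1 := unif eC univ (by simp) hex hex_inj
    (fun _ => univ.filter (fun f : Equiv.Perm (Fin n) => ¬ ∃ A, Mid f A)) (fun _ _ => rfl)
    (p := 3) (q := 4) (fun _ _ => by
      have := card_noMid (α := Fin n) (by rwa [Fintype.card_fin])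
      rwa [Fintype.card_fin, ← hcard] at this) (by omega)
  have u2 := unif eA O1 (by
      intro σ hσ x
      rw [hO1, mem_filter] at hσ ⊢
      rw [hex_A]
      exact ⟨mem_univ _, hσ.2⟩) rho0 rho0_inj
    (fun σ => univ.filter (fun f : Equiv.Perm (Fin n) =>
      ¬ NoCyc ((Af (hex σ)).image (tr σ 11 13)) f)) (fun σ x => by rw [hex_A, t_A])
    (p := 7) (q := 8) (fun σ hσ => by
      rw [hO1, mem_filter] at hσ
      have := card_cyc_le ((Af (hex σ)).image (tr σ 11 13))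
        ((Nat.mul_le_mul_left _ card_image_le).trans (hAf _ hσ.2).2.2)
        (by rw [Fintype.card_fin]; omega)
      rwa [Fintype.card_fin, ← hcard] at this) (by omega)
  have u3 := unif eB O2 (by
      intro σ hσ x
      simp only [hO2, hO1, mem_filter] at hσ ⊢
      rw [hex_B, t_B, rho0_B]
      exact ⟨⟨mem_univ _, hσ.1.2⟩, hσ.2⟩) rho1 rho1_inj
    (fun σ => univ.filter (fun f : Equiv.Perm (Fin n) =>
      ¬ NoCyc ((Af (hex σ))ᶜ.image (tau σ)) f)) (fun σ x => by rw [hex_B, tau_B])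
    (p := 7) (q := 8) (fun σ hσ => by
      simp only [hO2, hO1, mem_filter] at hσ
      have := card_cyc_le ((Af (hex σ))ᶜ.image (tau σ))
        ((Nat.mul_le_mul_left _ card_image_le).trans (by
          have := (hAf _ hσ.1.2).2.1
          rw [card_compl]; omega))
        (by rw [Fintype.card_fin]; omega)
      rwa [Fintype.card_fin, ← hcard] at this) (by omega)
  simp only [mem_filter, mem_univ, true_and] at u1 u2 u3
  have v1 := good_of_bad (O := univ) (p := 3) u1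
  have v2 := good_of_bad (O := O1) (p := 7) u2
  have v3 := good_of_bad (O := O2) (p := 7) u3
  rw [← hO1, card_univ] at v1
  rw [← hO2] at v2
  rw [← hO3] at v3
  obtain ⟨ot, hot⟩ : ∃ ot : (Ed H16 → Equiv.Perm (Fin n)) → Ed H16 → Equiv.Perm (Fin n),
    ot = fun σ e => if 7 ≤ e.1.2 then σ e else 1 := ⟨_, rfl⟩
  have hout : ∀ σ u w, 7 ≤ u ∨ 7 ≤ w → tr σ u w = tr (ot σ) u w := by
    intro σ u w q
    apply tr_congr
    intro e he
    have lt := e.2.1
    have : 7 ≤ e.1.2 := by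
      rcases he with he | he <;> rw [he] at lt ⊢ <;> rcases q with q | q
      exacts [q.trans lt.le, q, q, q.trans lt.le]
    simp only [hot, if_pos this]
  obtain ⟨Θ, hΘ⟩ : ∃ Θ : (Ed H16 → Equiv.Perm (Fin n)) → Equiv.Perm (Fin n),
      ∀ ς, (∃ θ, Pth ς θ) → Pth ς (Θ ς) :=
    ⟨fun ς => if h : ∃ θ, Pth ς θ then h.choose else 1, fun ς h => by
      simp only [dif_pos h]; exact h.choose_spec⟩
  obtain ⟨g, hg⟩ : ∃ g : (Ed H16 → Equiv.Perm (Fin n)) × Equiv.Perm (Fin n) →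
      Ed H7 → Equiv.Perm (Fin n), g = fun ω e => if e = f06 then ω.2 else
        (if e = f56 then ω.2 * Θ (ot ω.1) else 1) * tr ω.1 (up e.1.1) (up e.1.2) := ⟨_, rfl⟩
  obtain ⟨upd, hupd⟩ : ∃ upd : (Ed H16 → Equiv.Perm (Fin n)) × Equiv.Perm (Fin n) →
      (Ed H7 → Equiv.Perm (Fin n)) → (Ed H16 → Equiv.Perm (Fin n)) × Equiv.Perm (Fin n),
      upd = fun ω x => (fun e => if 7 ≤ e.1.2 then ω.1 e else
        (if e.1 = (5, 6) then (x f06 * Θ (ot ω.1))⁻¹ else 1) * tr x (dn e.1.1) (dn e.1.2),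
        x f06) := ⟨_, rfl⟩
  have hou : ∀ ω x, ot (upd ω x).1 = ot ω.1 := by
    intro ω x
    funext e
    by_cases q : 7 ≤ e.1.2 <;> simp only [hot, hupd, q, if_true, if_false]
  have d1 : ∀ e : Ed H16, ¬ 7 ≤ e.1.2 → (dn e.1.1 < dn e.1.2 ∧ H7.Adj (dn e.1.1) (dn e.1.2)) ∧
      (up (dn e.1.1), up (dn e.1.2)) = e.1 ∧ (dn e.1.1, dn e.1.2) ≠ (0, 6) ∧
      ((dn e.1.1, dn e.1.2) = (5, 6) ↔ e.1 = (5, 6)) := by decide
  have d2 : ∀ e : Ed H7, e ≠ f06 → (up e.1.1 < up e.1.2 ∧ H16.Adj (up e.1.1) (up e.1.2)) ∧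
      (dn (up e.1.1), dn (up e.1.2)) = e.1 ∧ ¬ 7 ≤ up e.1.2 ∧
      ((up e.1.1, up e.1.2) = (5, 6) ↔ e = f56) := by decide
  have hg0 : ∀ ω, g ω f06 = ω.2 := by intro ω; simp [hg]
  have hu1 : ∀ ω x e, (upd ω x).1 e = if 7 ≤ e.1.2 then ω.1 e else
      (if e.1 = (5, 6) then (x f06 * Θ (ot ω.1))⁻¹ else 1) * tr x (dn e.1.1) (dn e.1.2) := by
    intro ω x e; rw [hupd]
  have hu2 : ∀ ω x, (upd ω x).2 = x f06 := by intro ω x; rw [hupd]
  have hgu : ∀ ω x, g (upd ω x) = x := by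
    intro ω x
    funext e
    by_cases q : e = f06
    · rw [q, hg0, hu2]
    · obtain ⟨q1, q2, q3, q4⟩ := d2 e q
      have q5 : tr x (dn (up e.1.1)) (dn (up e.1.2)) = x e := by
        rw [show dn (up e.1.1) = e.1.1 from congrArg Prod.fst q2,
          show dn (up e.1.2) = e.1.2 from congrArg Prod.snd q2, tr_pos _ e.2]
      rw [hg]
      simp only [if_neg q, hou, hu2]
      rw [tr_pos _ q1, hu1]
      simp only [if_neg q3, q4, q5]
      split_ifs <;> group
  have b := resample univ univ g upd (by simp) (by simp)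
    (by
      intro ω x
      refine Prod.ext (funext fun e => ?_) (by rw [hu2, hg0])
      rw [hu1]
      by_cases q : 7 ≤ e.1.2
      · rw [if_pos q, hu1, if_pos q]
      · obtain ⟨q1, q2, q3, q4⟩ := d1 e q
        have q5 : tr ω.1 (up (dn e.1.1)) (up (dn e.1.2)) = ω.1 e := by
          rw [show up (dn e.1.1) = e.1.1 from congrArg Prod.fst q2,
            show up (dn e.1.2) = e.1.2 from congrArg Prod.snd q2, tr_pos _ e.2]
        rw [if_neg q, hg0, hou, tr_pos _ q1, hg]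
        simp only [f06, f56, Subtype.mk.injEq, if_neg q3, q4, q5]
        split_ifs <;> group) hgu
    (univ.filter (fun ω => ¬ (Lf (g ω)).IsHamiltonian)) (subset_univ _)
    (univ.filter (fun σ : Ed H7 → Equiv.Perm (Fin n) => ¬ (Lf σ).IsHamiltonian)).card (by
      intro ω _
      simp only [mem_filter, mem_univ, true_and, hgu, le_refl])
  have hlt : ∀ σ d u w, u < w → H7.Adj u w → ¬ (u = 0 ∧ w = 6) →
      tr σ (up u) (up w) * (if u = 6 then (d * Θ (ot σ))⁻¹ else 1) =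
      (if w = 6 then (d * Θ (ot σ))⁻¹ else 1) * tr (g (σ, d)) u w := by
    intro σ d u w a b c
    have k : ∀ u w : Fin 7, u < w → H7.Adj u w → ¬ (u = 0 ∧ w = 6) →
      u ≠ 6 ∧ (u, w) ≠ (0, 6) ∧ ((u, w) = (5, 6) ↔ w = 6) := by decide
    obtain ⟨k1, k2, k3⟩ := k u w a b c
    rw [tr_pos (g (σ, d)) ⟨a, b⟩, hg]
    simp only [f06, f56, Subtype.mk.injEq, if_neg k1, if_neg k2, k3]
    split_ifs <;> group
  have key : ∀ σ ∈ O3, ∀ d, (Lf (g (σ, d))).IsHamiltonian → (Lf σ).IsHamiltonian := by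
    intro σ hσ d hH
    simp only [hO3, hO2, hO1, mem_filter, mem_univ, true_and] at hσ
    have e : ∀ u w, 7 ≤ u ∨ 7 ≤ w → tr (ot σ) u w = tr σ u w := fun u w q => (hout σ u w q).symm
    have e1 : tau (ot σ) = tau σ := by
      rw [tau, tau, e _ _ (by decide), e _ _ (by decide), e _ _ (by decide)]
    have e2 : hex (ot σ) = hex σ := by
      rw [hex, hex, e1, e _ _ (by decide), e _ _ (by decide), e _ _ (by decide)]
    have e3 : rho0 (ot σ) = rho0 σ := by
      rw [rho0, rho0, e _ _ (by decide), e _ _ (by decide), e _ _ (by decide)]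
    have e4 : rho1 (ot σ) = rho1 σ := by
      rw [rho1, rho1, e _ _ (by decide), e _ _ (by decide), e _ _ (by decide)]
    have hp := hΘ _ (exists_pth (σ := ot σ) (A := Af (hex σ))
      (by rw [e2]; exact (hAf _ hσ.1.1).1) (by rw [e3, e _ _ (by decide)]; exact hσ.1.2)
      (by rw [e1, e4]; exact hσ.2))
    refine ham_of_pth (by omega) hp (hout σ) (fun u => if u = 6 then (d * Θ (ot σ))⁻¹ else 1)
      ?_ ?_ hH
    · intro u w a b c
      rcases lt_or_gt_of_ne a.ne with q | q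
      · exact hlt σ d u w q a c
      · have := hlt σ d w u q a.symm (fun r => b r.symm)
        rw [tr_symm σ (up w), tr_symm (g _) w, inv_mul_eq_iff_eq_mul, ← mul_assoc, this,
          mul_inv_cancel_right]
    · rw [tr_symm, show tr (g (σ, d)) 0 6 = g (σ, d) f06 from tr_pos _ f06.2, hg0]
      simp
  have w1 : (O3.filter (fun σ => ¬ (Lf σ).IsHamiltonian) ×ˢ
      (univ : Finset (Equiv.Perm (Fin n)))).card ≤
      (univ.filter (fun ω => ¬ (Lf (g ω)).IsHamiltonian)).card := by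
    apply card_le_card
    rintro ⟨σ, d⟩ q
    simp only [mem_product, mem_filter, mem_univ, true_and, and_true] at q ⊢
    exact fun r => q.2 (key σ q.1 d r)
  have w2 := card_filter_add_card_filter_not (s := O3) (fun σ => (Lf σ).IsHamiltonian)
  have w3 : (O3.filter (fun σ => (Lf σ).IsHamiltonian)).card ≤
      (univ.filter (fun σ : Ed H16 → Equiv.Perm (Fin n) => (Lf σ).IsHamiltonian)).card :=
    card_le_card (filter_subset_filter _ (subset_univ _))
  rw [card_product, card_univ] at w1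
  rw [card_univ, card_univ, Fintype.card_prod] at b
  have w4 : 512 * (O3.filter (fun σ => ¬ (Lf σ).IsHamiltonian)).card ≤
      Fintype.card (Ed H16 → Equiv.Perm (Fin n)) := by
    apply Nat.le_of_mul_le_mul_right _ (Fintype.card_pos (α := Equiv.Perm (Fin n)))
    apply Nat.le_of_mul_le_mul_right _ (Fintype.card_pos (α := Ed H7 → Equiv.Perm (Fin n)))
    have x1 := Nat.mul_le_mul_left 512 ((Nat.mul_le_mul_right _ w1).trans b)
    have x2 := Nat.mul_le_mul_left (Fintype.card (Ed H16 → Equiv.Perm (Fin n)) *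
      Fintype.card (Equiv.Perm (Fin n))) hn
    calc _ = _ := by ring
      _ ≤ _ := x1
      _ = _ := by ring
      _ ≤ _ := x2
  omega

theorem no_zero_one : ∃ H : SimpleGraph (Fin 16), H.Connected ∧ ∀ᶠ n : ℕ in atTop,
    (({σ : Ed H → Equiv.Perm (Fin n) | (Lf σ).IsHamiltonian}.ncard : ℕ) : ℝ) /
      (Nat.card (Ed H → Equiv.Perm (Fin n)) : ℝ) ∈ Set.Icc (1 / 512 : ℝ) (7 / 8) := by
  classical
  refine ⟨H16, ?_, ?_⟩
  · have a : ∀ u : Fin 16, u ≠ 0 → H16.Adj u (![0, 0, 1, 2, 3, 4, 5, 6, 7, 8, 9, 7, 11, 12, 13,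
        14] u) ∧ ![0, 0, 1, 2, 3, 4, 5, 6, 7, 8, 9, 7, 11, 12, 13, 14] u < u := by decide
    have b : ∀ u : Fin 16, H16.Reachable u 0 := by
      intro u
      induction u using WellFoundedLT.induction with
      | ind u ih =>
        by_cases q : u = 0
        · rw [q]
        · exact (a u q).1.reachable.trans (ih _ (a u q).2)
    exact ⟨fun u v => (b u).trans (b v).symm⟩
  · filter_upwards [many_ham, many_nonham] with n h1 h2
    have h3 := card_filter_add_card_filter_not (s := univ)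
      (fun σ : Ed H16 → Equiv.Perm (Fin n) => (Lf σ).IsHamiltonian)
    have h4 : {σ : Ed H16 → Equiv.Perm (Fin n) | (Lf σ).IsHamiltonian}.ncard =
        (univ.filter (fun σ : Ed H16 → Equiv.Perm (Fin n) => (Lf σ).IsHamiltonian)).card := by
      rw [← Set.ncard_coe_finset, coe_filter_univ]
    rw [card_univ] at h3
    have h5 : (0 : ℝ) < Fintype.card (Ed H16 → Equiv.Perm (Fin n)) := by
      exact_mod_cast Fintype.card_pos
    rw [h4, Nat.card_eq_fintype_card, Set.mem_Icc, le_div_iff₀ h5, div_le_iff₀ h5]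
    have h6 : 8 * (univ.filter (fun σ : Ed H16 → Equiv.Perm (Fin n) =>
      (Lf σ).IsHamiltonian)).card ≤ 7 * Fintype.card (Ed H16 → Equiv.Perm (Fin n)) := by omega
    rw [← Nat.cast_le (α := ℝ)] at h1 h6
    push_cast at h1 h6
    constructor <;> linarith

end Pool.Agent.MP_755159_pr.G
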