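import Pool.Agent.MP_755159_pr.G.ZPerm

/-! Base graphs with a closed family of chords, and replacing edges by paths. -/

set_option linter.unusedSectionVars false

namespace Pool.Agent.MP_755159_pr.G

open Finset Filter Topology

theorem exists_walks' {h : ℕ} {κ : Type} [DecidableEq κ] [Fintype κ] {bs : κ × Bool → ZMod h}
    (S : ZMod h → Prop) (h0 : ∃ q, S q)
    (hS : ∀ q, S q → ∃ d, bs d = q ∧ ∀ z, S (bs (op d) + sg z)) :
    ∃ N α cB, Walks bs N α cB := by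
  classical
  obtain ⟨Gd, hGd⟩ : ∃ Gd : κ × Bool → Prop, Gd = fun d => ∀ z, S (bs (op d) + sg z) := ⟨_, rfl⟩
  obtain ⟨Rc, hRc⟩ : ∃ Rc : κ × Bool → κ × Bool → Prop,
    Rc = Relation.ReflTransGen (fun p d => Gd d ∧ ∃ z, St bs p z d) := ⟨_, rfl⟩
  have htr : ∀ {a b c}, Rc a b → Rc b c → Rc a c := by
    intro a b c; rw [hRc]; exact Relation.ReflTransGen.trans
  have hrefl : ∀ a, Rc a a := by intro a; rw [hRc]
  have hcons : ∀ {a c a' p σ N z}, Rc a c → St bs a z c → Wk bs c a' p σ N →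
      (∀ l ≤ N, Rc c (p l)) →
      ∃ p' σ', Wk bs a a' p' σ' (N + 1) ∧ σ' 0 = z ∧ ∀ l ≤ N + 1, Rc a (p' l) := by
    intro a c a' p σ N z h1 h2 hw h3
    refine ⟨fun l => Nat.casesOn l a p, fun l => Nat.casesOn l z σ, ⟨rfl, hw.2.1, ?_⟩, rfl, ?_⟩
    · intro l hl
      cases l with
      | zero => simpa [hw.1] using h2
      | succ l => exact hw.2.2 l (by omega)
    · intro l hl
      cases l with
      | zero => exact hrefl a
      | succ l => exact htr h1 (h3 l (by omega))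
  have hwk : ∀ a c, Rc a c → ∃ N p σ, Wk bs a c p σ N ∧ ∀ l ≤ N, Rc a (p l) := by
    intro a c hac
    rw [hRc] at hac
    induction hac using Relation.ReflTransGen.head_induction_on with
    | refl => exact ⟨0, fun _ => c, fun _ => true, ⟨rfl, rfl, fun l hl => by omega⟩,
        fun _ _ => hrefl c⟩
    | head h1 _ ih =>
      obtain ⟨N, p, σ, hw, h3⟩ := ih
      obtain ⟨z, h2⟩ := h1.2
      obtain ⟨p', σ', h4, -, h5⟩ :=
        hcons (by rw [hRc]; exact Relation.ReflTransGen.single h1) h2 hw h3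
      exact ⟨_, _, _, h4, h5⟩
  obtain ⟨q₀, hq₀⟩ := h0
  obtain ⟨d₀, -, hd₀⟩ := hS q₀ hq₀
  obtain ⟨a, haG, ha⟩ := exists_min_image (univ.filter Gd) (fun a => (univ.filter (Rc a)).card)
    ⟨d₀, by simpa [hGd] using hd₀⟩
  have haG := (mem_filter.mp haG).2
  have hG : ∀ c, Rc a c → Gd c := by
    intro c hc
    rw [hRc] at hc
    induction hc with
    | refl => exact haG
    | tail _ h1 _ => exact h1.1
  have hback : ∀ c, Rc a c → Rc c a := by
    intro c hc
    have hsub : univ.filter (Rc c) ⊆ univ.filter (Rc a) := by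
      intro x hx
      rw [mem_filter] at hx ⊢
      exact ⟨hx.1, htr hc hx.2⟩
    have := eq_of_subset_of_card_le hsub (ha c (mem_filter.mpr ⟨mem_univ _, hG c hc⟩))
    have h2 : a ∈ univ.filter (Rc a) := mem_filter.mpr ⟨mem_univ _, hrefl a⟩
    rw [← this] at h2
    exact (mem_filter.mp h2).2
  have hloop : ∀ c, Rc a c → ∀ z, ∃ N p σ, Wk bs c c p σ (N + 1) ∧ σ 0 = z ∧
      ∀ l ≤ N + 1, Rc c (p l) := by
    intro c hc z
    have hc' := hG c hc
    rw [hGd] at hc'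
    obtain ⟨d, hd, hd'⟩ := hS _ (hc' z)
    have h1 : Rc c d := by
      rw [hRc]; exact Relation.ReflTransGen.single ⟨by rw [hGd]; exact hd', z, hd⟩
    obtain ⟨N, p, σ, hw, h3⟩ := hwk d c (htr (hback d (htr hc h1)) hc)
    exact ⟨N, hcons h1 hd hw h3⟩
  choose na pa sa hA hA' hA'' using hloop a (hrefl a)
  choose nb pb sb hB hB' _ using hloop (pa true (na true)) (hA'' true _ (by omega))
  obtain ⟨N, hN⟩ : ∃ N, N = (na true + 1) * (na false + 1) * ((nb true + 1) * (nb false + 1)) :=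
    ⟨_, rfl⟩
  have hN0 : 0 < N := by rw [hN]; positivity
  have hda : ∀ z, na z + 1 ∣ N := by
    intro z
    rw [hN]
    cases z
    · exact Dvd.dvd.mul_right (Dvd.intro_left _ rfl) _
    · exact Dvd.dvd.mul_right (Dvd.intro _ rfl) _
  have hdb : ∀ z, nb z + 1 ∣ N := by
    intro z
    rw [hN]
    cases z
    · exact Dvd.dvd.mul_left (Dvd.intro_left _ rfl) _
    · exact Dvd.dvd.mul_left (Dvd.intro _ rfl) _
  have hlast : (N - 1) % (na true + 1) = na true := by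
    obtain ⟨m, hm⟩ := hda true
    rcases m with _ | m
    · omega
    · rw [hm, show (na true + 1) * (m + 1) - 1 = (na true + 1) * m + na true by
        rw [mul_add]; omega, Nat.mul_add_mod, Nat.mod_eq_of_lt (by omega)]
  obtain ⟨cB, hcB⟩ : ∃ cB, cB = sa true (na true) := ⟨_, rfl⟩
  have hne : (!cB) ≠ cB := by simp
  refine ⟨N, fun c => if c = cB then op (pa true (na true)) else a, cB, hN0,
    fun c z => if c = cB then fun l => op (pb (!z) ((N - l) % (nb (!z) + 1)))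
      else fun l => pa z (l % (na z + 1)),
    fun c z => if c = cB then fun l => !sb (!z) ((N - 1 - l) % (nb (!z) + 1))
      else fun l => sa z (l % (na z + 1)), ?_, ?_, ?_, ?_, ?_⟩
  · intro c z
    by_cases hc : c = cB
    · simp only [if_pos hc]
      exact ((hB (!z)).rep (by omega) (hdb _)).rev
    · simp only [if_neg hc]
      exact (hA z).rep (by omega) (hda _)
  · intro z
    simp only [if_neg hne, Nat.zero_mod, hA']
  · intro z
    simp [hB']
  · simp only [if_neg hne, if_true, hlast]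
  · simp only [if_neg hne, hlast]
    exact hcB.symm

open Classical in
theorem nonham_small {h : ℕ} [Fact (2 < h)] {H : SimpleGraph (Fin h)} [DecidableRel H.Adj]
    {ν : ZMod h ≃ Fin h} (hν : ∀ q, H.Adj (ν q) (ν (q + 1))) {N : ℕ} {α₀ : Bool → Ch H ν × Bool}
    {cB : Bool} (hW : Walks (fun d => ν.symm (en ν d)) N α₀ cB) (Q : ℕ) (hQ : 0 < Q) :
    ∀ᶠ n : ℕ in atTop, Q * (univ.filter (fun σ : Ed H → Equiv.Perm (Fin n) =>
      ¬ (Lf σ).IsHamiltonian)).card ≤ Fintype.card (Ed H → Equiv.Perm (Fin n)) := by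
  obtain ⟨M, hM⟩ : ∃ M, M = 100 * N + 100 := ⟨_, rfl⟩
  have hroot : Tendsto (fun n : ℕ => Nat.nthRoot M n) atTop atTop := by
    rw [tendsto_atTop_atTop]
    intro b
    exact ⟨b ^ M, fun n hn => (Nat.le_nthRoot_iff (by omega)).mpr hn⟩
  have hf : Tendsto (fun a : ℕ => 4 * (1 / (a : ℝ)) + (a + 1) ^ M / 2 ^ a) atTop (𝓝 0) := by
    have t1 := tendsto_one_div_atTop_nhds_zero_nat (𝕜 := ℝ)
    have t2 := (tendsto_pow_const_div_const_pow_of_one_lt M (r := 2) (by norm_num)).comp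
      (tendsto_add_atTop_nat 1)
    have t3 := (t1.const_mul 4).add (t2.const_mul 2)
    simp only [mul_zero, add_zero] at t3
    refine t3.congr (fun a => ?_)
    simp only [Function.comp]
    push_cast
    ring
  have hQ' : (0 : ℝ) < Q := by exact_mod_cast hQ
  filter_upwards [hroot.eventually_ge_atTop 200, hroot.eventually_ge_atTop h,
    hroot.eventually_ge_atTop M,
    (hf.comp hroot).eventually (gt_mem_nhds (one_div_pos.mpr hQ'))] with n hn hn' hn'' hε
  have := nonham_le (n := n) hν hW hn hn' (hM ▸ hn'')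
    (hM ▸ Nat.pow_nthRoot_le_iff.mpr (Or.inl (by omega)))
    (hM ▸ Nat.lt_pow_nthRoot_add_one (by omega) n)
  rw [← hM] at this
  have h2 := this.trans (mul_le_mul_of_nonneg_right hε.le (Nat.cast_nonneg _))
  rw [one_div, inv_mul_eq_div, le_div_iff₀ hQ', mul_comm] at h2
  exact_mod_cast h2

theorem contract {V V' : Type} [Fintype V] [DecidableEq V] [Fintype V'] [DecidableEq V']
    [Nonempty V'] {G : SimpleGraph V} {G' : SimpleGraph V'} {ι : V' → V}
    (hι : Function.Injective ι) (s : Equiv.Perm V) (out : V → Prop)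
    (hio : ∀ v, ¬ out v ↔ ∃ a, ι a = v) (Y Z : V' → Prop) (μ : V' → V')
    (hadj : ∀ a b, G'.Adj a b → ¬ (Y a ∧ Z b) → ¬ (Z a ∧ Y b) → G.Adj (ι a) (ι b))
    (hs : ∀ v, out v ∨ out (s v) → G.Adj v (s v)) (h2c : ∀ v, out v → s (s v) ≠ v)
    (hY : ∀ a, out (s (ι a)) ↔ Y a) (hZ : ∀ a, out (s⁻¹ (ι a)) ↔ Z a) (hYZ : ∀ a, Y a → ¬ Z a)
    (hdeg : ∀ y, Y y → ∃ c, ∀ b, G'.Adj y b → b = μ y ∨ b = c)
    (huniq : ∀ y b, Y y → Z b → G'.Adj y b → b = μ y) (hμ : ∀ y, Y y → Z (μ y))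
    (hμi : ∀ y y', Y y → Y y' → μ y = μ y' → y = y') (hμs : ∀ z, Z z → ∃ y, Y y ∧ μ y = z)
    (hpath : ∀ y, Y y → ∃ k, (s ^ (k + 1)) (ι y) = ι (μ y) ∧
      ∀ j, 0 < j → j ≤ k → out ((s ^ j) (ι y)))
    (hesc : ∀ v, ∃ k, ¬ out ((s ^ k) v)) (hG' : G'.IsHamiltonian) (hV : Fintype.card V' ≠ 1) :
    G.IsHamiltonian := by
  classical
  obtain ⟨F', hle', hc', h2'⟩ := ham_two hG' hV
  have hin : ∀ a, ¬ out (ι a) := fun a => (hio _).mpr ⟨a, rfl⟩
  have hGF : ∀ u v, ((∃ a b, F'.Adj a b ∧ ¬ (Y a ∧ Z b) ∧ ¬ (Z a ∧ Y b) ∧ u = ι a ∧ v = ι b) ∨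
      (v = s u ∧ (out u ∨ out v)) ∨ (u = s v ∧ (out u ∨ out v))) → G.Adj u v := by
    rintro u v (⟨a, b, q1, q2, q3, rfl, rfl⟩ | ⟨rfl, q⟩ | ⟨rfl, q⟩)
    · exact hadj a b (hle' q1) q2 q3
    · exact hs u q
    · exact (hs v q.symm).symm
  let F : SimpleGraph V :=
    { Adj := fun u v =>
        (∃ a b, F'.Adj a b ∧ ¬ (Y a ∧ Z b) ∧ ¬ (Z a ∧ Y b) ∧ u = ι a ∧ v = ι b) ∨
        (v = s u ∧ (out u ∨ out v)) ∨ (u = s v ∧ (out u ∨ out v))
      symm := ⟨by
        rintro u v (⟨a, b, q1, q2, q3, q4, q5⟩ | ⟨q, q'⟩ | ⟨q, q'⟩)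
        · exact Or.inl ⟨b, a, q1.symm, fun e => q3 e.symm, fun e => q2 e.symm, q5, q4⟩
        · exact Or.inr (Or.inr ⟨q, q'.symm⟩)
        · exact Or.inr (Or.inl ⟨q, q'.symm⟩)⟩
      loopless := ⟨fun u q => (hGF u u q).ne rfl⟩ }
  have hnb : ∀ a v, F.Adj (ι a) v ↔
      (∃ b, F'.Adj a b ∧ ¬ (Y a ∧ Z b) ∧ ¬ (Z a ∧ Y b) ∧ v = ι b) ∨
      (Y a ∧ v = s (ι a)) ∨ (Z a ∧ v = s⁻¹ (ι a)) := by
    intro a v
    constructor
    · rintro (⟨a', b, q1, q2, q3, q4, q5⟩ | ⟨rfl, q⟩ | ⟨q, q'⟩)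
      · rw [← hι q4] at q1 q2 q3
        exact Or.inl ⟨b, q1, q2, q3, q5⟩
      · exact Or.inr (Or.inl ⟨(hY a).mp (q.resolve_left (hin a)), rfl⟩)
      · have e : v = s⁻¹ (ι a) := by rw [q]; simp
        exact Or.inr (Or.inr ⟨(hZ a).mp (e ▸ q'.resolve_left (hin a)), e⟩)
    · rintro (⟨b, q1, q2, q3, q4⟩ | ⟨q, rfl⟩ | ⟨q, rfl⟩)
      · exact Or.inl ⟨a, b, q1, q2, q3, rfl, q4⟩
      · exact Or.inr (Or.inl ⟨rfl, Or.inr ((hY a).mpr q)⟩)
      · exact Or.inr (Or.inr ⟨by simp, Or.inr ((hZ a).mpr q)⟩)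
  have hyμ : ∀ y, Y y → F'.Adj y (μ y) := by
    intro y hy
    obtain ⟨c, hc⟩ := hdeg y hy
    exact (both_of_two (h2' y) (fun w hw => hc w (hle' hw))).1
  have hother : ∀ a b, F'.Adj a b → ∃ c, c ≠ b ∧ ∀ w, F'.Adj a w ↔ w = b ∨ w = c := by
    intro a b hab
    obtain ⟨x, y, hxy, e⟩ := Set.ncard_eq_two.mp (h2' a)
    have e' : ∀ w, F'.Adj a w ↔ w = x ∨ w = y := by
      intro w; rw [← SimpleGraph.mem_neighborSet, e]; simp
    rcases (e' b).mp hab with rfl | rfl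
    · exact ⟨y, hxy.symm, e'⟩
    · exact ⟨x, hxy, fun w => (e' w).trans or_comm⟩
  have hstep : ∀ v k, (∀ j < k, out ((s ^ j) v) ∨ out ((s ^ (j + 1)) v)) →
      F.Reachable v ((s ^ k) v) := by
    intro v k hk
    induction k with
    | zero => exact SimpleGraph.Reachable.refl _
    | succ k ih =>
      refine (ih (fun j hj => hk j (by omega))).trans (SimpleGraph.Adj.reachable ?_)
      exact Or.inr (Or.inl ⟨by rw [pow_succ', Equiv.Perm.mul_apply], hk k (by omega)⟩)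
  have hyr : ∀ y, Y y → F.Reachable (ι y) (ι (μ y)) := by
    intro y hy
    obtain ⟨k, h1, h2⟩ := hpath y hy
    rw [← h1]
    apply hstep
    intro j hj
    rcases Nat.eq_zero_or_pos j with rfl | h0
    · exact Or.inr (by simpa using (hY y).mpr hy)
    · exact Or.inl (h2 j h0 (by omega))
  have hinner : ∀ a b, F.Reachable (ι a) (ι b) := by
    intro a b
    have := (SimpleGraph.reachable_iff_reflTransGen a b).mp (hc' a b)
    induction this with
    | refl => exact SimpleGraph.Reachable.refl _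
    | @tail b c _ hbc ih =>
      refine ih.trans ?_
      by_cases q1 : Y b ∧ Z c
      · rw [huniq b c q1.1 q1.2 (hle' hbc)]; exact hyr b q1.1
      · by_cases q2 : Z b ∧ Y c
        · rw [huniq c b q2.2 q2.1 (hle' hbc.symm)]; exact (hyr c q2.2).symm
        · exact SimpleGraph.Adj.reachable (Or.inl ⟨b, c, hbc, q1, q2, rfl, rfl⟩)
  have hall : ∀ v, ∃ a, F.Reachable v (ι a) := by
    intro v
    obtain ⟨a, ha⟩ := (hio _).mp (Nat.find_spec (hesc v))
    exact ⟨a, ha ▸ hstep v _ (fun j hj => Or.inl (not_not.mp (Nat.find_min (hesc v) hj)))⟩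
  have : Nonempty V := ⟨ι (Classical.arbitrary _)⟩
  refine two_ham (F := F) (fun u v q => hGF u v q) ?_ ?_
  · intro u v
    obtain ⟨a, ha⟩ := hall u
    obtain ⟨b, hb⟩ := hall v
    exact (ha.trans (hinner a b)).trans hb.symm
  · intro v
    by_cases hv : out v
    · rw [Set.ncard_eq_two]
      refine ⟨s v, s⁻¹ v, fun e => h2c v hv (by rw [e]; simp), ?_⟩
      ext w
      simp only [SimpleGraph.mem_neighborSet, Set.mem_insert_iff, Set.mem_singleton_iff]
      constructor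
      · rintro (⟨a, b, -, -, -, q, -⟩ | ⟨q, -⟩ | ⟨q, -⟩)
        · exact absurd (q ▸ hv) (hin a)
        · exact Or.inl q
        · exact Or.inr (by rw [q]; simp)
      · rintro (rfl | rfl)
        · exact Or.inr (Or.inl ⟨rfl, Or.inl hv⟩)
        · exact Or.inr (Or.inr ⟨by simp, Or.inl hv⟩)
    · obtain ⟨a, rfl⟩ := (hio v).mp hv
      by_cases hy : Y a
      · obtain ⟨c, hc, hc'⟩ := hother a _ (hyμ a hy)
        have hcZ : ¬ Z c := fun q => hc (huniq a c hy q (hle' ((hc' c).mpr (Or.inr rfl))))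
        rw [Set.ncard_eq_two]
        refine ⟨ι c, s (ι a), fun e => hin c (e ▸ (hY a).mpr hy), ?_⟩
        ext w
        simp only [SimpleGraph.mem_neighborSet, Set.mem_insert_iff, Set.mem_singleton_iff, hnb]
        constructor
        · rintro (⟨b, q1, q2, -, rfl⟩ | ⟨-, q⟩ | ⟨q, -⟩)
          · rcases (hc' b).mp q1 with rfl | rfl
            · exact absurd ⟨hy, hμ a hy⟩ q2
            · exact Or.inl rfl
          · exact Or.inr q
          · exact absurd q (hYZ a hy)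
        · rintro (rfl | rfl)
          · exact Or.inl ⟨c, (hc' c).mpr (Or.inr rfl), fun q => hcZ q.2,
              fun q => hYZ a hy q.1, rfl⟩
          · exact Or.inr (Or.inl ⟨hy, rfl⟩)
      · by_cases hz : Z a
        · obtain ⟨y, hy1, hy2⟩ := hμs a hz
          obtain ⟨c, hc, hc'⟩ := hother a y (hy2 ▸ (hyμ y hy1).symm)
          have hcY : ¬ Y c := fun q => hc (hμi c y q hy1 (by
            rw [hy2]; exact (huniq c a q hz (hle' ((hc' c).mpr (Or.inr rfl)).symm)).symm))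
          rw [Set.ncard_eq_two]
          refine ⟨ι c, s⁻¹ (ι a), fun e => hin c (e ▸ (hZ a).mpr hz), ?_⟩
          ext w
          simp only [SimpleGraph.mem_neighborSet, Set.mem_insert_iff, Set.mem_singleton_iff, hnb]
          constructor
          · rintro (⟨b, q1, -, q3, rfl⟩ | ⟨q, -⟩ | ⟨-, q⟩)
            · rcases (hc' b).mp q1 with rfl | rfl
              · exact absurd ⟨hz, hy1⟩ q3
              · exact Or.inl rfl
            · exact absurd q hy
            · exact Or.inr q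
          · rintro (rfl | rfl)
            · exact Or.inl ⟨c, (hc' c).mpr (Or.inr rfl), fun q => hy q.1, fun q => hcY q.2, rfl⟩
            · exact Or.inr (Or.inr ⟨hz, rfl⟩)
        · rw [← h2' a, ← Set.ncard_image_of_injective _ hι]
          congr 1
          ext w
          simp only [SimpleGraph.mem_neighborSet, hnb, hy, hz, false_and, not_false_eq_true,
            true_and, or_false, Set.mem_image]
          exact ⟨fun ⟨b, q1, q2⟩ => ⟨b, q1, q2.symm⟩, fun ⟨b, q1, q2⟩ => ⟨b, q1, q2.symm⟩⟩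

section
variable {h n : ℕ} {H : SimpleGraph (Fin h)} [DecidableRel H.Adj]

lemma tr_pos (σ : Ed H → Equiv.Perm (Fin n)) {u w : Fin h} (hp : u < w ∧ H.Adj u w) :
    tr σ u w = σ ⟨(u, w), hp⟩ := by simp only [tr, dif_pos hp]

lemma tr_symm (σ : Ed H → Equiv.Perm (Fin n)) (u w : Fin h) : tr σ w u = (tr σ u w)⁻¹ := by
  unfold tr
  split_ifs with a b b
  · exact absurd a.1 (not_lt.mpr b.1.le)
  · simp
  · rfl
  · simp

lemma tr_tr (σ : Ed H → Equiv.Perm (Fin n)) (u w : Fin h) (x : Fin n) :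
    tr σ w u (tr σ u w x) = x := by rw [tr_symm]; simp

lemma Lf_adj_iff (σ : Ed H → Equiv.Perm (Fin n)) (a b : Fin h × Fin n) :
    (Lf σ).Adj a b ↔ H.Adj a.1 b.1 ∧ b.2 = tr σ a.1 b.1 a.2 := by
  constructor
  · intro q
    rw [Lf, SimpleGraph.fromRel_adj] at q
    rcases q.2 with ⟨hp, e⟩ | ⟨hp, e⟩
    · exact ⟨hp.2, by rw [tr_pos σ hp, e]⟩
    · exact ⟨hp.2.symm, by rw [← e, ← tr_pos σ hp, tr_tr]⟩
  · rintro ⟨q1, q2⟩
    have := Lf_adj σ q1 a.2
    rwa [← q2] at this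

lemma tr_upd_ne (σ : Ed H → Equiv.Perm (Fin n)) (e : Ed H) (x : Equiv.Perm (Fin n))
    {u w : Fin h} (h1 : e.1 ≠ (u, w) ∧ e.1 ≠ (w, u)) :
    tr (Function.update σ e x) u w = tr σ u w := by
  apply tr_congr
  intro e' q
  apply Function.update_of_ne
  rintro rfl
  exact q.elim h1.1 h1.2

lemma tr_upd (σ : Ed H → Equiv.Perm (Fin n)) (e : Ed H) (x : Equiv.Perm (Fin n)) :
    tr (Function.update σ e x) e.1.1 e.1.2 = x := by
  rw [tr_pos _ e.2]; exact Function.update_self ..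

variable {σ : Ed H → Equiv.Perm (Fin n)} {F : SimpleGraph (Fin h × Fin n)} (hle : F ≤ Lf σ)
  (h2 : ∀ v, (F.neighborSet v).ncard = 2)
include hle h2

lemma forced {u a b : Fin h} (hu : ∀ w, H.Adj u w → w = a ∨ w = b) (x : Fin n) :
    F.Adj (u, x) (a, tr σ u a x) ∧ F.Adj (u, x) (b, tr σ u b x) := by
  apply both_of_two (h2 _)
  rintro ⟨w, z⟩ hw
  obtain ⟨q1, q2⟩ := (Lf_adj_iff σ _ _).mp (hle hw)
  simp only at q1 q2
  rcases hu w q1 with rfl | rfl
  · exact Or.inl (by rw [q2])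
  · exact Or.inr (by rw [q2])

lemma alt {p u w c c' : Fin h} (hu : (∀ z, H.Adj u z → z = p ∨ z = w ∨ z = c) ∧
    (∀ z, H.Adj c z → z = u ∨ z = c') ∧ p ≠ w ∧ p ≠ c ∧ w ≠ c) (x : Fin n) :
    F.Adj (u, tr σ p u x) (w, tr σ u w (tr σ p u x)) ↔ ¬ F.Adj (p, x) (u, tr σ p u x) := by
  rw [F.adj_comm (p, x)]
  refine xor_of_three (c := (c, tr σ u c (tr σ p u x))) (h2 _) ?_ ?_
    (fun e => hu.2.2.1 (congrArg Prod.fst e)) (fun e => hu.2.2.2.1 (congrArg Prod.fst e))
    (fun e => hu.2.2.2.2 (congrArg Prod.fst e))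
  · rintro ⟨z, y⟩ hw
    obtain ⟨q1, q2⟩ := (Lf_adj_iff σ _ _).mp (hle hw)
    simp only at q1 q2
    rcases hu.1 z q1 with rfl | rfl | rfl
    · exact Or.inl (by rw [q2, tr_tr])
    · exact Or.inr (Or.inl (by rw [q2]))
    · exact Or.inr (Or.inr (by rw [q2]))
  · have := (forced hle h2 hu.2.1 (tr σ u c (tr σ p u x))).1
    rw [tr_tr] at this
    exact this.symm

lemma tri (hc : ∀ u v, F.Reachable u v) {a b c d : Fin h}
    (hu : (∀ z, H.Adj c z → z = a ∨ z = b) ∧ a ≠ b ∧ a ≠ c ∧ b ≠ c ∧ d ≠ a ∧ d ≠ b ∧ d ≠ c)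
    {x : Fin n} (hx : tr σ c a (tr σ b c (tr σ a b x)) = x) :
    ¬ F.Adj (a, x) (b, tr σ a b x) := by
  intro h1
  obtain ⟨h3, h4⟩ := forced hle h2 hu.1 (tr σ b c (tr σ a b x))
  rw [hx] at h3
  rw [tr_tr] at h4
  obtain ⟨-, n1, n2, n3, n4, n5, n6⟩ := hu
  have key : ∀ v, F.Reachable (a, x) v →
      v = (a, x) ∨ v = (b, tr σ a b x) ∨ v = (c, tr σ b c (tr σ a b x)) := by
    intro v hv
    rw [SimpleGraph.reachable_iff_reflTransGen] at hv
    induction hv with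
    | refl => exact Or.inl rfl
    | tail _ hbc ih =>
      rcases ih with rfl | rfl | rfl
      · exact Or.inr (third_of_two (h2 _) h1 h3.symm (fun e => n3 (congrArg Prod.fst e)) hbc)
      · have := third_of_two (h2 _) h1.symm h4.symm (fun e => n2 (congrArg Prod.fst e)) hbc
        tauto
      · have := third_of_two (h2 _) h3 h4 (fun e => n1 (congrArg Prod.fst e)) hbc
        tauto
  rcases key (d, x) (hc _ _) with e | e | e
  · exact n4 (congrArg Prod.fst e)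
  · exact n5 (congrArg Prod.fst e)
  · exact n6 (congrArg Prod.fst e)

end

end Pool.Agent.MP_755159_pr.G
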