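import Pool.Agent.MP_755159_pr.G.Main

/-! Elementary counts for uniform permutations, and connected 2-factors. -/

set_option linter.unusedSectionVars false

namespace Pool.Agent.MP_755159_pr.G

open Finset Filter Topology

section
variable {α : Type} [Fintype α] [DecidableEq α]

/-- no cycle inside `S` -/
def NoCyc (S : Finset α) (f : Equiv.Perm α) : Prop :=
  ∀ U ⊆ S, (∀ x ∈ U, f x ∈ U) → U = ∅

open Classical in
lemma card_noCyc (S : Finset α) : ∀ X : Finset α, S ⊆ X →
    X.card.factorial * (X.card - S.card) ≤ X.card *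
      (univ.filter (fun f : Equiv.Perm α => (∀ x, x ∉ X → f x = x) ∧ NoCyc S f)).card := by
  induction S using Finset.induction_on with
  | empty =>
    intro X _
    rw [card_empty, Nat.sub_zero, mul_comm]
    apply Nat.mul_le_mul_left
    rw [← Fintype.card_coe, ← Fintype.card_perm, ← card_univ]
    apply card_le_card_of_injOn (fun g => Equiv.Perm.ofSubtype g)
    · intro g _
      simp only [coe_filter, mem_univ, true_and, Set.mem_ofPred_eq]
      exact ⟨fun x hx => Equiv.Perm.ofSubtype_apply_of_not_mem g hx,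
        fun U hU _ => subset_empty.mp hU⟩
    · exact Equiv.Perm.ofSubtype_injective.injOn
  | insert s S hs ih =>
    intro X hX
    have hsX : s ∈ X := hX (mem_insert_self _ _)
    have h1 := ih (X.erase s) (fun x hx => mem_erase.mpr
      ⟨fun e => hs (e ▸ hx), hX (mem_insert_of_mem hx)⟩)
    have h2 : (X.erase s).card * (univ.filter (fun f : Equiv.Perm α =>
        (∀ x, x ∉ X.erase s → f x = x) ∧ NoCyc S f)).card ≤ (univ.filter (fun f : Equiv.Perm α =>
        (∀ x, x ∉ X → f x = x) ∧ NoCyc (insert s S) f)).card := by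
      rw [← card_product]
      apply card_le_card_of_injOn (fun p => Equiv.swap s p.1 * p.2)
      · rintro ⟨y, f⟩ hp
        simp only [coe_product, coe_filter, mem_univ, true_and, Set.mem_prod, mem_coe,
          Set.mem_ofPred_eq] at hp ⊢
        obtain ⟨hy, hf, hn⟩ := hp
        have hfs : f s = s := hf s (by simp)
        have hys := (mem_erase.mp hy).1
        constructor
        · intro x hx
          rw [Equiv.Perm.mul_apply, hf x (fun q => hx (mem_erase.mp q).2)]
          exact Equiv.swap_apply_of_ne_of_ne (fun e => hx (e ▸ hsX))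
            (fun e => hx (e ▸ (mem_erase.mp hy).2))
        · intro U hU hcl
          have hy' : s ∈ U → y ∈ U := fun q => by simpa [hfs] using hcl s q
          have h3 := hn (U.erase s) (by
            intro x hx
            exact (mem_insert.mp (hU (mem_erase.mp hx).2)).resolve_left (mem_erase.mp hx).1) (by
            intro x hx
            obtain ⟨x1, x2⟩ := mem_erase.mp hx
            have n1 : f x ≠ s := fun e => x1 (f.injective (e.trans hfs.symm))
            have q := hcl x x2
            rw [Equiv.Perm.mul_apply] at q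
            refine mem_erase.mpr ⟨n1, ?_⟩
            by_cases e : f x = y
            · rw [e, Equiv.swap_apply_right] at q
              rw [e]; exact hy' q
            · rwa [Equiv.swap_apply_of_ne_of_ne n1 e] at q)
          by_cases q : s ∈ U
          · exact absurd (mem_erase.mpr ⟨hys, hy' q⟩) (by rw [h3]; simp)
          · rwa [erase_eq_of_notMem q] at h3
      · rintro ⟨y, f⟩ hp ⟨y', f'⟩ hp' e
        simp only [coe_product, coe_filter, mem_univ, true_and, Set.mem_prod, mem_coe,
          Set.mem_ofPred_eq] at hp hp' e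
        have a : y = y' := by
          have := congrArg (fun g : Equiv.Perm α => g s) e
          simpa [hp.2.1 s (by simp), hp'.2.1 s (by simp)] using this
        subst a
        exact Prod.ext rfl (mul_left_cancel e)
    have h4 := card_erase_add_one hsX
    rw [card_insert_of_notMem hs, ← h4, Nat.factorial_succ, mul_assoc, Nat.add_sub_add_right]
    exact Nat.mul_le_mul_left _ (h1.trans h2)

open Classical in
lemma card_cyc_le (S : Finset α) (hS : 8 * S.card ≤ 7 * Fintype.card α) (h0 : 0 < Fintype.card α) :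
    8 * (univ.filter (fun f : Equiv.Perm α => ¬ NoCyc S f)).card ≤
      7 * (Fintype.card α).factorial := by
  have h1 := card_noCyc S univ (subset_univ _)
  simp only [mem_univ, not_true, false_imp_iff, implies_true, true_and, card_univ] at h1
  have h2 := card_filter_add_card_filter_not (s := univ) (fun f : Equiv.Perm α => NoCyc S f)
  rw [card_univ, Fintype.card_perm] at h2
  have h3 : (Fintype.card α).factorial * Fintype.card α ≤
      (Fintype.card α).factorial * (8 * (Fintype.card α - S.card)) :=
    Nat.mul_le_mul_left _ (by omega)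
  have h4 : Fintype.card α * (Fintype.card α).factorial ≤ Fintype.card α *
      (8 * (univ.filter (fun f : Equiv.Perm α => NoCyc S f)).card) := by
    nlinarith
  have := Nat.le_of_mul_le_mul_left h4 h0
  omega

lemma swap_walk (f : Equiv.Perm α) (a b : α) (k : ℕ)
    (h : ∀ j, 0 < j → j < k → (f ^ j) a ≠ a ∧ (f ^ j) a ≠ b) :
    ∀ j < k, ((Equiv.swap a b * f) ^ j) a = (f ^ j) a := by
  intro j hj
  induction j with
  | zero => rfl
  | succ j ih =>
    have := h (j + 1) (by omega) hj
    rw [pow_succ', Equiv.Perm.mul_apply, ih (by omega), Equiv.Perm.mul_apply,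
      ← Equiv.Perm.mul_apply f, ← pow_succ', Equiv.swap_apply_of_ne_of_ne this.1 this.2]

lemma merge_cyc {f : Equiv.Perm α} {a b : α} (h : ¬ f.SameCycle a b) :
    (Equiv.swap a b * f).SameCycle a b := by
  have hex : ∃ k, (f ^ (k + 1)) a = a :=
    ⟨orderOf f - 1, by rw [Nat.sub_add_cancel (orderOf_pos f), pow_orderOf_eq_one]; rfl⟩
  have := swap_walk f a b (Nat.find hex + 1) (fun j h1 h2 => ⟨by
    have := Nat.find_min hex (m := j - 1) (by omega)
    rwa [Nat.sub_add_cancel h1] at this, fun e => h ⟨j, by simpa using e⟩⟩) _ (Nat.lt_succ_self _)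
  refine ⟨(Nat.find hex + 1 : ℕ), ?_⟩
  rw [zpow_natCast, pow_succ', Equiv.Perm.mul_apply, this, Equiv.Perm.mul_apply,
    ← Equiv.Perm.mul_apply f, ← pow_succ', Nat.find_spec hex, Equiv.swap_apply_left]

lemma split_cyc {f : Equiv.Perm α} {a b : α} (hab : a ≠ b) (h : f.SameCycle a b) :
    ¬ (Equiv.swap a b * f).SameCycle a b := by
  have hex : ∃ k, (f ^ k) a = b := h.exists_nat_pow_eq
  obtain ⟨k, hk⟩ : ∃ k, Nat.find hex = k + 1 := ⟨Nat.find hex - 1, by
    have : Nat.find hex ≠ 0 := fun e => hab (by simpa [e] using Nat.find_spec hex)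
    omega⟩
  have hb : (f ^ (k + 1)) a = b := hk ▸ Nat.find_spec hex
  have hmin : ∀ j < k + 1, (f ^ j) a ≠ b := fun j hj => Nat.find_min hex (hk ▸ hj)
  have hw := swap_walk f a b (k + 1) (fun j h1 h2 => ⟨fun e => hmin (k + 1 - j) (by omega) (by
    conv_lhs => rw [← e]
    rw [← Equiv.Perm.mul_apply, ← pow_add, Nat.sub_add_cancel h2.le, hb]), hmin j h2⟩)
  have hret : ((Equiv.swap a b * f) ^ (k + 1)) a = a := by
    rw [pow_succ', Equiv.Perm.mul_apply, hw k (by omega), Equiv.Perm.mul_apply,
      ← Equiv.Perm.mul_apply f, ← pow_succ', hb, Equiv.swap_apply_right]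
  intro q
  obtain ⟨i, hi⟩ := q.exists_nat_pow_eq
  have : ((Equiv.swap a b * f) ^ (i % (k + 1))) a = b := by
    rw [← Nat.mod_add_div i (k + 1), pow_add, Equiv.Perm.mul_apply, pow_mul,
      Equiv.Perm.pow_apply_eq_self_of_apply_eq_self hret] at hi
    exact hi
  rw [hw _ (Nat.mod_lt _ (by omega))] at this
  exact hmin _ (Nat.mod_lt _ (by omega)) this

lemma card_notSame_le (a b : α) :
    2 * (univ.filter (fun f : Equiv.Perm α => ¬ f.SameCycle a b)).card ≤
      (Fintype.card α).factorial := by
  have h1 : (univ.filter (fun f : Equiv.Perm α => ¬ f.SameCycle a b)).card ≤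
      (univ.filter (fun f : Equiv.Perm α => f.SameCycle a b)).card := by
    apply card_le_card_of_injOn (fun f => Equiv.swap a b * f)
    · intro f hf
      simp only [coe_filter, mem_univ, true_and, Set.mem_ofPred_eq] at hf ⊢
      exact merge_cyc hf
    · exact fun _ _ _ _ e => mul_left_cancel e
  have h2 := card_filter_add_card_filter_not (s := univ) (fun f : Equiv.Perm α => f.SameCycle a b)
  rw [card_univ, Fintype.card_perm] at h2
  omega

lemma card_notSame_ge {a b : α} (hab : a ≠ b) : (Fintype.card α).factorial ≤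
    2 * (univ.filter (fun f : Equiv.Perm α => ¬ f.SameCycle a b)).card := by
  have h1 : (univ.filter (fun f : Equiv.Perm α => f.SameCycle a b)).card ≤
      (univ.filter (fun f : Equiv.Perm α => ¬ f.SameCycle a b)).card := by
    apply card_le_card_of_injOn (fun f => Equiv.swap a b * f)
    · intro f hf
      simp only [coe_filter, mem_univ, true_and, Set.mem_ofPred_eq] at hf ⊢
      exact split_cyc hab hf
    · exact fun _ _ _ _ e => mul_left_cancel e
  have h2 := card_filter_add_card_filter_not (s := univ) (fun f : Equiv.Perm α => f.SameCycle a b)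
  rw [card_univ, Fintype.card_perm] at h2
  omega

/-- an invariant set of intermediate size -/
def Mid (f : Equiv.Perm α) (A : Finset α) : Prop :=
  (∀ x, f x ∈ A ↔ x ∈ A) ∧ Fintype.card α ≤ 8 * A.card ∧ 8 * A.card ≤ 7 * Fintype.card α

lemma giant_of_noMid {f : Equiv.Perm α} (h0 : 0 < Fintype.card α) (h : ¬ ∃ A, Mid f A) :
    ∃ x, 7 * Fintype.card α < 8 * (univ.filter (f.SameCycle x)).card := by
  by_contra hcon
  push Not at hcon
  obtain ⟨U, hU, hmin⟩ := exists_min_image ((univ : Finset (Finset α)).filter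
    (fun U => (∀ x, f x ∈ U ↔ x ∈ U) ∧ Fintype.card α ≤ 8 * U.card)) card
    ⟨univ, by simp; omega⟩
  rw [mem_filter] at hU
  obtain ⟨x, hx⟩ : U.Nonempty := card_pos.mp (by have := hU.2.2; omega)
  have hC : ∀ y, f y ∈ univ.filter (f.SameCycle x) ↔ y ∈ univ.filter (f.SameCycle x) := by
    intro y; simp
  by_cases hc : Fintype.card α ≤ 8 * (univ.filter (f.SameCycle x)).card
  · exact h ⟨_, hC, hc, hcon x⟩
  · have h1 : ¬ Fintype.card α ≤ 8 * (U \ univ.filter (f.SameCycle x)).card := by
      intro q
      have := hmin (U \ univ.filter (f.SameCycle x)) (mem_filter.mpr ⟨mem_univ _, fun y => by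
        rw [Finset.mem_sdiff, Finset.mem_sdiff, hU.2.1, hC], q⟩)
      have h2 : (U \ univ.filter (f.SameCycle x)).card < U.card := by
        apply card_lt_card
        refine ⟨sdiff_subset, fun q => ?_⟩
        exact (Finset.mem_sdiff.mp (q hx)).2 (mem_filter.mpr ⟨mem_univ _, Equiv.Perm.SameCycle.refl _ _⟩)
      omega
    have := le_card_sdiff (univ.filter (f.SameCycle x)) U
    exact h ⟨U, hU.2.1, hU.2.2, by omega⟩

open Classical in
lemma card_noMid (h0 : 8 ≤ Fintype.card α) :
    4 * (univ.filter (fun f : Equiv.Perm α => ¬ ∃ A, Mid f A)).card ≤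
      3 * (Fintype.card α).factorial := by
  obtain ⟨n, hn⟩ : ∃ n, n = Fintype.card α := ⟨_, rfl⟩
  obtain ⟨c, hc⟩ : ∃ c : Equiv.Perm α → ℕ, c = fun f =>
    ((univ : Finset α).offDiag.filter (fun p => ¬ f.SameCycle p.1 p.2)).card := ⟨_, rfl⟩
  have h1 : (n * n - n) * n.factorial ≤ 2 * ∑ f, c f := by
    simp only [hc, card_filter]
    rw [sum_comm, mul_sum, hn, ← card_univ (α := α), ← offDiag_card, ← smul_eq_mul, ← sum_const]
    apply sum_le_sum
    intro p hp
    rw [← card_filter]
    exact card_notSame_ge (mem_offDiag.mp hp).2.2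
  have h2 : ∀ f, c f ≤ n * n := by
    intro f
    rw [hc]
    refine (card_le_univ _).trans ?_
    rw [Fintype.card_prod, hn]
  have h3 : ∀ f, (¬ ∃ A, Mid f A) → 4 * c f ≤ n * n := by
    intro f hf
    obtain ⟨x, hx⟩ := giant_of_noMid (by omega) hf
    rw [← hn] at hx
    have : c f + (univ.filter (f.SameCycle x) ×ˢ univ.filter (f.SameCycle x)).card ≤ n * n := by
      rw [hc, ← card_union_of_disjoint]
      · refine (card_le_univ _).trans ?_
        rw [Fintype.card_prod, hn]
      · rw [disjoint_left]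
        intro p hp hp'
        simp only [mem_product, mem_filter, mem_univ, true_and] at hp hp'
        exact hp.2 (hp'.1.symm.trans hp'.2)
    rw [card_product] at this
    nlinarith
  have h4 := card_filter_add_card_filter_not (s := univ) (fun f : Equiv.Perm α => ∃ A, Mid f A)
  rw [card_univ, Fintype.card_perm, ← hn] at h4
  rw [← sum_filter_add_sum_filter_not univ (fun f : Equiv.Perm α => ∃ A, Mid f A)] at h1
  have h5 := sum_le_card_nsmul (univ.filter (fun f : Equiv.Perm α => ∃ A, Mid f A)) c _
    (fun f _ => h2 f)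
  have h6 := sum_le_card_nsmul (univ.filter (fun f : Equiv.Perm α => ¬ ∃ A, Mid f A))
    (fun f => 4 * c f) _ (fun f hf => h3 f (mem_filter.mp hf).2)
  rw [← mul_sum] at h6
  simp only [smul_eq_mul] at h5 h6
  rw [← hn] at h0 ⊢
  obtain ⟨g, hg⟩ : ∃ g, g = (univ.filter (fun f : Equiv.Perm α => ∃ A, Mid f A)).card := ⟨_, rfl⟩
  obtain ⟨b, hb⟩ : ∃ b, b = (univ.filter (fun f : Equiv.Perm α => ¬ ∃ A, Mid f A)).card :=
    ⟨_, rfl⟩
  rw [← hg, ← hb] at h4
  rw [← hg] at h5
  rw [← hb] at h6 ⊢
  rw [← h4] at h1 ⊢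
  have h7 : 7 * (n * n) ≤ 8 * (n * n - n) := by
    have : 8 * n ≤ n * n := Nat.mul_le_mul_right _ h0
    omega
  have h8 := Nat.mul_le_mul_right (g + b) h7
  have h9 : 0 < n * n := by positivity
  have h10 : (n * n) * (3 * b) ≤ (n * n) * (9 * g) := by nlinarith
  have := Nat.le_of_mul_le_mul_left h10 h9
  omega

end

lemma derang_half : ∀ᶠ n : ℕ in atTop,
    2 * (univ.filter (fun f : Equiv.Perm (Fin n) => ∀ x, f x ≠ x)).card ≤ n.factorial := by
  have h1 : Real.exp (-1) < 1 / 2 := by
    rw [Real.exp_neg, inv_lt_comm₀ (Real.exp_pos _) (by norm_num)]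
    have := Real.add_one_lt_exp (x := 1) one_ne_zero
    linarith
  filter_upwards [numDerangements_tendsto_inv_e.eventually (gt_mem_nhds h1)] with n hn
  rw [div_lt_iff₀ (by positivity), ← card_derangements_fin_eq_numDerangements] at hn
  have : (univ.filter (fun f : Equiv.Perm (Fin n) => ∀ x, f x ≠ x)).card =
      Fintype.card (derangements (Fin n)) := by
    rw [← Fintype.card_subtype]; exact Fintype.card_congr (Equiv.refl _)
  rw [this]
  have h2 : (2 : ℝ) * Fintype.card (derangements (Fin n)) ≤ n.factorial := by linarith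
  exact_mod_cast h2

/-- a function of the family that is uniform once one coordinate is resampled -/
lemma unif {ι G : Type} [Fintype ι] [DecidableEq ι] [Fintype G] [DecidableEq G] (e : ι)
    (O : Finset (ι → G)) (hO : ∀ σ ∈ O, ∀ x, Function.update σ e x ∈ O) (Φ : (ι → G) → G)
    (hΦ : ∀ σ, Function.Injective (fun x => Φ (Function.update σ e x)))
    (B : (ι → G) → Finset G) (hB : ∀ σ x, B (Function.update σ e x) = B σ) {p q : ℕ}
    (hc : ∀ σ ∈ O, q * (B σ).card ≤ p * Fintype.card G) (hq : 0 < q) [Nonempty G] :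
    q * (O.filter (fun σ => Φ σ ∈ B σ)).card ≤ p * O.card := by
  have := resample O univ (fun σ => σ e) (fun σ x => Function.update σ e x)
    (fun σ hσ x _ => hO σ hσ x) (by simp) (by simp) (by simp)
    (O.filter (fun σ => Φ σ ∈ B σ)) (filter_subset _ _) (p * Fintype.card G / q) (by
      intro σ hσ
      rw [Nat.le_div_iff_mul_le hq, mul_comm]
      refine le_trans (Nat.mul_le_mul_left _ (card_le_card_of_injOn
        (fun x => Φ (Function.update σ e x)) ?_ (hΦ σ).injOn)) (hc σ hσ)
      intro x hx
      simp only [coe_filter, mem_filter, Set.mem_ofPred_eq, hB] at hx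
      exact hx.2.2)
  rw [card_univ] at this
  apply Nat.le_of_mul_le_mul_right _ (Fintype.card_pos (α := G))
  have h2 := Nat.mul_div_le (p * Fintype.card G) q
  calc _ = q * ((O.filter (fun σ => Φ σ ∈ B σ)).card * Fintype.card G) := by ring
    _ ≤ q * (O.card * (p * Fintype.card G / q)) := Nat.mul_le_mul_left _ this
    _ = O.card * (q * (p * Fintype.card G / q)) := by ring
    _ ≤ O.card * (p * Fintype.card G) := Nat.mul_le_mul_left _ h2
    _ = _ := by ring

section
variable {V : Type} [Fintype V] [DecidableEq V]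

lemma ham_two {G : SimpleGraph V} (hG : G.IsHamiltonian) (hV : Fintype.card V ≠ 1) :
    ∃ F : SimpleGraph V, F ≤ G ∧ (∀ u v, F.Reachable u v) ∧ ∀ v, (F.neighborSet v).ncard = 2 := by
  obtain ⟨a, p, hp⟩ := hG hV
  refine ⟨p.toSubgraph.spanningCoe, p.toSubgraph.spanningCoe_le, ?_,
    fun v => hp.isCycle.ncard_neighborSet_toSubgraph_eq_two (hp.mem_support v)⟩
  have h1 : ∀ e ∈ p.edges, e ∈ p.toSubgraph.spanningCoe.edgeSet := by
    intro e he
    induction e using Sym2.ind with
    | h x y => exact SimpleGraph.Walk.adj_toSubgraph_iff_mem_edges.mpr he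
  have h2 : ∀ v, p.toSubgraph.spanningCoe.Reachable a v := fun v =>
    ⟨(p.transfer _ h1).takeUntil v (by
      rw [SimpleGraph.Walk.support_transfer]; exact hp.mem_support v)⟩
  exact fun u v => (h2 u).symm.trans (h2 v)

lemma two_ham {G F : SimpleGraph V} [Nonempty V] (hle : F ≤ G) (hc : ∀ u v, F.Reachable u v)
    (h2 : ∀ v, (F.neighborSet v).ncard = 2) : G.IsHamiltonian := by
  classical
  have hcyc : F.IsCycles := fun v _ => h2 v
  apply SimpleGraph.IsHamiltonian.mono hle
  intro _
  obtain ⟨v⟩ := ‹Nonempty V›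
  obtain ⟨p, hp, hv⟩ := hcyc.exists_cycle_toSubgraph_verts_eq_connectedComponentSupp
    (c := F.connectedComponentMk v) (v := v) (by simp)
    (Set.nonempty_of_ncard_ne_zero (by rw [h2]; omega))
  refine ⟨v, p, hp, hp.isPath_tail.isHamiltonian_of_mem ?_⟩
  intro w
  have hw : w ∈ p.support := by
    rw [← SimpleGraph.Walk.mem_verts_toSubgraph, hv]
    simp only [SimpleGraph.ConnectedComponent.mem_supp_iff, SimpleGraph.ConnectedComponent.eq]
    exact hc w v
  rw [SimpleGraph.Walk.support_tail_of_not_nil _ hp.not_nil]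
  rw [← SimpleGraph.Walk.cons_tail_support, List.mem_cons] at hw
  rcases hw with rfl | hw
  · exact SimpleGraph.Walk.end_mem_tail_support hp.not_nil
  · exact hw

lemma both_of_two {F : SimpleGraph V} {v a b : V} (h2 : (F.neighborSet v).ncard = 2)
    (h : ∀ w, F.Adj v w → w = a ∨ w = b) : F.Adj v a ∧ F.Adj v b := by
  obtain ⟨x, y, hxy, e⟩ := Set.ncard_eq_two.mp h2
  have hx : F.Adj v x := by rw [← SimpleGraph.mem_neighborSet, e]; simp
  have hy : F.Adj v y := by rw [← SimpleGraph.mem_neighborSet, e]; simp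
  rcases h x hx with rfl | rfl <;> rcases h y hy with rfl | rfl
  · exact absurd rfl hxy
  · exact ⟨hx, hy⟩
  · exact ⟨hy, hx⟩
  · exact absurd rfl hxy

lemma third_of_two {F : SimpleGraph V} {v a b w : V} (h2 : (F.neighborSet v).ncard = 2)
    (ha : F.Adj v a) (hb : F.Adj v b) (hab : a ≠ b) (hw : F.Adj v w) : w = a ∨ w = b := by
  obtain ⟨x, y, -, e⟩ := Set.ncard_eq_two.mp h2
  rw [← SimpleGraph.mem_neighborSet, e] at ha hb hw
  simp only [Set.mem_insert_iff, Set.mem_singleton_iff] at ha hb hw
  grind

lemma xor_of_three {F : SimpleGraph V} {v a b c : V} (h2 : (F.neighborSet v).ncard = 2)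
    (h : ∀ w, F.Adj v w → w = a ∨ w = b ∨ w = c) (hc : F.Adj v c) (hab : a ≠ b) (hac : a ≠ c)
    (hbc : b ≠ c) : F.Adj v b ↔ ¬ F.Adj v a := by
  constructor
  · intro hb ha
    rcases third_of_two h2 ha hb hab hc with q | q
    · exact hac q.symm
    · exact hbc q.symm
  · intro ha
    refine (both_of_two h2 (b := c) (fun w hw => ?_)).1
    exact (h w hw).resolve_left (by rintro rfl; exact ha hw)

end

end Pool.Agent.MP_755159_pr.G
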